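import Pool.Agent.Lib.MP_c9a594_an.FS.Defs
import Pool.Agent.Lib.MP_c9a594_an.Indep

/-! Powers of `a` have no finite expansion in powers of `b`. -/

namespace Pool.Agent.Lib.MP_c9a594_an.FS

open Filter Topology

variable {U : Ultrafilter ℕ} {a b : ℕ} {γ : ℕ → ℝ}

lemma Rep.of_bdd {C : ℝ} (h : ∀ᶠ n in U, |γ n| ≤ C) : Rep U b γ :=
  ⟨0, Fin.elim0, Fin.elim0, C, fun k => k.elim0, fun k => k.elim0, fun k => k.elim0,
    fun k => k.elim0, by simpa using h⟩

lemma Rep.step (hb : 2 ≤ b) {r : ℚ} (hr : r ≠ 0) {L : ℕ → ℕ} (hL : Tendsto L U atTop)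
    (h0 : Tendsto (fun n => γ n / (b : ℝ) ^ L n) U (𝓝 r))
    (h : Rep U b fun n => γ n - r * (b : ℝ) ^ L n) : Rep U b γ := by
  obtain ⟨K, r', L', C, h1, h2, h3, h4, h5⟩ := h
  have hb0 : ∀ m : ℕ, (0 : ℝ) < (b : ℝ) ^ m := fun m => pow_pos (by exact_mod_cast by omega) m
  have hr0 : (0 : ℝ) < |(r : ℝ)| := abs_pos.2 (by exact_mod_cast hr)
  have h6 : ∀ j, Tendsto (fun n => (b : ℝ) ^ L' j n / (b : ℝ) ^ L n) U (𝓝 0) := fun j => by
    obtain ⟨D, hD⟩ := h4 j
    have h7 := ((h0.sub_const r).abs).const_mul D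
    rw [sub_self, abs_zero, mul_zero] at h7
    refine squeeze_zero' (Eventually.of_forall fun n => (div_pos (hb0 _) (hb0 _)).le)
      (hD.mono fun n hn => ?_) h7
    rw [div_sub' (hb0 _).ne', abs_div, abs_of_pos (hb0 _), ← mul_div_assoc, mul_comm _ (r : ℝ)]
    exact div_le_div_of_nonneg_right hn (hb0 _).le
  have h7 : ∀ᶠ n in U, (b : ℝ) ^ L n ≤ 2 / |(r : ℝ)| * |γ n| := by
    filter_upwards [h0.abs.eventually_const_le (half_lt_self hr0)] with n hn
    rw [abs_div, abs_of_pos (hb0 _), le_div_iff₀ (hb0 _)] at hn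
    rw [div_mul_eq_mul_div, le_div_iff₀ hr0]
    linarith
  refine ⟨K + 1, Fin.cons r r', Fin.cons L L', C, Fin.cases hr h1, Fin.cases hL h2,
    fun i j hij => ?_, fun k => ⟨2 / |(r : ℝ)|, ?_⟩, h5.mono fun n hn => ?_⟩
  · obtain ⟨j, rfl⟩ := Fin.exists_succ_eq_of_ne_zero (hij.trans_le' (Fin.zero_le i)).ne'
    induction i using Fin.cases with
    | zero => exact h6 j
    | succ i => exact h3 i j (Fin.succ_lt_succ_iff.1 hij)
  · induction k using Fin.cases with
    | zero => exact h7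
    | succ j =>
      filter_upwards [h7, (h6 j).eventually_le_const zero_lt_one] with n h8 h9
      exact ((div_le_one (hb0 _)).1 h9).trans h8
  · rw [Fin.sum_univ_succ, ← sub_sub]
    exact hn

lemma arith_const {ι : Type} [Fintype ι] (r : ι → ℚ) (z : ι → ℕ → ℤ) {C : ℝ}
    (h : ∀ᶠ n in U, |((∑ k, r k * z k n : ℚ) : ℝ)| ≤ C) :
    ∃ p : ℚ, ∀ᶠ n in U, ∑ k, r k * z k n = p := by
  obtain ⟨q, hq⟩ := IsLocalization.exist_integer_multiples_of_finite (nonZeroDivisors ℤ) r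
  choose p hp using hq
  have q0 : ((q : ℤ) : ℚ) ≠ 0 := Int.cast_ne_zero.2 (nonZeroDivisors.coe_ne_zero q)
  have e : ∀ n, ((∑ k, p k * z k n : ℤ) : ℚ) = (q : ℤ) * ∑ k, r k * z k n := fun n => by
    rw [Finset.mul_sum, Int.cast_sum]
    refine Finset.sum_congr rfl fun k _ => ?_
    have := hp k
    rw [eq_intCast, zsmul_eq_mul] at this
    rw [Int.cast_mul, this, mul_assoc]
  have h1 : ∀ᶠ n in U, ∃ m ∈ Set.Icc (-⌈|((q : ℤ) : ℝ)| * C⌉) ⌈|((q : ℤ) : ℝ)| * C⌉,
      ∑ k, p k * z k n = m := h.mono fun n hn => by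
    refine ⟨_, abs_le.1 ((Int.cast_le (R := ℝ)).1 (le_trans ?_ (Int.le_ceil _))), rfl⟩
    rw [Int.cast_abs, ← Rat.cast_intCast, e, Rat.cast_mul, abs_mul, Rat.cast_intCast]
    exact mul_le_mul_of_nonneg_left hn (abs_nonneg _)
  obtain ⟨m, -, hm⟩ := (Ultrafilter.eventually_exists_mem_iff (Set.finite_Icc _ _)).1 h1
  exact ⟨m / (q : ℤ), hm.mono fun n hn => by rw [← hn, e, mul_div_cancel_left₀ _ q0]⟩

theorem not_rep (ha : 2 ≤ a) (hb : 2 ≤ b) (hab : ∀ m n : ℕ, a ^ m = b ^ n → m = 0 ∧ n = 0)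
    (hU : (U : Filter ℕ) ≤ atTop) {l : ℤ} (hl : l ≠ 0) :
    ¬ Rep U b fun n => (l : ℝ) * (a : ℝ) ^ n := by
  rintro ⟨K, r, L, C, -, h2, h3, -, h5⟩
  obtain ⟨p, hp⟩ := arith_const (U := U) (C := C) (fun k : Option (Fin K) => k.elim l fun k => -r k)
    (fun k n => k.elim (a ^ n) fun k => b ^ L k n) (h5.mono fun n hn => by
      simpa [Fintype.sum_option, sub_eq_add_neg] using hn)
  have hc : ∀ (f : ℕ → ℕ) (c : ℤ), Tendsto f U atTop → ¬ ∀ᶠ n in U, (f n : ℤ) = c :=
    fun f c hf h => by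
      obtain ⟨n, h1, h2⟩ := (h.and (hf.eventually_gt_atTop c.toNat)).exists
      omega
  have hd : ∀ (i j : Fin K) (c : ℤ), i < j → ¬ ∀ᶠ n in U, (L j n : ℤ) - L i n = c :=
    fun i j c hij h => by
      have hb0 : (0 : ℝ) < b := by exact_mod_cast by omega
      obtain ⟨n, h1, h2⟩ := (h.and ((h3 i j hij).eventually_lt_const (zpow_pos hb0 c))).exists
      rw [← h1, zpow_sub₀ hb0.ne', zpow_natCast, zpow_natCast] at h2
      exact lt_irrefl _ h2
  have hi := gm_independent (U := U) ha hb (fun k m hk _ e => hk.ne' (hab k m e).1)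
    (fun (j : Option (Option (Fin K))) n => j.elim ((0, 0) : ℤ × ℤ) fun j =>
      j.elim (n, 0) fun k => (0, L k n)) (by
      rintro (_ | _ | i) (_ | _ | j) ⟨c, h⟩
      · rfl
      · exact (hc id (-c.1) hU (h.mono fun n hn => by simp [← hn])).elim
      · exact (hc _ (-c.2) (h2 j) (h.mono fun n hn => by simp [← hn])).elim
      · exact (hc id c.1 hU (h.mono fun n hn => by simp [← hn])).elim
      · rfl
      · exact (hc id c.1 hU (h.mono fun n hn => by simp [← hn])).elim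
      · exact (hc _ c.2 (h2 i) (h.mono fun n hn => by simp [← hn])).elim
      · exact (hc id (-c.1) hU (h.mono fun n hn => by simp [← hn])).elim
      · rcases lt_trichotomy i j with e | rfl | e
        · exact (hd i j (-c.2) e (h.mono fun n hn => by simp [← hn])).elim
        · rfl
        · exact (hd j i c.2 e (h.mono fun n hn => by simp [← hn])).elim)
  have := Fintype.linearIndependent_iff.1 hi
    (fun j => j.elim (-p) fun j => j.elim l fun k => -r k) (by
      simp only [gm, germ_smul, germ_sum, germ_eq_zero]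
      refine hp.mono fun n hn => ?_
      simp [Fintype.sum_option, ← hn]) (some none)
  exact hl (by simpa using this)

end Pool.Agent.Lib.MP_c9a594_an.FS
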