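import Pool.Agent.Lib.MP_c9a594_an.FS.Defs

/-! Elementary facts on the shift space. -/

namespace Pool.Agent.Lib.MP_c9a594_an.FS

open MeasureTheory Filter Topology

variable {b : ℕ}

lemma norm_ee (x : ℝ) : ‖ee x‖ = 1 := Complex.norm_exp_ofReal_mul_I _

lemma ee_add (x y : ℝ) : ee (x + y) = ee x * ee y := by
  rw [ee, ee, ee, ← Complex.exp_add]
  congr 1
  push_cast
  ring

lemma ee_int (m : ℤ) : ee m = 1 := by
  rw [ee, ← Complex.exp_int_mul_two_pi_mul_I m]
  congr 1
  push_cast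
  ring

lemma continuous_ee : Continuous ee := by
  unfold ee
  fun_prop

lemma basic_norm_sub (x y : ℝ) : ‖ee x - ee y‖ = 2 * |Real.sin (Real.pi * (x - y))| := by
  have h : ee x - ee y = ee y * (ee (x - y) - 1) := by
    rw [mul_sub, ← ee_add, mul_one, add_sub_cancel]
  have h2 : ee (x - y) = Complex.exp (Complex.I * ((2 * Real.pi * (x - y) : ℝ) : ℂ)) := by
    rw [ee, mul_comm]
  rw [h, norm_mul, norm_ee, one_mul, h2, Complex.norm_exp_I_mul_ofReal_sub_one, Real.norm_eq_abs,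
    abs_mul, abs_two]
  congr 3
  ring

lemma norm_ee_sub_le (x y : ℝ) : ‖ee x - ee y‖ ≤ 2 * Real.pi * |x - y| := by
  rw [basic_norm_sub, mul_assoc]
  refine mul_le_mul_of_nonneg_left ?_ zero_le_two
  refine (Real.abs_sin_le_abs).trans ?_
  rw [abs_mul, abs_of_pos Real.pi_pos]

lemma exists_int_of_ee (x y : ℝ) : ∃ m : ℤ, 4 * |x - y - m| ≤ ‖ee x - ee y‖ := by
  refine ⟨round (x - y), ?_⟩
  have h0 : ee x = ee (x - round (x - y)) := by
    have := ee_add (x - round (x - y)) (round (x - y) : ℤ)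
    rw [ee_int, mul_one, sub_add_cancel] at this
    exact this
  rw [h0, basic_norm_sub]
  have e : x - (round (x - y) : ℝ) - y = x - y - round (x - y) := by ring
  rw [e]
  set t := x - y - (round (x - y) : ℝ) with ht
  have h1 : |t| ≤ 1 / 2 := abs_sub_round (x - y)
  have h2 : |Real.pi * t| ≤ Real.pi / 2 := by
    rw [abs_mul, abs_of_pos Real.pi_pos]
    nlinarith [Real.pi_pos]
  have h3 := Real.mul_abs_le_abs_sin h2
  rw [abs_mul, abs_of_pos Real.pi_pos] at h3
  have h4 : 2 / Real.pi * (Real.pi * |t|) = 2 * |t| := by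
    field_simp
  linarith

lemma sh_sh (k l : ℤ) (ω : Om b) : sh k (sh l ω) = sh (k + l) ω := by
  funext j; simp [sh, add_assoc]

lemma sh_zero (ω : Om b) : sh 0 ω = ω := by
  funext j; simp [sh]

lemma continuous_sh (k : ℤ) : Continuous (sh k : Om b → Om b) := continuous_pi fun j => continuous_apply (j + k)

lemma measurable_sh (k : ℤ) : Measurable (sh k : Om b → Om b) := measurable_pi_lambda _ fun j => measurable_pi_apply (j + k)

lemma Pk_le (b : ℕ) (k : ℤ) : Pk b k ≤ (inferInstance : MeasurableSpace (Om b)) :=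
  cylinderEvents_le_pi

lemma Pk_mono (b : ℕ) {k l : ℤ} (h : k ≤ l) : Pk b k ≤ Pk b l :=
  cylinderEvents_mono (Set.Iio_subset_Iio h)

lemma comap_sh_Pk (k l : ℤ) : (Pk b l).comap (sh k) = Pk b (l + k) := by
  simp only [Pk, cylinderEvents, MeasurableSpace.comap_iSup, MeasurableSpace.comap_comp]
  apply le_antisymm
  · refine iSup₂_le fun i hi => ?_
    exact le_iSup₂_of_le (i + k) (show i + k < l + k from by simpa using hi) le_rfl
  · refine iSup₂_le fun i hi => ?_
    refine le_iSup₂_of_le (i - k) (show i - k < l from sub_lt_iff_lt_add.2 hi) (le_of_eq ?_)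
    congr 1
    funext ω
    simp [sh]

lemma measurable_sh_Pk {k l m : ℤ} (h : l + k ≤ m) : Measurable[Pk b m, Pk b l] (sh k) := by
  rw [measurable_iff_comap_le, comap_sh_Pk]
  exact Pk_mono b h

lemma Yv_nonneg (ω : Om b) : 0 ≤ Yv ω := tsum_nonneg fun _ => by positivity

lemma basic_term_le (hb : 2 ≤ b) (ω : Om b) (j : ℕ) :
    ((ω j : ℕ) : ℝ) / (b : ℝ) ^ (j + 1) ≤ (1 - (b : ℝ)⁻¹) * ((b : ℝ)⁻¹) ^ j := by
  have h0 : (0 : ℝ) < b := by exact_mod_cast (by omega : 0 < b)
  have h1 : ((ω j : ℕ) : ℝ) + 1 ≤ b := by exact_mod_cast (ω j).2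
  have h2 : (1 - (b : ℝ)⁻¹) * ((b : ℝ)⁻¹) ^ j = ((b : ℝ) - 1) / (b : ℝ) ^ (j + 1) := by
    rw [inv_pow, pow_succ]
    field_simp
  rw [h2]
  exact div_le_div_of_nonneg_right (by linarith) (by positivity)

lemma basic_geo (hb : 2 ≤ b) :
    HasSum (fun j : ℕ => (1 - (b : ℝ)⁻¹) * ((b : ℝ)⁻¹) ^ j) 1 := by
  have h0 : (1 : ℝ) < b := by exact_mod_cast (by omega : 1 < b)
  have h1 : (b : ℝ)⁻¹ < 1 := inv_lt_one_of_one_lt₀ h0
  have h := (hasSum_geometric_of_lt_one (by positivity) h1).mul_left (1 - (b : ℝ)⁻¹)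
  rwa [mul_inv_cancel₀ (by linarith)] at h

lemma basic_summable (hb : 2 ≤ b) (ω : Om b) :
    Summable fun j : ℕ => ((ω j : ℕ) : ℝ) / (b : ℝ) ^ (j + 1) :=
  Summable.of_nonneg_of_le (fun _ => by positivity) (basic_term_le hb ω) (basic_geo hb).summable

lemma Yv_le_one (hb : 2 ≤ b) (ω : Om b) : Yv ω ≤ 1 := by
  rw [← (basic_geo hb).tsum_eq]
  exact Summable.tsum_le_tsum (basic_term_le hb ω) (basic_summable hb ω) (basic_geo hb).summable

lemma basic_step (hb : 2 ≤ b) (ω : Om b) : (b : ℝ) * Yv ω = (ω 0 : ℕ) + Yv (sh 1 ω) := by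
  have h0 : (b : ℝ) ≠ 0 := by exact_mod_cast (by omega : b ≠ 0)
  rw [Yv, (basic_summable hb ω).tsum_eq_zero_add, mul_add, Yv, ← tsum_mul_left]
  congr 1
  · simp only [Nat.cast_zero, zero_add, pow_one]
    field_simp
  · refine tsum_congr fun j => ?_
    simp only [sh, Nat.cast_add, Nat.cast_one]
    rw [pow_succ (b : ℝ) (j + 1)]
    field_simp

lemma Yv_pow (hb : 2 ≤ b) (n : ℕ) (ω : Om b) :
    (b : ℝ) ^ n * Yv ω = Xw n ω + Yv (sh n ω) := by
  induction n with
  | zero => simp [Xw, sh_zero]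
  | succ n ih =>
    rw [pow_succ', mul_assoc, ih, mul_add, basic_step hb, sh_sh, Xw]
    have e : (1 : ℤ) + (n : ℤ) = ((n + 1 : ℕ) : ℤ) := by push_cast; ring
    rw [e]
    simp only [sh, zero_add]
    push_cast
    ring

lemma Yv_congr {ω ω' : Om b} (h : ∀ j : ℕ, ω j = ω' j) : Yv ω = Yv ω' := tsum_congr fun j => by rw [h j]

lemma continuous_Yv (hb : 2 ≤ b) : Continuous (Yv : Om b → ℝ) := by
  refine continuous_tsum (fun j => ?_) (basic_geo hb).summable fun j ω => ?_
  · exact (continuous_of_discreteTopology (f := fun c : Fin b => ((c : ℕ) : ℝ) / (b : ℝ) ^ (j + 1))).comp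
      (continuous_apply (j : ℤ))
  · rw [Real.norm_of_nonneg (by positivity)]
    exact basic_term_le hb ω j

lemma measurable_Yv (hb : 2 ≤ b) : Measurable (Yv : Om b → ℝ) := (continuous_Yv hb).measurable

lemma Xw_lt (n : ℕ) (ω : Om b) : Xw n ω < b ^ n := by
  induction n with
  | zero => simp [Xw]
  | succ n ih =>
    have h1 := (ω n).2
    have h2 : b * (Xw n ω + 1) ≤ b * b ^ n := Nat.mul_le_mul_left _ ih
    rw [Xw, pow_succ']
    rw [mul_add, mul_one] at h2
    omega

lemma Xw_eq_iff (n : ℕ) (ω ω' : Om b) : Xw n ω = Xw n ω' ↔ ∀ j : ℕ, j < n → ω j = ω' j := by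
  induction n with
  | zero => simp [Xw]
  | succ n ih =>
    constructor
    · intro h
      rw [Xw, Xw] at h
      have h1 := (ω n).2
      have h2 := (ω' n).2
      have h3 : ((ω n : Fin b) : ℕ) = ω' n := by
        have := congrArg (· % b) h
        simpa [Nat.mul_add_mod, Nat.mod_eq_of_lt h1, Nat.mod_eq_of_lt h2] using this
      rw [h3, Nat.add_right_cancel_iff] at h
      have h4 := ih.1 (Nat.eq_of_mul_eq_mul_left (by omega) h)
      intro j hj
      rcases Nat.lt_succ_iff_lt_or_eq.1 hj with hj | rfl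
      · exact h4 j hj
      · exact Fin.ext h3
    · intro h
      rw [Xw, Xw, ih.2 fun j hj => h j (by omega), h n (by omega)]

lemma Xw_add (m n : ℕ) (ω : Om b) : Xw (m + n) ω = b ^ n * Xw m ω + Xw n (sh m ω) := by
  induction n with
  | zero => simp [Xw]
  | succ n ih =>
    rw [← add_assoc, Xw, Xw, ih, pow_succ']
    have e : sh (m : ℤ) ω (n : ℤ) = ω ((m + n : ℕ) : ℤ) := by
      simp only [sh]
      congr 1
      push_cast
      ring
    rw [e]
    ring

lemma wd_eq_iff (k : ℤ) (n : ℕ) (ω ω' : Om b) :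
    wd k n ω = wd k n ω' ↔ ∀ j, k ≤ j → j < k + n → ω j = ω' j := by
  constructor
  · intro h j h1 h2
    have h3 := congrFun h ⟨(j - k).toNat, by omega⟩
    simp only [wd] at h3
    have e : k + (((j - k).toNat : ℕ) : ℤ) = j := by omega
    rwa [e] at h3
  · intro h
    funext i
    have := i.2
    exact h _ (by omega) (by omega)

lemma wd_sh (k l : ℤ) (n : ℕ) (ω : Om b) : wd k n (sh l ω) = wd (k + l) n ω := by
  funext i
  simp only [wd, sh]
  congr 1
  ring

end Pool.Agent.Lib.MP_c9a594_an.FS
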