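import Pool.Agent.Lib.MP_c9a594_an.FS.EntSh

/-! The unpredictable part of an invariant measure. -/

namespace Pool.Agent.Lib.MP_c9a594_an.FS

open MeasureTheory ProbabilityTheory Filter Topology

variable {b : ℕ} {P : Measure (Om b)} [IsProbabilityMeasure P]

lemma red_ae_eq_pre (hP : Inv P) {E : Set (Om b)} (hE : MeasurableSet E)
    (h : ∀ᵐ ω ∂P, ω ∈ E → sh 1 ω ∈ E) : E =ᵐ[P] (sh 1 ⁻¹' E : Set (Om b)) := by
  refine ae_eq_of_ae_subset_of_measure_ge h ?_ hE.nullMeasurableSet (measure_ne_top _ _)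
  rw [(hP 1).measure_preimage hE.nullMeasurableSet]

lemma inv_cond (hP : Inv P) {E : Set (Om b)} (hE : MeasurableSet E)
    (h : ∀ᵐ ω ∂P, ω ∈ E → sh 1 ω ∈ E) : Inv (cond P E) := by
  refine inv_of_one ?_
  have h1 := (hP 1).restrict_preimage hE
  rw [← Measure.restrict_congr_set (red_ae_eq_pre hP hE h)] at h1
  exact h1.smul_measure _

lemma red_ae_cond {E : Set (Om b)} (hE : MeasurableSet E) {p : Om b → Prop}
    (h : ∀ᵐ ω ∂(cond P E), p ω) : ∀ᵐ ω ∂P, ω ∈ E → p ω := by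
  rw [ae_iff] at h ⊢
  rw [cond_apply hE, mul_eq_zero] at h
  rcases h with h | h
  · exact absurd h (ENNReal.inv_ne_zero.2 (measure_ne_top _ _))
  · refine measure_mono_null ?_ h
    intro ω hω
    exact Classical.not_imp.1 hω

/-- The conditional variance of the future given the past. -/
noncomputable def redW (P : Measure (Om b)) : Om b → ℝ :=
  P[fun ω => (Yv ω - P[Yv | Pk b 0] ω) ^ 2 | Pk b 0]

lemma red_int_Yv (hb : 2 ≤ b) : Integrable (Yv : Om b → ℝ) P := by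
  refine Integrable.of_bound (measurable_Yv hb).aestronglyMeasurable 1 (.of_forall fun ω => ?_)
  rw [Real.norm_eq_abs, abs_of_nonneg (Yv_nonneg ω)]
  exact Yv_le_one hb ω

lemma red_M_bd (hb : 2 ≤ b) : ∀ᵐ ω ∂P, 0 ≤ P[Yv | Pk b 0] ω ∧ P[Yv | Pk b 0] ω ≤ 1 := by
  have h0 : 0 ≤ᵐ[P] P[Yv | Pk b 0] := condExp_nonneg (.of_forall fun ω => Yv_nonneg ω)
  have h1 : P[Yv | Pk b 0] ≤ᵐ[P] P[fun _ => (1 : ℝ) | Pk b 0] :=
    condExp_mono (red_int_Yv hb) (integrable_const _) (.of_forall fun ω => Yv_le_one hb ω)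
  rw [condExp_const (Pk_le b 0)] at h1
  filter_upwards [h0, h1] with ω a c using ⟨a, c⟩

omit [IsProbabilityMeasure P] in
lemma red_Z_meas (hb : 2 ≤ b) :
    AEStronglyMeasurable (fun ω => (Yv ω - P[Yv | Pk b 0] ω) ^ 2) P :=
  (((measurable_Yv hb).sub
    (stronglyMeasurable_condExp.mono (Pk_le b 0)).measurable).pow_const 2).aestronglyMeasurable

lemma red_Z_bd (hb : 2 ≤ b) : ∀ᵐ ω ∂P, (Yv ω - P[Yv | Pk b 0] ω) ^ 2 ≤ 1 := by
  filter_upwards [red_M_bd (P := P) hb] with ω h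
  have h0 := Yv_nonneg ω
  have h1 := Yv_le_one hb ω
  nlinarith [h.1, h.2]

lemma red_int_Z (hb : 2 ≤ b) : Integrable (fun ω => (Yv ω - P[Yv | Pk b 0] ω) ^ 2) P := by
  refine Integrable.of_bound (red_Z_meas hb) 1 ?_
  filter_upwards [red_Z_bd (P := P) hb] with ω h
  rwa [Real.norm_eq_abs, abs_of_nonneg (sq_nonneg _)]

omit [IsProbabilityMeasure P] in
lemma red_W_meas : Measurable[Pk b 0] (redW P) := stronglyMeasurable_condExp.measurable

omit [IsProbabilityMeasure P] in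
lemma red_W_nonneg : ∀ᵐ ω ∂P, 0 ≤ redW P ω :=
  condExp_nonneg (.of_forall fun _ => sq_nonneg _)

omit [IsProbabilityMeasure P] in
lemma red_D_meas : MeasurableSet[Pk b 0] {ω | redW P ω ≤ 0} :=
  red_W_meas (P := P) measurableSet_Iic

/-- Where the conditional variance vanishes, the future is a function of the past. -/
lemma red_D_pred (hb : 2 ≤ b) : ∀ᵐ ω ∂P, ω ∈ {ω | redW P ω ≤ 0} → Yv ω = P[Yv | Pk b 0] ω := by
  have hD := Pk_le b 0 _ (red_D_meas (P := P))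
  have h1 : ∫ ω in {ω | redW P ω ≤ 0}, redW P ω ∂P =
      ∫ ω in {ω | redW P ω ≤ 0}, (Yv ω - P[Yv | Pk b 0] ω) ^ 2 ∂P :=
    setIntegral_condExp (Pk_le b 0) (red_int_Z hb) red_D_meas
  have h2 : ∫ ω in {ω | redW P ω ≤ 0}, redW P ω ∂P ≤ 0 := setIntegral_nonpos hD fun ω hω => hω
  have h3 : ∫ ω in {ω | redW P ω ≤ 0}, (Yv ω - P[Yv | Pk b 0] ω) ^ 2 ∂P = 0 :=
    le_antisymm (h1 ▸ h2) (integral_nonneg fun ω => sq_nonneg _)
  rw [integral_eq_zero_iff_of_nonneg (fun ω => sq_nonneg _) (red_int_Z hb).integrableOn] at h3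
  have h4 := (ae_restrict_iff' hD).1 h3
  filter_upwards [h4] with ω h hω
  exact sub_eq_zero.1 (pow_eq_zero_iff two_ne_zero |>.1 (h hω))

/-- Where the future is a function of the past, the conditional variance vanishes. -/
lemma red_pred_D (hb : 2 ≤ b) {E : Set (Om b)} {g : Om b → ℝ} (hE : MeasurableSet[Pk b 0] E)
    (hg : Measurable[Pk b 0] g) (h : ∀ᵐ ω ∂P, ω ∈ E → Yv ω = g ω) :
    ∀ᵐ ω ∂P, ω ∈ E → redW P ω ≤ 0 := by
  have hE' := Pk_le b 0 _ hE
  have e1 : E.indicator Yv =ᵐ[P] E.indicator g := by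
    filter_upwards [h] with ω hω
    by_cases hm : ω ∈ E
    · simp [Set.indicator_of_mem hm, hω hm]
    · simp [Set.indicator_of_notMem hm]
  have i1 : Integrable (E.indicator Yv) P := (red_int_Yv hb).indicator hE'
  have e2 : P[E.indicator Yv | Pk b 0] =ᵐ[P] E.indicator Yv :=
    condExp_of_aestronglyMeasurable' (Pk_le b 0)
      ((hg.indicator hE).stronglyMeasurable.aestronglyMeasurable.congr e1.symm) i1
  have e3 := condExp_indicator (m := Pk b 0) (red_int_Yv (P := P) hb) hE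
  have e4 : E.indicator (fun ω => (Yv ω - P[Yv | Pk b 0] ω) ^ 2) =ᵐ[P] 0 := by
    filter_upwards [e2, e3] with ω h2 h3
    by_cases hm : ω ∈ E
    · have := h2.symm.trans h3
      simp only [Set.indicator_of_mem hm] at this ⊢
      simp [this]
    · simp [Set.indicator_of_notMem hm]
  have e5 := condExp_indicator (m := Pk b 0) (red_int_Z (P := P) hb) hE
  have e6 := condExp_congr_ae (m := Pk b 0) e4
  rw [condExp_zero] at e6
  filter_upwards [e5, e6] with ω h5 h6 hm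
  have := h5.symm.trans h6
  rw [Set.indicator_of_mem hm] at this
  exact le_of_eq this

/-- The predictable part is forward invariant. -/
lemma red_D_fwd (hb : 2 ≤ b) (hP : Inv P) :
    ∀ᵐ ω ∂P, ω ∈ {ω | redW P ω ≤ 0} → sh 1 ω ∈ {ω | redW P ω ≤ 0} := by
  have hs : Measurable[Pk b 0, Pk b 0] (sh (-1) : Om b → Om b) := measurable_sh_Pk (by norm_num)
  have hX : Measurable[Pk b 0] fun ω : Om b => ((Xw 1 (sh (-1) ω) : ℕ) : ℝ) := by
    refine measurable_Pk_of_dep (k := -1) (l := 0) le_rfl fun ω ω' h => ?_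
    have : Xw 1 (sh (-1) ω) = Xw 1 (sh (-1) ω') := by
      refine (Xw_eq_iff 1 _ _).2 fun j hj => ?_
      obtain rfl : j = 0 := by omega
      exact h _ (by norm_num) (by norm_num)
    rw [this]
  have hM : Measurable[Pk b 0] (P[Yv | Pk b 0]) := stronglyMeasurable_condExp.measurable
  have hg : Measurable[Pk b 0] fun ω : Om b =>
      (b : ℝ) * P[Yv | Pk b 0] (sh (-1) ω) - ((Xw 1 (sh (-1) ω) : ℕ) : ℝ) :=
    ((hM.comp hs).const_mul _).sub hX
  have h1 := (hP (-1)).quasiMeasurePreserving.ae (red_D_pred (P := P) hb)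
  have h2 : ∀ᵐ ω ∂P, ω ∈ (sh (-1) ⁻¹' {ω | redW P ω ≤ 0} : Set (Om b)) → redW P ω ≤ 0 := by
    refine red_pred_D hb (hs red_D_meas) hg ?_
    filter_upwards [h1] with ω h hm
    have e := Yv_pow hb 1 (sh (-1) ω)
    rw [sh_sh] at e
    simp only [Nat.cast_one, add_neg_cancel, sh_zero, pow_one] at e
    rw [← h hm]
    linarith
  filter_upwards [(hP 1).quasiMeasurePreserving.ae h2] with ω h hm
  refine h ?_
  rwa [Set.mem_preimage, sh_sh, neg_add_cancel, sh_zero]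

theorem exists_noPred (hb : 2 ≤ b) (hP : Inv P) (h : PosEnt P) :
    ∃ Q : Measure (Om b), IsProbabilityMeasure Q ∧ Q ≪ P ∧ Inv Q ∧ NoPred Q := by
  have hD0 := red_D_meas (P := P)
  have hD := Pk_le b 0 _ hD0
  have hne : P {ω | redW P ω ≤ 0}ᶜ ≠ 0 := by
    intro h0
    refine not_posEnt_of_pred hb hP (g := P[Yv | Pk b 0]) stronglyMeasurable_condExp.measurable
      ?_ h
    have h1 : ∀ᵐ ω ∂P, ω ∈ {ω | redW P ω ≤ 0} := h0
    filter_upwards [h1, red_D_pred (P := P) hb] with ω a c using c a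
  refine ⟨cond P {ω | redW P ω ≤ 0}ᶜ, cond_isProbabilityMeasure hne, cond_absolutelyContinuous,
    inv_cond hP hD.compl ?_, ?_⟩
  · filter_upwards [(red_ae_eq_pre hP hD (red_D_fwd hb hP)).mem_iff] with ω e hm hn
    exact hm (e.2 hn)
  · intro E g hE hg hq
    have h1 := red_ae_cond hD.compl hq
    have h2 : ∀ᵐ ω ∂P, ω ∈ {ω | redW P ω ≤ 0}ᶜ ∩ E → redW P ω ≤ 0 := by
      refine red_pred_D hb (hD0.compl.inter hE) hg ?_
      filter_upwards [h1] with ω a c using a c.1 c.2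
    rw [cond_apply hD.compl]
    have h3 : P ({ω | redW P ω ≤ 0}ᶜ ∩ E) = 0 := by
      rw [measure_eq_zero_iff_ae_notMem]
      filter_upwards [h2] with ω a c using c.1 (a c)
    rw [h3, mul_zero]

/-- A decreasing sequence of sets with null intersection has small terms. -/
lemma red_small {Q : Measure (Om b)} [IsProbabilityMeasure Q] {B : ℕ → Set (Om b)}
    (hB : ∀ n, MeasurableSet (B n)) (ha : Antitone B) (h0 : Q (⋂ n, B n) = 0) {ε : ℝ}
    (hε : 0 < ε) : ∃ n, Q.real (B n) ≤ ε := by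
  have h1 := tendsto_measure_iInter_atTop (μ := Q) (fun n => (hB n).nullMeasurableSet) ha
    ⟨0, measure_ne_top _ _⟩
  rw [h0] at h1
  have h2 : Tendsto (fun n => Q.real (B n)) atTop (𝓝 0) := by
    exact (ENNReal.tendsto_toReal ENNReal.zero_ne_top).comp h1
  exact (h2.eventually (ge_mem_nhds hε)).exists

theorem exists_eta (hb : 2 ≤ b) (hN : NoPred P) {δ : ℝ} (hδ : 0 < δ) :
    ∃ η : ℝ, 0 < η ∧ ∀ G : Om b → ℝ, AEStronglyMeasurable[Pk b 0] G P →
      (∀ᵐ ω ∂P, 0 ≤ G ω ∧ G ω ≤ 1) → δ ≤ ∫ ω, G ω ∂P →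
      η ≤ ∫ ω, (Yv ω - P[Yv | Pk b 0] ω) ^ 2 * G ω ∂P := by
  have hD : P {ω | redW P ω ≤ 0} = 0 :=
    hN _ _ red_D_meas stronglyMeasurable_condExp.measurable (red_D_pred hb)
  have hW : Measurable (redW P) := (red_W_meas (P := P)).mono (Pk_le b 0) le_rfl
  have hB : ∀ n : ℕ, MeasurableSet {ω | redW P ω < 1 / ((n : ℝ) + 1)} := fun n =>
    hW measurableSet_Iio
  obtain ⟨n, hn⟩ := red_small (Q := P) (B := fun n : ℕ => {ω | redW P ω < 1 / ((n : ℝ) + 1)}) hB
    (fun i j hij ω (hω : redW P ω < _) =>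
      show redW P ω < _ from lt_of_lt_of_le hω (Nat.one_div_le_one_div hij))
    (measure_mono_null (fun ω hω => by
      by_contra hc
      have hc' : ¬ redW P ω ≤ 0 := hc
      obtain ⟨n, hn⟩ := exists_nat_one_div_lt (not_le.1 hc')
      exact lt_asymm hn (Set.mem_iInter.1 hω n)) hD) (half_pos hδ)
  have hk : (0 : ℝ) < 1 / ((n : ℝ) + 1) := Nat.one_div_pos_of_nat
  have hBn := hB n
  generalize (1 / ((n : ℝ) + 1)) = k at hn hk hBn
  refine ⟨k * (δ / 2), mul_pos hk (half_pos hδ), fun G hG hG1 hδG => ?_⟩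
  have hG' : AEStronglyMeasurable G P := hG.mono (Pk_le b 0)
  have hGn : ∀ᵐ ω ∂P, ‖G ω‖ ≤ 1 := by
    filter_upwards [hG1] with ω h
    rw [Real.norm_eq_abs, abs_of_nonneg h.1]
    exact h.2
  have iG : Integrable G P := Integrable.of_bound hG' 1 hGn
  have iZG : Integrable ((fun ω => (Yv ω - P[Yv | Pk b 0] ω) ^ 2) * G) P :=
    (red_int_Z hb).mul_bdd hG' hGn
  have iW : Integrable (redW P) P := integrable_condExp
  have iWG : Integrable (fun ω => redW P ω * G ω) P := iW.mul_bdd hG' hGn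
  have e1 : ∫ ω, (Yv ω - P[Yv | Pk b 0] ω) ^ 2 * G ω ∂P = ∫ ω, redW P ω * G ω ∂P := by
    have e := condExp_mul_of_aestronglyMeasurable_right hG iZG (red_int_Z hb)
    have e' := integral_condExp (μ := P) (f := (fun ω => (Yv ω - P[Yv | Pk b 0] ω) ^ 2) * G)
      (Pk_le b 0)
    rw [integral_congr_ae e] at e'
    exact e'.symm
  have iI : Integrable ({ω | redW P ω < k}.indicator fun _ => (1 : ℝ)) P :=
    (integrable_const _).indicator hBn
  have e2 : ∫ ω, k * (G ω - {ω | redW P ω < k}.indicator (fun _ => (1 : ℝ)) ω) ∂P ≤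
      ∫ ω, redW P ω * G ω ∂P := by
    refine integral_mono_ae ((iG.sub iI).const_mul k) iWG ?_
    filter_upwards [hG1, red_W_nonneg (P := P)] with ω h h0
    by_cases hm : ω ∈ {ω | redW P ω < k}
    · rw [Set.indicator_of_mem hm]
      nlinarith [mul_nonneg h0 h.1, mul_nonneg hk.le (sub_nonneg.2 h.2)]
    · rw [Set.indicator_of_notMem hm, sub_zero]
      exact mul_le_mul_of_nonneg_right (not_lt.1 hm) h.1
  rw [integral_const_mul, integral_sub iG iI, integral_indicator hBn, setIntegral_const,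
    smul_eq_mul, mul_one] at e2
  rw [e1]
  refine le_trans (mul_le_mul_of_nonneg_left ?_ hk.le) e2
  linarith

/-- The invariant hull of a set of positive measure. -/
theorem exists_hull (hb : 2 ≤ b) (hP : Inv P) (hN : NoPred P) {A : Set (Om b)}
    (hA : MeasurableSet[Pk b 0] A) (h0 : P A ≠ 0) :
    ∃ (Q : Measure (Om b)) (C : ℝ), IsProbabilityMeasure Q ∧ Inv Q ∧ PosEnt Q ∧ 0 ≤ C ∧
      (∀ s, Q.real s ≤ C * P.real s) ∧
      ∀ ε : ℝ, 0 < ε → ∃ g : ℕ, Q.real {ω | ∀ i : ℕ, i < g → sh (-(i : ℤ)) ω ∉ A} ≤ ε := by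
  have hi : ∀ i : ℕ, MeasurableSet[Pk b 0] (sh (-(i : ℤ)) ⁻¹' A : Set (Om b)) := fun i =>
    measurable_sh_Pk (l := 0) (by omega) hA
  obtain ⟨E, hEd⟩ : ∃ E : Set (Om b), E = ⋃ i : ℕ, sh (-(i : ℤ)) ⁻¹' A := ⟨_, rfl⟩
  have hE0 : MeasurableSet[Pk b 0] E := hEd ▸ MeasurableSet.iUnion hi
  have hE := Pk_le b 0 _ hE0
  have hmem : ∀ ω, ω ∈ E ↔ ∃ i : ℕ, sh (-(i : ℤ)) ω ∈ A := fun ω => by
    rw [hEd, Set.mem_iUnion]; rfl
  have hne : P E ≠ 0 := fun h => h0 (measure_mono_null (fun ω hω => (hmem ω).2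
    ⟨0, by simpa only [Nat.cast_zero, neg_zero, sh_zero] using hω⟩) h)
  have hQ : IsProbabilityMeasure (cond P E) := cond_isProbabilityMeasure hne
  have hI : Inv (cond P E) := by
    refine inv_cond hP hE (.of_forall fun ω hω => ?_)
    obtain ⟨i, h⟩ := (hmem ω).1 hω
    refine (hmem _).2 ⟨i + 1, ?_⟩
    rw [sh_sh]
    have : -((i + 1 : ℕ) : ℤ) + 1 = -(i : ℤ) := by push_cast; ring
    rwa [this]
  refine ⟨cond P E, (P.real E)⁻¹, hQ, hI, ?_, inv_nonneg.2 measureReal_nonneg, fun s => ?_,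
    fun ε hε => ?_⟩
  · by_contra hc
    obtain ⟨g, hg, hq⟩ := pred_of_not_posEnt hb hI hc
    exact hne (hN E g hE0 hg (red_ae_cond hE hq))
  · have e : (cond P E).real s = (P.real E)⁻¹ * P.real (E ∩ s) := by
      simp only [Measure.real, cond_apply hE, ENNReal.toReal_mul, ENNReal.toReal_inv]
    rw [e]
    exact mul_le_mul_of_nonneg_left (measureReal_mono Set.inter_subset_right)
      (inv_nonneg.2 measureReal_nonneg)
  · refine red_small (B := fun g : ℕ => {ω | ∀ i : ℕ, i < g → sh (-(i : ℤ)) ω ∉ A})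
      (fun g => ?_) (fun i j hij ω hω k hk => hω k (lt_of_lt_of_le hk hij)) ?_ hε
    · have : {ω | ∀ i : ℕ, i < g → sh (-(i : ℤ)) ω ∉ A} =
          ⋂ i : ℕ, ⋂ _ : i < g, (sh (-(i : ℤ)) ⁻¹' A : Set (Om b))ᶜ := by
        ext ω; simp
      rw [this]
      exact MeasurableSet.iInter fun i => MeasurableSet.iInter fun _ => (Pk_le b 0 _ (hi i)).compl
    · rw [cond_apply hE]
      have : E ∩ ⋂ g : ℕ, {ω | ∀ i : ℕ, i < g → sh (-(i : ℤ)) ω ∉ A} = ∅ := by
        refine Set.eq_empty_of_forall_notMem fun ω hω => ?_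
        obtain ⟨i, h⟩ := (hmem ω).1 hω.1
        exact Set.mem_iInter.1 hω.2 (i + 1) i (Nat.lt_succ_self i) h
      rw [this, measure_empty, mul_zero]

end Pool.Agent.Lib.MP_c9a594_an.FS
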