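import Pool.Agent.Lib.MP_c9a594_an.FS.CE
import Pool.Agent.Lib.MP_c9a594_an.FS.Red

/-! The mean square of the conditional Fourier transform. -/

namespace Pool.Agent.Lib.MP_c9a594_an.FS

open MeasureTheory Filter Topology

section Abstract

variable {X : Type} {m m₂ : MeasurableSpace X} [m0 : MeasurableSpace X] {μ : Measure X}
  [IsProbabilityMeasure μ]

lemma Bfun_int_of_bd {E : Type} [NormedAddCommGroup E] {f : X → E}
    (hf : AEStronglyMeasurable f μ) {C : ℝ} (hC : ∀ᵐ x ∂μ, ‖f x‖ ≤ C) : Integrable f μ :=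
  Integrable.of_bound hf C hC

lemma Bfun_int_sq {f : X → ℂ} (hf : AEStronglyMeasurable f μ) (hC : ∀ᵐ x ∂μ, ‖f x‖ ≤ 1) :
    Integrable (fun x => ‖f x‖ ^ 2) μ := by
  refine Bfun_int_of_bd (hf.norm.pow 2) (C := 1) ?_
  filter_upwards [hC] with x hx
  rw [Real.norm_eq_abs, abs_of_nonneg (by positivity)]
  nlinarith [norm_nonneg (f x)]

lemma Bfun_sq_le {f g : X → ℂ} (hf : AEStronglyMeasurable f μ) (hg : AEStronglyMeasurable g μ)
    (hf1 : ∀ᵐ x ∂μ, ‖f x‖ ≤ 1) (hg1 : ∀ᵐ x ∂μ, ‖g x‖ ≤ 1) :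
    ∫ x, ‖f x‖ ^ 2 ∂μ ≤ ∫ x, ‖g x‖ ^ 2 ∂μ + 2 * ∫ x, ‖f x - g x‖ ∂μ := by
  have hi : Integrable (fun x => ‖f x - g x‖) μ :=
    ((Bfun_int_of_bd hf hf1).sub (Bfun_int_of_bd hg hg1)).norm
  rw [← integral_const_mul, ← integral_add (Bfun_int_sq hg hg1) (hi.const_mul 2)]
  refine integral_mono_ae (Bfun_int_sq hf hf1) ((Bfun_int_sq hg hg1).add (hi.const_mul 2)) ?_
  filter_upwards [hf1, hg1] with x h1 h2
  have h3 : ‖f x‖ - ‖g x‖ ≤ ‖f x - g x‖ := norm_sub_norm_le _ _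
  have h4 := norm_nonneg (f x)
  have h5 := norm_nonneg (g x)
  have h6 := norm_nonneg (f x - g x)
  nlinarith

lemma Bfun_pull (hm : m ≤ m0) {G h : X → ℝ} (hG : AEStronglyMeasurable[m] G μ)
    (hG1 : ∀ᵐ x ∂μ, ‖G x‖ ≤ 1) (hh : Integrable h μ) :
    ∫ x, G x * μ[h | m] x ∂μ = ∫ x, G x * h x ∂μ := by
  have hi : Integrable (G * h) μ := hh.bdd_mul (hG.mono hm) hG1
  have h1 := condExp_mul_of_aestronglyMeasurable_left hG hi hh
  have h2 := integral_condExp (μ := μ) (f := G * h) hm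
  rw [integral_congr_ae h1] at h2
  exact h2

lemma Bfun_dec (h12 : m ≤ m₂) (hm₂ : m₂ ≤ m0) {F f g : X → ℂ} (hF : AEStronglyMeasurable F μ)
    (hf : AEStronglyMeasurable f μ) (hg : AEStronglyMeasurable[m₂] g μ)
    (hF1 : ∀ x, ‖F x‖ ≤ 1) (hf1 : ∀ x, ‖f x‖ ≤ 1) (hg1 : ∀ x, ‖g x‖ ≤ 1) :
    ∫ x, ‖μ[fun x => F x * f x | m] x - μ[F | m] x * μ[f | m] x‖ ∂μ ≤
      2 * ∫ x, ‖f x - g x‖ ∂μ + ∫ x, ‖μ[F | m₂] x - μ[F | m] x‖ ∂μ := by
  have hm : m ≤ m0 := h12.trans hm₂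
  have hFi : Integrable F μ := Bfun_int_of_bd hF (ae_of_all _ hF1)
  have hfi : Integrable f μ := Bfun_int_of_bd hf (ae_of_all _ hf1)
  have hgi : Integrable g μ := Bfun_int_of_bd (hg.mono hm₂) (ae_of_all _ hg1)
  have hV1 : ∀ᵐ x ∂μ, ‖μ[F | m] x‖ ≤ 1 := ce_bd hm (ae_of_all _ hF1)
  have hVm : StronglyMeasurable[m] (μ[F | m]) := stronglyMeasurable_condExp
  have hVi : Integrable (μ[F | m]) μ := integrable_condExp
  set V := μ[F | m] with hV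
  have hD2 : ∀ᵐ x ∂μ, ‖F x - V x‖ ≤ 2 := by
    filter_upwards [hV1] with x hx
    have := norm_sub_le (F x) (V x)
    have := hF1 x
    linarith
  have hDm : AEStronglyMeasurable (fun x => F x - V x) μ := hF.sub hVi.1
  have hDi : Integrable (fun x => F x - V x) μ := hFi.sub hVi
  have hi1 : Integrable (fun x => (F x - V x) * (f x - g x)) μ := (hfi.sub hgi).bdd_mul hDm hD2
  have hi2 : Integrable (fun x => g x * (F x - V x)) μ :=
    hDi.bdd_mul (hg.mono hm₂) (ae_of_all _ hg1)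
  have hiFf : Integrable (fun x => F x * f x) μ := hfi.bdd_mul hF (ae_of_all _ hF1)
  have hiVf : Integrable (fun x => V x * f x) μ := hfi.bdd_mul hVi.1 hV1
  have e1 := ce_mul hm hVm.aestronglyMeasurable hV1 hfi
  have e2 := condExp_sub hiFf hiVf m
  have e3 := condExp_add hi1 hi2 m
  have e4 : ((fun x => F x * f x) - fun x => V x * f x) =
      (fun x => (F x - V x) * (f x - g x)) + fun x => g x * (F x - V x) := by
    funext x; simp only [Pi.sub_apply, Pi.add_apply]; ring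
  have e5 := condExp_condExp_of_le (μ := μ) (f := fun x => g x * (F x - V x)) h12 hm₂
  have e6 := ce_mul hm₂ hg (ae_of_all _ hg1) hDi
  have e7 := condExp_sub hFi hVi m₂
  have e8 : μ[V | m₂] = V := condExp_of_stronglyMeasurable hm₂ (hVm.mono h12) hVi
  rw [e4] at e2
  have key : ∀ᵐ x ∂μ, ‖μ[fun x => F x * f x | m] x - V x * μ[f | m] x‖ ≤
      ‖μ[fun x => (F x - V x) * (f x - g x) | m] x‖ +
        ‖μ[μ[fun x => g x * (F x - V x) | m₂] | m] x‖ := by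
    filter_upwards [e1, e2, e3, e5] with x h1 h2 h3 h5
    rw [h5, ← h1]
    have : μ[fun x => F x * f x | m] x - μ[fun x => V x * f x | m] x =
        μ[fun x => (F x - V x) * (f x - g x) | m] x + μ[fun x => g x * (F x - V x) | m] x := by
      rw [← Pi.sub_apply, ← h2, h3, Pi.add_apply]
    rw [this]
    exact norm_add_le _ _
  have hb1 : ∫ x, ‖μ[fun x => (F x - V x) * (f x - g x) | m] x‖ ∂μ ≤ 2 * ∫ x, ‖f x - g x‖ ∂μ := by
    refine (integral_norm_ce_le hm hi1).trans ?_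
    rw [← integral_const_mul]
    refine integral_mono_ae hi1.norm ((hfi.sub hgi).norm.const_mul 2) ?_
    filter_upwards [hD2] with x hx
    rw [norm_mul]
    exact mul_le_mul_of_nonneg_right hx (norm_nonneg _)
  have hb2 : ∫ x, ‖μ[μ[fun x => g x * (F x - V x) | m₂] | m] x‖ ∂μ ≤
      ∫ x, ‖μ[F | m₂] x - V x‖ ∂μ := by
    refine (integral_norm_ce_le hm integrable_condExp).trans ?_
    refine integral_mono_ae integrable_condExp.norm (integrable_condExp.sub hVi).norm ?_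
    filter_upwards [e6, e7] with x h6 h7
    have h9 : μ[fun x => F x - V x | m₂] x = μ[F | m₂] x - V x := by
      have : (fun x => F x - V x) = F - V := rfl
      rw [this, h7, e8, Pi.sub_apply]
    rw [h6, h9, norm_mul]
    exact mul_le_of_le_one_left (norm_nonneg _) (hg1 x)
  refine le_trans ?_ (add_le_add hb1 hb2)
  rw [← integral_add integrable_condExp.norm integrable_condExp.norm]
  refine integral_mono_of_nonneg (ae_of_all _ fun x => norm_nonneg _)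
    (integrable_condExp.norm.add integrable_condExp.norm) key

end Abstract

variable {b : ℕ} {P : Measure (Om b)} [IsProbabilityMeasure P]

lemma Bfun_F_meas (hb : 2 ≤ b) (v : ℝ) : Measurable fun ω : Om b => ee (v * Yv ω) :=
  (continuous_ee.comp (continuous_const.mul (continuous_Yv hb))).measurable

lemma Bfun_F_int (hb : 2 ≤ b) (v : ℝ) : Integrable (fun ω : Om b => ee (v * Yv ω)) P :=
  Bfun_int_of_bd (Bfun_F_meas hb v).aestronglyMeasurable (C := 1)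
    (ae_of_all _ fun _ => (norm_ee _).le)

omit [IsProbabilityMeasure P] in
lemma Bfun_V_sm (v : ℝ) : StronglyMeasurable[Pk b 0] (Vf P v) := stronglyMeasurable_condExp

omit [IsProbabilityMeasure P] in
lemma Bfun_V_aesm (v : ℝ) : AEStronglyMeasurable (Vf P v) P :=
  ((Bfun_V_sm v).mono (Pk_le b 0)).aestronglyMeasurable

omit [IsProbabilityMeasure P] in
lemma Bfun_shift (hP : Inv P) (k : ℤ) {g : Om b → ℝ} (hg : AEStronglyMeasurable g P) :
    ∫ ω, g (sh k ω) ∂P = ∫ ω, g ω ∂P := by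
  have h := integral_map (μ := P) (φ := sh k) (f := g) (hP k).measurable.aemeasurable
    (by rw [(hP k).map_eq]; exact hg)
  rw [(hP k).map_eq] at h
  exact h.symm

lemma norm_Vf_le (P : Measure (Om b)) [IsProbabilityMeasure P] (v : ℝ) :
    ∀ᵐ ω ∂P, ‖Vf P v ω‖ ≤ 1 :=
  ce_bd (Pk_le b 0) (ae_of_all _ fun _ => (norm_ee _).le)

lemma Bf_nonneg (P : Measure (Om b)) (v : ℝ) : 0 ≤ Bf P v :=
  integral_nonneg fun _ => by positivity

lemma Bf_le_one (P : Measure (Om b)) [IsProbabilityMeasure P] (v : ℝ) : Bf P v ≤ 1 := by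
  have h : Bf P v ≤ ∫ _ω, (1 : ℝ) ∂P := by
    refine integral_mono_of_nonneg (ae_of_all _ fun _ => by positivity) (integrable_const _) ?_
    filter_upwards [norm_Vf_le P v] with ω h
    nlinarith [norm_nonneg (Vf P v ω)]
  simpa using h

lemma norm_integral_ee_le (hb : 2 ≤ b) (v : ℝ) {t : ℝ} (ht : 0 < t) :
    ‖∫ ω, ee (v * Yv ω) ∂P‖ ≤ t + Bf P v / t := by
  have _ := hb
  have h1 : ∫ ω, Vf P v ω ∂P = ∫ ω, ee (v * Yv ω) ∂P := integral_condExp (Pk_le b 0)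
  rw [← h1]
  refine (norm_integral_le_integral_norm _).trans ?_
  refine integral_le_of_sq (f := fun ω => ‖Vf P v ω‖) (Bfun_V_aesm v).norm (C := 1) ?_ ht
  filter_upwards [norm_Vf_le P v] with ω h
  rwa [abs_of_nonneg (norm_nonneg _)]

lemma Bfun_lip1 (hb : 2 ≤ b) (v w : ℝ) : Bf P v - Bf P w ≤ 4 * Real.pi * |v - w| := by
  have h1 := Bfun_sq_le (μ := P) (Bfun_V_aesm v) (Bfun_V_aesm w) (norm_Vf_le P v) (norm_Vf_le P w)
  have hi := (Bfun_F_int (P := P) hb v).sub (Bfun_F_int hb w)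
  have h2 := condExp_sub (Bfun_F_int (P := P) hb v) (Bfun_F_int hb w) (Pk b 0)
  have h3 := integral_norm_ce_le (Pk_le b 0) hi
  have h4 : ∫ ω, ‖Vf P v ω - Vf P w ω‖ ∂P = ∫ ω, ‖P[(fun ω : Om b => ee (v * Yv ω)) -
      fun ω : Om b => ee (w * Yv ω) | Pk b 0] ω‖ ∂P := by
    refine integral_congr_ae ?_
    filter_upwards [h2] with ω h
    rw [h]; rfl
  have h5 : ∫ ω, ‖((fun ω : Om b => ee (v * Yv ω)) - fun ω : Om b => ee (w * Yv ω)) ω‖ ∂P ≤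
      ∫ _ω, 2 * Real.pi * |v - w| ∂P := by
    refine integral_mono hi.norm (integrable_const _) fun ω => ?_
    refine (norm_ee_sub_le _ _).trans ?_
    rw [← sub_mul, abs_mul, abs_of_nonneg (Yv_nonneg ω)]
    refine mul_le_mul_of_nonneg_left ?_ (by positivity)
    exact mul_le_of_le_one_right (abs_nonneg _) (Yv_le_one hb ω)
  simp only [integral_const, probReal_univ, smul_eq_mul, one_mul] at h5
  unfold Bf
  linarith

lemma Bf_lip (hb : 2 ≤ b) (v w : ℝ) : |Bf P v - Bf P w| ≤ 4 * Real.pi * |v - w| := by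
  have h1 := Bfun_lip1 (P := P) hb v w
  have h2 := Bfun_lip1 (P := P) hb w v
  rw [abs_sub_comm w v] at h2
  exact abs_le.2 ⟨by linarith, h1⟩

lemma Bfun_Xw_meas (c : ℝ) (k : ℕ) :
    StronglyMeasurable[Pk b k] fun ω : Om b => ee (c * Xw k ω) := by
  refine Measurable.stronglyMeasurable (measurable_Pk_of_dep (k := 0) (l := k) le_rfl ?_)
  intro ω ω' h
  have : Xw k ω = Xw k ω' :=
    (Xw_eq_iff k ω ω').2 fun j hj => h j (by positivity) (by exact_mod_cast hj)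
  rw [this]

lemma Bfun_W (hb : 2 ≤ b) (hP : Inv P) (v : ℝ) (k : ℕ) :
    P[fun ω => ee (v * (b : ℝ) ^ k * Yv ω) | Pk b k] =ᵐ[P]
      fun ω => ee (v * Xw k ω) * Vf P v (sh k ω) := by
  have e1 : (fun ω : Om b => ee (v * (b : ℝ) ^ k * Yv ω)) =
      fun ω => ee (v * Xw k ω) * ee (v * Yv (sh k ω)) := by
    funext ω
    rw [mul_assoc, Yv_pow hb, mul_add, ee_add]
  have hi : Integrable (fun ω : Om b => ee (v * Yv (sh k ω))) P :=
    Bfun_int_of_bd ((Bfun_F_meas hb v).comp (measurable_sh k)).aestronglyMeasurable (C := 1)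
      (ae_of_all _ fun _ => (norm_ee _).le)
  have e2 := ce_mul (μ := P) (Pk_le b k) (Bfun_Xw_meas v k).aestronglyMeasurable (C := 1)
    (ae_of_all _ fun _ => (norm_ee _).le) hi
  have e3 := ce_comp (Pk_le b 0) (hP k) (Bfun_F_int (P := P) hb v)
  rw [comap_sh_Pk, zero_add] at e3
  rw [e1]
  filter_upwards [e2, e3] with ω h2 h3
  rw [h2, h3]; rfl

lemma stab (hb : 2 ≤ b) (hP : Inv P) (v : ℝ) (k : ℕ) :
    ∫ ω, ‖ee (v * Xw k ω) * Vf P v (sh k ω) - Vf P (v * (b : ℝ) ^ k) ω‖ ^ 2 ∂P =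
      Bf P v - Bf P (v * (b : ℝ) ^ k) := by
  have hW := Bfun_W hb hP v k
  have h0k : Pk b 0 ≤ Pk b k := Pk_mono b (by positivity)
  have e1 : P[fun ω => ee (v * Xw k ω) * Vf P v (sh k ω) | Pk b 0] =ᵐ[P]
      Vf P (v * (b : ℝ) ^ k) :=
    (condExp_congr_ae hW.symm).trans (condExp_condExp_of_le h0k (Pk_le b k))
  have hm : AEStronglyMeasurable (fun ω => ee (v * Xw k ω) * Vf P v (sh k ω)) P :=
    (integrable_condExp.1).congr hW
  have h1 : ∀ᵐ ω ∂P, ‖ee (v * Xw k ω) * Vf P v (sh k ω)‖ ≤ 1 := by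
    have := ce_bd (μ := P) (Pk_le b k) (f := fun ω => ee (v * (b : ℝ) ^ k * Yv ω)) (C := 1)
      (ae_of_all _ fun _ => (norm_ee _).le)
    filter_upwards [this, hW] with ω h h'
    rwa [h'] at h
  have e2 := ce_pyth (Pk_le b 0) hm h1
  have e3 : ∫ ω, ‖ee (v * Xw k ω) * Vf P v (sh k ω)‖ ^ 2 ∂P = Bf P v := by
    simp only [norm_mul, norm_ee, one_mul]
    exact Bfun_shift hP k (g := fun ω => ‖Vf P v ω‖ ^ 2) ((Bfun_V_aesm v).norm.pow 2)
  rw [e3] at e2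
  have e4 : ∫ ω, ‖P[fun ω => ee (v * Xw k ω) * Vf P v (sh k ω) | Pk b 0] ω‖ ^ 2 ∂P =
      Bf P (v * (b : ℝ) ^ k) := by
    refine integral_congr_ae ?_
    filter_upwards [e1] with ω h
    rw [h]
  rw [← e4, ← e2]
  refine integral_congr_ae ?_
  filter_upwards [e1] with ω h
  rw [h]

lemma Bf_pow_le (hb : 2 ≤ b) (hP : Inv P) (v : ℝ) (k : ℕ) :
    Bf P (v * (b : ℝ) ^ k) ≤ Bf P v := by
  have h := stab hb hP v k
  have h0 : 0 ≤ ∫ ω, ‖ee (v * Xw k ω) * Vf P v (sh k ω) - Vf P (v * (b : ℝ) ^ k) ω‖ ^ 2 ∂P :=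
    integral_nonneg fun _ => by positivity
  linarith

lemma exists_stable (hb : 2 ≤ b) (hP : Inv P) (u : ℝ) {ε : ℝ} (hε : 0 < ε) :
    ∃ R₀ : ℕ, ∀ R, R₀ ≤ R → ∀ k : ℕ,
      Bf P (u * (b : ℝ) ^ R) - Bf P (u * (b : ℝ) ^ R * (b : ℝ) ^ k) ≤ ε := by
  have hbd : BddBelow (Set.range fun R : ℕ => Bf P (u * (b : ℝ) ^ R)) :=
    ⟨0, by rintro _ ⟨R, rfl⟩; exact Bf_nonneg P _⟩
  obtain ⟨R₀, h₀⟩ := exists_lt_of_ciInf_lt (f := fun R : ℕ => Bf P (u * (b : ℝ) ^ R))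
    (lt_add_of_pos_right _ hε)
  refine ⟨R₀, fun R hR k => ?_⟩
  obtain ⟨j, rfl⟩ := Nat.exists_eq_add_of_le hR
  have h1 := Bf_pow_le hb hP (u * (b : ℝ) ^ R₀) j
  have h2 := ciInf_le hbd (R₀ + j + k)
  rw [mul_assoc, ← pow_add] at h1
  rw [mul_assoc, ← pow_add]
  linarith

lemma Bfun_gain (hb : 2 ≤ b) (hP : Inv P) {r : ℝ} (hr : |r| ≤ 1 / 8) (L : ℕ) {G : Om b → ℝ}
    (hG : StronglyMeasurable[Pk b 0] G) (hG1 : ∀ᵐ ω ∂P, 0 ≤ G ω ∧ G ω ≤ 1) :
    ∫ ω, G ω * ‖Vf P (r * (b : ℝ) ^ L) ω‖ ∂P ≤ ∫ ω, G ω ∂P -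
      10 * r ^ 2 * ∫ ω, (Yv ω - P[Yv | Pk b 0] ω) ^ 2 * G (sh (-(L : ℤ)) ω) ∂P := by
  have h0k : Pk b 0 ≤ Pk b L := Pk_mono b (by positivity)
  have hW := Bfun_W hb hP r L
  set W := P[fun ω => ee (r * (b : ℝ) ^ L * Yv ω) | Pk b L] with hWd
  have hWi : Integrable W P := integrable_condExp
  have hGn : ∀ᵐ ω ∂P, ‖G ω‖ ≤ 1 := by
    filter_upwards [hG1] with ω h
    rw [Real.norm_eq_abs, abs_of_nonneg h.1]; exact h.2
  have hGm : AEStronglyMeasurable G P := (hG.mono (Pk_le b 0)).aestronglyMeasurable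
  have e1 : P[W | Pk b 0] =ᵐ[P] Vf P (r * (b : ℝ) ^ L) := condExp_condExp_of_le h0k (Pk_le b L)
  have e2 := norm_condExp_le (μ := P) (m := Pk b 0) W
  have s1 : ∫ ω, G ω * ‖Vf P (r * (b : ℝ) ^ L) ω‖ ∂P ≤
      ∫ ω, G ω * P[fun ω => ‖W ω‖ | Pk b 0] ω ∂P := by
    refine integral_mono_of_nonneg ?_ (integrable_condExp.bdd_mul hGm hGn) ?_
    · filter_upwards [hG1] with ω h
      exact mul_nonneg h.1 (norm_nonneg _)
    · filter_upwards [hG1, e1, e2] with ω h h1 h2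
      rw [← h1]
      exact mul_le_mul_of_nonneg_left h2 h.1
  rw [Bfun_pull (Pk_le b 0) hG.aestronglyMeasurable hGn hWi.norm] at s1
  have hG' : StronglyMeasurable[Pk b 0] fun ω => G (sh (-(L : ℤ)) ω) :=
    hG.comp_measurable (measurable_sh_Pk (by omega))
  have hG'm : AEStronglyMeasurable (fun ω => G (sh (-(L : ℤ)) ω)) P :=
    (hG'.mono (Pk_le b 0)).aestronglyMeasurable
  have hG'1 : ∀ᵐ ω ∂P, 0 ≤ G (sh (-(L : ℤ)) ω) ∧ G (sh (-(L : ℤ)) ω) ≤ 1 :=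
    (hP (-(L : ℤ))).quasiMeasurePreserving.ae hG1
  have hG'n : ∀ᵐ ω ∂P, ‖G (sh (-(L : ℤ)) ω)‖ ≤ 1 :=
    (hP (-(L : ℤ))).quasiMeasurePreserving.ae hGn
  have s2 : ∫ ω, G ω * ‖W ω‖ ∂P = ∫ ω, G (sh (-(L : ℤ)) ω) * ‖Vf P r ω‖ ∂P := by
    rw [← Bfun_shift hP L (g := fun ω => G (sh (-(L : ℤ)) ω) * ‖Vf P r ω‖)
      (hG'm.mul (Bfun_V_aesm r).norm)]
    refine integral_congr_ae ?_
    filter_upwards [hW] with ω h
    rw [h, norm_mul, norm_ee, one_mul, sh_sh, neg_add_cancel, sh_zero]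
  have hYi : Integrable (Yv : Om b → ℝ) P := by
    refine Bfun_int_of_bd (measurable_Yv hb).aestronglyMeasurable (C := 1) (ae_of_all _ fun ω => ?_)
    rw [Real.norm_eq_abs, abs_of_nonneg (Yv_nonneg ω)]; exact Yv_le_one hb ω
  have hM0 : 0 ≤ᵐ[P] P[Yv | Pk b 0] := condExp_nonneg (ae_of_all _ Yv_nonneg)
  have hM1 : ∀ᵐ ω ∂P, P[Yv | Pk b 0] ω ≤ 1 := by
    have := condExp_mono (m := Pk b 0) hYi (integrable_const (1 : ℝ))
      (ae_of_all _ (Yv_le_one hb))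
    rw [condExp_const (Pk_le b 0)] at this
    exact this
  have hZi : Integrable (fun ω => (Yv ω - P[Yv | Pk b 0] ω) ^ 2) P := by
    refine Bfun_int_of_bd ((hYi.sub integrable_condExp).1.pow 2) (C := 1) ?_
    filter_upwards [hM0, hM1] with ω h0 h1
    rw [Real.norm_eq_abs, abs_of_nonneg (by positivity)]
    have h2 := Yv_nonneg ω
    have h3 := Yv_le_one hb ω
    have h0' : 0 ≤ P[Yv | Pk b 0] ω := h0
    nlinarith
  have hhi : Integrable (fun ω => 1 - 10 * r ^ 2 * (Yv ω - P[Yv | Pk b 0] ω) ^ 2) P :=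
    (integrable_const _).sub (hZi.const_mul _)
  have e3 := norm_ce_ee_le (μ := P) (Pk_le b 0) (measurable_Yv hb) Yv_nonneg (Yv_le_one hb) hr
  have s3 : ∫ ω, G (sh (-(L : ℤ)) ω) * ‖Vf P r ω‖ ∂P ≤ ∫ ω, G (sh (-(L : ℤ)) ω) *
      P[fun ω => 1 - 10 * r ^ 2 * (Yv ω - P[Yv | Pk b 0] ω) ^ 2 | Pk b 0] ω ∂P := by
    refine integral_mono_of_nonneg ?_ (integrable_condExp.bdd_mul hG'm hG'n) ?_
    · filter_upwards [hG'1] with ω h
      exact mul_nonneg h.1 (norm_nonneg _)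
    · filter_upwards [hG'1, e3] with ω h h1
      exact mul_le_mul_of_nonneg_left h1 h.1
  rw [Bfun_pull (Pk_le b 0) hG'.aestronglyMeasurable hG'n hhi] at s3
  have s4 : ∫ ω, G (sh (-(L : ℤ)) ω) * (1 - 10 * r ^ 2 * (Yv ω - P[Yv | Pk b 0] ω) ^ 2) ∂P =
      ∫ ω, G ω ∂P -
        10 * r ^ 2 * ∫ ω, (Yv ω - P[Yv | Pk b 0] ω) ^ 2 * G (sh (-(L : ℤ)) ω) ∂P := by
    rw [← Bfun_shift hP (-(L : ℤ)) hGm, ← integral_const_mul, ← integral_sub
      (Bfun_int_of_bd hG'm hG'n) ((hZi.mul_bdd hG'm hG'n).const_mul _)]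
    refine integral_congr_ae (ae_of_all _ fun ω => ?_)
    ring
  linarith

lemma Bfun_err (hb : 2 ≤ b) (hP : Inv P) (v γ : ℝ) (s : ℕ) {t : ℝ} (ht : 0 < t) :
    ∫ ω, ‖Vf P (v * (b : ℝ) ^ s + γ) ω - Vf P (v * (b : ℝ) ^ s) ω * Vf P γ ω‖ ∂P ≤
      4 * Real.pi * (|γ| / (b : ℝ) ^ s) + (t + (Bf P v - Bf P (v * (b : ℝ) ^ s)) / t) := by
  have h0k : Pk b 0 ≤ Pk b s := Pk_mono b (by positivity)
  have hbs : (0 : ℝ) < (b : ℝ) ^ s := by
    have : (0 : ℝ) < b := by exact_mod_cast (by omega : 0 < b)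
    positivity
  have h := Bfun_dec (μ := P) h0k (Pk_le b s)
    (Bfun_F_meas hb (v * (b : ℝ) ^ s)).aestronglyMeasurable
    (Bfun_F_meas hb γ).aestronglyMeasurable
    (Bfun_Xw_meas (γ / (b : ℝ) ^ s) s).aestronglyMeasurable
    (fun _ => (norm_ee _).le) (fun _ => (norm_ee _).le) (fun _ => (norm_ee _).le)
  have e1 : (fun ω : Om b => ee (v * (b : ℝ) ^ s * Yv ω) * ee (γ * Yv ω)) =
      fun ω => ee ((v * (b : ℝ) ^ s + γ) * Yv ω) := by
    funext ω; rw [add_mul, ee_add]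
  rw [e1] at h
  refine le_trans h (add_le_add ?_ ?_)
  · have h5 : ∫ ω, ‖ee (γ * Yv ω) - ee (γ / (b : ℝ) ^ s * Xw s ω)‖ ∂P ≤
        ∫ _ω, 2 * Real.pi * (|γ| / (b : ℝ) ^ s) ∂P := by
      refine integral_mono_of_nonneg (ae_of_all _ fun _ => norm_nonneg _) (integrable_const _)
        (ae_of_all _ fun ω => ?_)
      refine (norm_ee_sub_le _ _).trans (mul_le_mul_of_nonneg_left ?_ (by positivity))
      have e2 : γ * Yv ω - γ / (b : ℝ) ^ s * Xw s ω = γ / (b : ℝ) ^ s * Yv (sh s ω) := by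
        have := Yv_pow hb s ω
        field_simp
        linear_combination γ * this
      rw [e2, abs_mul, abs_div, abs_of_pos hbs, abs_of_nonneg (Yv_nonneg _)]
      exact mul_le_of_le_one_right (by positivity) (Yv_le_one hb _)
    simp only [integral_const, probReal_univ, smul_eq_mul, one_mul] at h5
    linarith
  · have hW := Bfun_W hb hP v s
    have h1 := ce_bd (μ := P) (Pk_le b s) (f := fun ω => ee (v * (b : ℝ) ^ s * Yv ω)) (C := 1)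
      (ae_of_all _ fun _ => (norm_ee _).le)
    refine (integral_le_of_sq (integrable_condExp.sub integrable_condExp).norm.1 (C := 2) ?_
      ht).trans (le_of_eq ?_)
    · filter_upwards [h1, norm_Vf_le P (v * (b : ℝ) ^ s)] with ω h1 h2
      rw [abs_of_nonneg (norm_nonneg _)]
      exact (norm_sub_le _ _).trans (by linarith! [h1, h2])
    · rw [← stab hb hP v s]
      congr 2
      refine integral_congr_ae ?_
      filter_upwards [hW] with ω h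
      simp only [Pi.sub_apply]
      rw [h]; rfl

/-- Removing a leading term gains a definite amount. -/
theorem step (hb : 2 ≤ b) (hP : Inv P) (hN : NoPred P) {δ : ℝ} (hδ : 0 < δ) :
    ∃ κ : ℝ, 0 < κ ∧ ∀ r : ℝ, 1 / (8 * b) ≤ |r| → |r| ≤ 1 / 8 →
      ∃ (θ : ℝ) (L₀ : ℕ), 0 < θ ∧ ∀ L, L₀ ≤ L → ∀ γ : ℝ, |γ| ≤ θ * (b : ℝ) ^ L →
        δ ≤ Bf P (r * (b : ℝ) ^ L + γ) → Bf P (r * (b : ℝ) ^ L + γ) + κ ≤ Bf P γ := by
  obtain ⟨η, hη, hE⟩ := exists_eta hb hN (half_pos hδ)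
  have hb0 : (0 : ℝ) < b := by exact_mod_cast (by omega : 0 < b)
  refine ⟨5 * η / (64 * (b : ℝ) ^ 2), by positivity, fun r hr1 hr2 => ?_⟩
  set κ := 5 * η / (64 * (b : ℝ) ^ 2) with hκ
  have hκ0 : 0 < κ := by positivity
  obtain ⟨e, he0, he1, he2⟩ : ∃ e : ℝ, 0 < e ∧ 2 * e ≤ κ ∧ 2 * e ≤ δ / 2 :=
    ⟨min κ (δ / 2) / 2, by positivity, by linarith [min_le_left κ (δ / 2)],
      by linarith [min_le_right κ (δ / 2)]⟩
  obtain ⟨R, hR⟩ := exists_stable hb hP r (ε := (e / 4) ^ 2) (by positivity)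
  have hpi := Real.pi_pos
  refine ⟨e / (8 * Real.pi * (b : ℝ) ^ R), R, by positivity, fun L hL γ hγ hd => ?_⟩
  obtain ⟨s, rfl⟩ := Nat.exists_eq_add_of_le hL
  have h1 := Bfun_err hb hP (r * (b : ℝ) ^ R) γ s (t := e / 4) (by positivity)
  have h2 := hR R le_rfl s
  have h3 : (Bf P (r * (b : ℝ) ^ R) - Bf P (r * (b : ℝ) ^ R * (b : ℝ) ^ s)) / (e / 4) ≤ e / 4 := by
    rw [div_le_iff₀ (by positivity)]; nlinarith
  have h4 : 4 * Real.pi * (|γ| / (b : ℝ) ^ s) ≤ e / 2 := by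
    have h5 : |γ| / (b : ℝ) ^ s ≤ e / (8 * Real.pi) := by
      rw [div_le_iff₀ (by positivity)]
      refine hγ.trans (le_of_eq ?_)
      rw [pow_add]; field_simp
    refine (mul_le_mul_of_nonneg_left h5 (by positivity)).trans (le_of_eq ?_)
    field_simp; ring
  rw [mul_assoc r, ← pow_add] at h1 h3
  set L := R + s with hLd
  have hV := norm_Vf_le P (r * (b : ℝ) ^ L)
  have hγ1 := norm_Vf_le P γ
  have hp1 : ∀ᵐ ω ∂P, ‖Vf P (r * (b : ℝ) ^ L) ω * Vf P γ ω‖ ≤ 1 := by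
    filter_upwards [hV, hγ1] with ω h1 h2
    rw [norm_mul]
    exact mul_le_one₀ h1 (norm_nonneg _) h2
  have hpm : AEStronglyMeasurable (fun ω => Vf P (r * (b : ℝ) ^ L) ω * Vf P γ ω) P :=
    (Bfun_V_aesm _).mul (Bfun_V_aesm _)
  have h6 := Bfun_sq_le (μ := P) (Bfun_V_aesm (r * (b : ℝ) ^ L + γ)) hpm (norm_Vf_le P _) hp1
  have hG : StronglyMeasurable[Pk b 0] fun ω => ‖Vf P γ ω‖ ^ 2 := (Bfun_V_sm γ).norm.pow 2
  have hG1 : ∀ᵐ ω ∂P, 0 ≤ ‖Vf P γ ω‖ ^ 2 ∧ ‖Vf P γ ω‖ ^ 2 ≤ 1 := by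
    filter_upwards [hγ1] with ω h
    exact ⟨by positivity, by nlinarith [norm_nonneg (Vf P γ ω)]⟩
  have h7 := Bfun_gain hb hP hr2 L hG hG1
  have h8 : ∫ ω, ‖Vf P (r * (b : ℝ) ^ L) ω * Vf P γ ω‖ ^ 2 ∂P ≤
      ∫ ω, ‖Vf P γ ω‖ ^ 2 * ‖Vf P (r * (b : ℝ) ^ L) ω‖ ∂P := by
    refine integral_mono_of_nonneg (ae_of_all _ fun _ => by positivity)
      ((Bfun_int_sq (Bfun_V_aesm γ) hγ1).mul_bdd (Bfun_V_aesm _).norm (c := 1) ?_) ?_
    · filter_upwards [hV] with ω h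
      rwa [norm_norm]
    · filter_upwards [hV] with ω h
      have h0 := norm_nonneg (Vf P (r * (b : ℝ) ^ L) ω)
      have h9 : ‖Vf P (r * (b : ℝ) ^ L) ω‖ ^ 2 ≤ ‖Vf P (r * (b : ℝ) ^ L) ω‖ := by nlinarith
      rw [norm_mul, mul_pow, mul_comm]
      exact mul_le_mul_of_nonneg_left h9 (by positivity)
  have hI0 : 0 ≤ ∫ ω, (Yv ω - P[Yv | Pk b 0] ω) ^ 2 * ‖Vf P γ (sh (-(L : ℤ)) ω)‖ ^ 2 ∂P :=
    integral_nonneg fun _ => by positivity
  have hBγ : δ / 2 ≤ Bf P γ := by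
    have : 0 ≤ 10 * r ^ 2 * ∫ ω, (Yv ω - P[Yv | Pk b 0] ω) ^ 2 *
      ‖Vf P γ (sh (-(L : ℤ)) ω)‖ ^ 2 ∂P := by positivity
    unfold Bf at hd ⊢
    linarith
  have hG' : StronglyMeasurable[Pk b 0] fun ω => ‖Vf P γ (sh (-(L : ℤ)) ω)‖ ^ 2 :=
    hG.comp_measurable (measurable_sh_Pk (by omega))
  have h9 := hE _ hG'.aestronglyMeasurable ((hP (-(L : ℤ))).quasiMeasurePreserving.ae hG1) (by
    rw [Bfun_shift hP (-(L : ℤ)) (g := fun ω => ‖Vf P γ ω‖ ^ 2) ((Bfun_V_aesm γ).norm.pow 2)]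
    exact hBγ)
  have h10 : 2 * κ ≤ 10 * r ^ 2 * η := by
    have h11 : (1 / (8 * (b : ℝ))) ^ 2 ≤ r ^ 2 := by
      rw [← sq_abs r]
      exact pow_le_pow_left₀ (by positivity) hr1 2
    have h12 : 2 * κ = 10 * (1 / (8 * (b : ℝ))) ^ 2 * η := by
      rw [hκ]; field_simp; ring
    rw [h12]
    gcongr
  have h13 := mul_le_mul_of_nonneg_left h9 (by positivity : 0 ≤ 10 * r ^ 2)
  unfold Bf at hd h1 h3 ⊢
  linarith

end Pool.Agent.Lib.MP_c9a594_an.FS
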