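import Pool.Agent.Lib.MP_c9a594_an.FS.Basic

/-! Conditional expectations of bounded complex functions. -/

namespace Pool.Agent.Lib.MP_c9a594_an.FS

open MeasureTheory Filter Topology

variable {X : Type} {m : MeasurableSpace X} [m0 : MeasurableSpace X] {μ : Measure X}
  [IsProbabilityMeasure μ]

set_option linter.unusedVariables false in
set_option linter.unusedSectionVars false in
lemma ce_bd (hm : m ≤ m0) {f : X → ℂ} {C : ℝ} (hf : ∀ᵐ x ∂μ, ‖f x‖ ≤ C) :
    ∀ᵐ x ∂μ, ‖μ[f | m] x‖ ≤ C := ae_bdd_norm_condExp_of_ae_bdd_norm hf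

lemma ce_mul (hm : m ≤ m0) {g f : X → ℂ} (hg : AEStronglyMeasurable[m] g μ) {C : ℝ}
    (hC : ∀ᵐ x ∂μ, ‖g x‖ ≤ C) (hf : Integrable f μ) :
    μ[fun x => g x * f x | m] =ᵐ[μ] fun x => g x * μ[f | m] x :=
  condExp_aestronglyMeasurable_bilin_of_bound (ContinuousLinearMap.mul ℝ ℂ) hm hg hf C hC

set_option linter.unusedVariables false in
set_option linter.unusedSectionVars false in
lemma integral_norm_ce_le (hm : m ≤ m0) {f : X → ℂ} (hf : Integrable f μ) :
    ∫ x, ‖μ[f | m] x‖ ∂μ ≤ ∫ x, ‖f x‖ ∂μ := integral_norm_condExp_le f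

lemma ce_aux_sq (a v : ℂ) :
    ‖a - v‖ ^ 2 = ‖a‖ ^ 2 - 2 * ((starRingEnd ℂ) v * a).re + ‖v‖ ^ 2 := by
  simp only [Complex.sq_norm, Complex.normSq_apply, Complex.sub_re, Complex.sub_im, Complex.mul_re,
    Complex.conj_re, Complex.conj_im]
  ring

lemma ce_aux_int_sq {f : X → ℂ} (hf : AEStronglyMeasurable f μ) {C : ℝ}
    (hC : ∀ᵐ x ∂μ, ‖f x‖ ≤ C) : Integrable (fun x => ‖f x‖ ^ 2) μ := by
  refine Integrable.of_bound (hf.norm.pow 2) (C ^ 2) ?_
  filter_upwards [hC] with x hx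
  rw [Real.norm_eq_abs, abs_of_nonneg (by positivity)]
  exact pow_le_pow_left₀ (norm_nonneg _) hx 2

lemma ce_pyth (hm : m ≤ m0) {f : X → ℂ} (hf : AEStronglyMeasurable f μ) {C : ℝ}
    (hC : ∀ᵐ x ∂μ, ‖f x‖ ≤ C) :
    ∫ x, ‖f x - μ[f | m] x‖ ^ 2 ∂μ = ∫ x, ‖f x‖ ^ 2 ∂μ - ∫ x, ‖μ[f | m] x‖ ^ 2 ∂μ := by
  have hfi : Integrable f μ := Integrable.of_bound hf C hC
  have hV : ∀ᵐ x ∂μ, ‖μ[f | m] x‖ ≤ C := ce_bd hm hC
  have hVm : AEStronglyMeasurable[m] (fun x => (starRingEnd ℂ) (μ[f | m] x)) μ :=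
    (Complex.continuous_conj.comp_stronglyMeasurable
      stronglyMeasurable_condExp).aestronglyMeasurable
  have hVb : ∀ᵐ x ∂μ, ‖(starRingEnd ℂ) (μ[f | m] x)‖ ≤ C := by
    filter_upwards [hV] with x hx
    rwa [Complex.norm_conj]
  have hVm0 : AEStronglyMeasurable (μ[f | m]) μ := integrable_condExp.aestronglyMeasurable
  have hi : Integrable (fun x => (starRingEnd ℂ) (μ[f | m] x) * f x) μ :=
    hfi.bdd_mul (Complex.continuous_conj.comp_aestronglyMeasurable hVm0) hVb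
  have h1 : ∫ x, (starRingEnd ℂ) (μ[f | m] x) * f x ∂μ =
      ((∫ x, ‖μ[f | m] x‖ ^ 2 ∂μ : ℝ) : ℂ) := by
    rw [← integral_condExp hm, integral_congr_ae (ce_mul hm hVm hVb hfi), ← integral_complex_ofReal]
    refine integral_congr_ae (ae_of_all _ fun x => ?_)
    simp only [Complex.conj_mul']
    push_cast
    rfl
  have h2 : ∫ x, ((starRingEnd ℂ) (μ[f | m] x) * f x).re ∂μ = ∫ x, ‖μ[f | m] x‖ ^ 2 ∂μ := by
    have := integral_re hi
    simp only [RCLike.re_to_complex] at this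
    rw [this, h1, Complex.ofReal_re]
  have i1 := ce_aux_int_sq hf hC
  have i2 := ce_aux_int_sq hVm0 hV
  have i3 : Integrable (fun x => 2 * ((starRingEnd ℂ) (μ[f | m] x) * f x).re) μ :=
    hi.re.const_mul 2
  have i4 : Integrable (fun x => ‖f x‖ ^ 2 - 2 * ((starRingEnd ℂ) (μ[f | m] x) * f x).re) μ :=
    i1.sub i3
  simp_rw [ce_aux_sq]
  rw [integral_add i4 i2, integral_sub i1 i3, integral_const_mul, h2]
  ring

lemma ce_comp {E : Type} [NormedAddCommGroup E] [NormedSpace ℝ E] [CompleteSpace E] (hm : m ≤ m0)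
    {T : X → X} (hT : MeasurePreserving T μ μ) {f : X → E} (hf : Integrable f μ) :
    μ[fun x => f (T x) | m.comap T] =ᵐ[μ] fun x => μ[f | m] (T x) := by
  have hle : m.comap T ≤ m0 :=
    (MeasurableSpace.comap_mono hm).trans hT.measurable.comap_le
  have hfT : Integrable (fun x => f (T x)) μ := (hT.integrable_comp_of_integrable hf :)
  have hVT : Integrable (fun x => μ[f | m] (T x)) μ :=
    (hT.integrable_comp_of_integrable (integrable_condExp (m := m) (f := f)) :)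
  have key : ∀ {g : X → E}, Integrable g μ → ∀ s, MeasurableSet s →
      ∫ x in T ⁻¹' s, g (T x) ∂μ = ∫ x in s, g x ∂μ := by
    intro g hg s hs
    have := setIntegral_map (μ := μ) (g := T) (f := g) hs
      (by rw [hT.map_eq]; exact hg.aestronglyMeasurable) hT.measurable.aemeasurable
    rw [hT.map_eq] at this
    exact this.symm
  refine (ae_eq_condExp_of_forall_setIntegral_eq hle hfT (fun s _ _ => hVT.integrableOn)
    (fun s hs _ => ?_) ?_).symm
  · obtain ⟨t, ht, rfl⟩ := hs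
    rw [key integrable_condExp t (hm t ht), key hf t (hm t ht), setIntegral_condExp hm hf ht]
  · exact (stronglyMeasurable_condExp.comp_measurable
      (measurable_iff_comap_le.mpr le_rfl)).aestronglyMeasurable

lemma ce_aux_exp {t : ℝ} (ht : |t| ≤ 1) :
    ‖Complex.exp ((t : ℂ) * Complex.I) - (t : ℂ) * Complex.I‖ ≤ 1 - 5 / 18 * t ^ 2 := by
  have hn : ‖(t : ℂ) * Complex.I‖ = |t| := by simp
  have h := Complex.exp_bound (x := (t : ℂ) * Complex.I) (by rw [hn]; exact ht) (n := 3)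
    (by norm_num)
  rw [hn] at h
  have hs : ∑ k ∈ Finset.range 3, ((t : ℂ) * Complex.I) ^ k / (k.factorial : ℂ) =
      (t : ℂ) * Complex.I + ((1 - t ^ 2 / 2 : ℝ) : ℂ) := by
    simp only [Finset.sum_range_succ, Finset.sum_range_zero, Nat.factorial]
    push_cast
    simp only [mul_pow, Complex.I_sq]
    ring
  rw [hs] at h
  have ht2 : t ^ 2 ≤ 1 := by
    rw [← sq_abs]; exact pow_le_one₀ (abs_nonneg _) ht
  have h3 : |t| ^ 3 ≤ t ^ 2 := by
    rw [← sq_abs]
    exact pow_le_pow_of_le_one (abs_nonneg _) ht (by norm_num)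
  have h4 : ‖((1 - t ^ 2 / 2 : ℝ) : ℂ)‖ = 1 - t ^ 2 / 2 := by
    rw [Complex.norm_real, Real.norm_eq_abs, abs_of_nonneg (by linarith)]
  have h5 : Complex.exp ((t : ℂ) * Complex.I) - (t : ℂ) * Complex.I =
      (Complex.exp ((t : ℂ) * Complex.I) - ((t : ℂ) * Complex.I + ((1 - t ^ 2 / 2 : ℝ) : ℂ))) +
        ((1 - t ^ 2 / 2 : ℝ) : ℂ) := by ring
  have h6 : ((Nat.succ 3 : ℕ) : ℝ) * (((Nat.factorial 3 : ℕ) : ℝ) * ((3 : ℕ) : ℝ))⁻¹ = 2 / 9 := by
    norm_num [Nat.factorial]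
  rw [h6] at h
  rw [h5]
  refine (norm_add_le _ _).trans ?_
  rw [h4]
  linarith

lemma ce_aux_ee {u z : ℝ} (hu : |u| ≤ 1 / 8) (hz : |z| ≤ 1) :
    ‖ee (u * z) - ((2 * Real.pi * u : ℝ) : ℂ) * Complex.I * (z : ℂ)‖ ≤ 1 - 10 * u ^ 2 * z ^ 2 := by
  have hpi := Real.pi_pos
  have ht : |2 * Real.pi * (u * z)| ≤ 1 := by
    rw [abs_mul, abs_mul u z, abs_of_pos (by positivity : 0 < 2 * Real.pi)]
    have h1 : |u| * |z| ≤ 1 / 8 := by
      calc |u| * |z| ≤ 1 / 8 * 1 := mul_le_mul hu hz (abs_nonneg _) (by norm_num)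
        _ = 1 / 8 := by norm_num
    have h2 : 2 * Real.pi * (|u| * |z|) ≤ 2 * Real.pi * (1 / 8) :=
      mul_le_mul_of_nonneg_left h1 (by positivity)
    linarith [Real.pi_le_four]
  have h := ce_aux_exp ht
  have e : ((2 * Real.pi * u : ℝ) : ℂ) * Complex.I * (z : ℂ) =
      ((2 * Real.pi * (u * z) : ℝ) : ℂ) * Complex.I := by
    push_cast; ring
  rw [e]
  refine h.trans ?_
  have h9 : 9 ≤ Real.pi ^ 2 := by nlinarith [Real.pi_gt_three]
  have h0 : 0 ≤ u ^ 2 * z ^ 2 := by positivity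
  have : (2 * Real.pi * (u * z)) ^ 2 = 4 * Real.pi ^ 2 * (u ^ 2 * z ^ 2) := by ring
  rw [this]
  nlinarith [mul_le_mul_of_nonneg_right h9 h0]

/-- The conditional characteristic function at a small frequency. -/
lemma norm_ce_ee_le (hm : m ≤ m0) {Y : X → ℝ} (hY : Measurable Y) (h0 : ∀ x, 0 ≤ Y x)
    (h1 : ∀ x, Y x ≤ 1) {u : ℝ} (hu : |u| ≤ 1 / 8) :
    ∀ᵐ x ∂μ, ‖μ[fun x => ee (u * Y x) | m] x‖ ≤
      μ[fun x => 1 - 10 * u ^ 2 * (Y x - μ[Y | m] x) ^ 2 | m] x := by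
  have hYi : Integrable Y μ := Integrable.of_bound hY.aestronglyMeasurable 1
    (ae_of_all _ fun x => by rw [Real.norm_eq_abs, abs_of_nonneg (h0 x)]; exact h1 x)
  have hM0 : 0 ≤ᵐ[μ] μ[Y | m] := condExp_nonneg (ae_of_all _ h0)
  have hM1 : ∀ᵐ x ∂μ, μ[Y | m] x ≤ 1 := by
    have := condExp_mono (m := m) hYi (integrable_const (1 : ℝ)) (ae_of_all _ h1)
    rw [condExp_const hm] at this
    exact this
  have hZ : ∀ᵐ x ∂μ, |Y x - μ[Y | m] x| ≤ 1 := by
    filter_upwards [hM0, hM1] with x a c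
    have a' : 0 ≤ μ[Y | m] x := a
    rw [abs_le]
    constructor <;> linarith [h0 x, h1 x]
  have hZi : Integrable (fun x => Y x - μ[Y | m] x) μ := hYi.sub integrable_condExp
  have hZ0 : μ[fun x => Y x - μ[Y | m] x | m] =ᵐ[μ] 0 := by
    have a := condExp_sub hYi (integrable_condExp (m := m) (f := Y)) m
    rw [condExp_of_stronglyMeasurable hm stronglyMeasurable_condExp integrable_condExp,
      sub_self] at a
    exact a
  set c : ℂ := ((2 * Real.pi * u : ℝ) : ℂ) * Complex.I with hc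
  have hTi : Integrable (fun x => c * ((Y x - μ[Y | m] x : ℝ) : ℂ)) μ := hZi.ofReal.const_mul c
  have hT0 : μ[fun x => c * ((Y x - μ[Y | m] x : ℝ) : ℂ) | m] =ᵐ[μ] 0 := by
    have a := ContinuousLinearMap.comp_condExp_comm (m := m) hZi
      ((ContinuousLinearMap.mul ℝ ℂ c).comp Complex.ofRealCLM)
    refine (EventuallyEq.symm a).trans ?_
    filter_upwards [hZ0] with x hx
    simp [hx]
  have hEm : AEStronglyMeasurable (fun x => ee (u * (Y x - μ[Y | m] x))) μ :=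
    continuous_ee.comp_aestronglyMeasurable (hZi.aestronglyMeasurable.const_mul u)
  have hEi : Integrable (fun x => ee (u * (Y x - μ[Y | m] x))) μ :=
    Integrable.of_bound hEm 1 (ae_of_all _ fun x => (norm_ee _).le)
  have hg : AEStronglyMeasurable[m] (fun x => ee (u * μ[Y | m] x)) μ :=
    (continuous_ee.comp_stronglyMeasurable
      (stronglyMeasurable_condExp.const_mul u)).aestronglyMeasurable
  have e1 : (fun x => ee (u * Y x)) =
      fun x => ee (u * μ[Y | m] x) * ee (u * (Y x - μ[Y | m] x)) := by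
    funext x
    rw [← ee_add]
    congr 1
    ring
  have e2 := ce_mul hm hg (C := 1) (ae_of_all _ fun x => (norm_ee _).le) hEi
  have e3 := condExp_sub hEi hTi m
  have e4 := norm_condExp_le (m := m) (μ := μ)
    ((fun x => ee (u * (Y x - μ[Y | m] x))) - fun x => c * ((Y x - μ[Y | m] x : ℝ) : ℂ))
  have hRi : Integrable (fun x => 1 - 10 * u ^ 2 * (Y x - μ[Y | m] x) ^ 2) μ := by
    refine (integrable_const (1 : ℝ)).sub (Integrable.const_mul ?_ _)
    refine Integrable.of_bound (hZi.aestronglyMeasurable.pow 2) 1 ?_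
    filter_upwards [hZ] with x hx
    rw [Real.norm_eq_abs, abs_pow]
    exact pow_le_one₀ (abs_nonneg _) hx
  have e5 := condExp_mono (m := m) (hEi.sub hTi).norm hRi (by
    filter_upwards [hZ] with x hx
    exact ce_aux_ee hu hx)
  rw [e1]
  filter_upwards [e2, e3, e4, e5, hT0] with x a2 a3 a4 a5 a0
  rw [a2, norm_mul, norm_ee, one_mul]
  refine le_trans ?_ (a4.trans a5)
  rw [a3, Pi.sub_apply, a0, Pi.zero_apply, sub_zero]

lemma integral_le_of_sq {f : X → ℝ} (hf : AEStronglyMeasurable f μ) {C : ℝ}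
    (hC : ∀ᵐ x ∂μ, |f x| ≤ C) {t : ℝ} (ht : 0 < t) :
    ∫ x, f x ∂μ ≤ t + (∫ x, f x ^ 2 ∂μ) / t := by
  have hi : Integrable f μ := Integrable.of_bound hf C hC
  have h2 : Integrable (fun x => f x ^ 2) μ := by
    refine Integrable.of_bound (hf.pow 2) (C ^ 2) ?_
    filter_upwards [hC] with x hx
    rw [Real.norm_eq_abs, abs_pow]
    exact pow_le_pow_left₀ (abs_nonneg _) hx 2
  have h3 : ∫ x, f x ∂μ ≤ ∫ x, (t + f x ^ 2 / t) ∂μ := by
    refine integral_mono hi ((integrable_const t).add (h2.div_const t)) fun x => ?_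
    have : f x * t ≤ (t + f x ^ 2 / t) * t := by
      rw [add_mul, div_mul_cancel₀ _ ht.ne']
      nlinarith [sq_nonneg (f x - t), sq_nonneg (f x), sq_nonneg t]
    exact le_of_mul_le_mul_right this ht
  rw [integral_add (integrable_const t) (h2.div_const t), integral_div] at h3
  simpa using h3

end Pool.Agent.Lib.MP_c9a594_an.FS
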