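import Pool.Agent.Lib.MP_c9a594_an.FS.EntSh

/-! The entropy pigeonhole. -/

namespace Pool.Agent.Lib.MP_c9a594_an.FS

open MeasureTheory Filter Topology

variable {b : ℕ}

lemma code_cross (hb : 2 ≤ b) {x : ℝ} {N : ℕ} (hN : 1 ≤ N) {p q p' q' : ℤ}
    (h1 : |(q : ℝ)| ≤ (b : ℝ) ^ N) (h2 : |x * q - p| ≤ 1 / (b : ℝ) ^ (3 * N))
    (h3 : |(q' : ℝ)| ≤ (b : ℝ) ^ (N + 1)) (h4 : |x * q' - p'| ≤ 1 / (b : ℝ) ^ (3 * (N + 1))) :
    p' * q = p * q' := by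
  have hb' : (2 : ℝ) ≤ b := by exact_mod_cast hb
  have hb1 : (1 : ℝ) ≤ b := by linarith
  have e1 : (b : ℝ) ^ (N + 1) * (1 / (b : ℝ) ^ (3 * N)) ≤ 1 / 2 := by
    rw [mul_one_div, div_le_iff₀ (by positivity)]
    have h5 : (b : ℝ) ^ (N + 2) ≤ (b : ℝ) ^ (3 * N) := pow_le_pow_right₀ hb1 (by omega)
    have h6 : (0 : ℝ) ≤ (b : ℝ) ^ (N + 1) := by positivity
    rw [pow_succ (b : ℝ) (N + 1)] at h5
    nlinarith
  have e2 : (b : ℝ) ^ N * (1 / (b : ℝ) ^ (3 * (N + 1))) ≤ 1 / 4 := by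
    rw [mul_one_div, div_le_iff₀ (by positivity)]
    have h5 : (b : ℝ) ^ (N + 2) ≤ (b : ℝ) ^ (3 * (N + 1)) := pow_le_pow_right₀ hb1 (by omega)
    have h6 : (0 : ℝ) ≤ (b : ℝ) ^ N := by positivity
    have h7 : (4 : ℝ) ≤ (b : ℝ) ^ 2 := by nlinarith
    rw [pow_add] at h5
    nlinarith
  have e3 : |((p' * q - p * q' : ℤ) : ℝ)| < 1 := by
    have : ((p' * q - p * q' : ℤ) : ℝ) = q' * (x * q - p) - q * (x * q' - p') := by
      push_cast; ring
    rw [this]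
    have h5 := abs_sub ((q' : ℝ) * (x * q - p)) (q * (x * q' - p'))
    rw [abs_mul, abs_mul] at h5
    have h6 := mul_le_mul h3 h2 (abs_nonneg _) (by positivity)
    have h7 := mul_le_mul h1 h4 (abs_nonneg _) (by positivity)
    linarith
  have e4 : |p' * q - p * q'| < 1 := by exact_mod_cast e3
  exact sub_eq_zero.1 (Int.abs_lt_one_iff.1 e4)

lemma rat_of_approx (hb : 2 ≤ b) {x : ℝ} {N₀ : ℕ}
    (h : ∀ N, N₀ ≤ N → ∃ p q : ℤ, q ≠ 0 ∧ |(q : ℝ)| ≤ (b : ℝ) ^ N ∧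
      |x * q - p| ≤ 1 / (b : ℝ) ^ (3 * N)) : ∃ r : ℚ, x = r := by
  have hb' : (2 : ℝ) ≤ b := by exact_mod_cast hb
  choose p q h0 h1 h2 using fun n : ℕ => h (N₀ + 1 + n) (by omega)
  have key : ∀ n, (p n : ℝ) / q n = p 0 / q 0 := by
    intro n
    induction n with
    | zero => rfl
    | succ n ih =>
      have h3 := code_cross hb (N := N₀ + 1 + n) (by omega) (h1 n) (h2 n) (h1 (n + 1)) (h2 (n + 1))
      rw [← ih, div_eq_div_iff (by exact_mod_cast h0 _) (by exact_mod_cast h0 _)]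
      exact_mod_cast h3
  refine ⟨p 0 / q 0, ?_⟩
  push_cast
  have h3 : ∀ n : ℕ, |x - p 0 / q 0| ≤ (1 / 2 : ℝ) ^ n := by
    intro n
    have h4 : (q n : ℝ) ≠ 0 := by exact_mod_cast h0 n
    have h5 : (1 : ℝ) ≤ |(q n : ℝ)| := by exact_mod_cast Int.one_le_abs (h0 n)
    have h6 : x - p n / q n = (x * q n - p n) / q n := by field_simp
    rw [← key n, h6, abs_div]
    refine (div_le_self (abs_nonneg _) h5).trans ((h2 n).trans ?_)
    rw [one_div_pow]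
    refine one_div_le_one_div_of_le (by positivity) ?_
    exact (pow_le_pow_left₀ (by norm_num) hb' n).trans (pow_le_pow_right₀ (by linarith) (by omega))
  have h4 := ge_of_tendsto' (tendsto_pow_atTop_nhds_zero_of_lt_one (r := (1 / 2 : ℝ)) (by norm_num)
    (by norm_num)) h3
  exact sub_eq_zero.1 (abs_nonpos_iff.1 h4)

lemma code_chain (hb : 2 ≤ b) (n : ℕ) : ∀ y : ℝ,
    (∀ i, i ≤ n → ∃ m : ℤ, |(b : ℝ) ^ i * y - m| ≤ 1 / (2 * b)) →
    ∃ m : ℤ, |y - m| ≤ 1 / (2 * b) / (b : ℝ) ^ n := by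
  have hb' : (2 : ℝ) ≤ b := by exact_mod_cast hb
  induction n with
  | zero => intro y h; simpa using h 0 le_rfl
  | succ n ih =>
    intro y h
    obtain ⟨m', h1⟩ := ih (b * y) fun i hi => by
      have := h (i + 1) (by omega)
      rwa [pow_succ, mul_assoc] at this
    obtain ⟨m, h2⟩ := h 0 (by omega)
    rw [pow_zero, one_mul] at h2
    have h3 : 1 / (2 * (b : ℝ)) ≤ 1 / 4 := one_div_le_one_div_of_le (by norm_num) (by linarith)
    have h4 : 1 / (2 * (b : ℝ)) / (b : ℝ) ^ n ≤ 1 / (2 * b) :=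
      div_le_self (by positivity) (one_le_pow₀ (by linarith))
    have h5 : |(b : ℝ) * (y - m)| ≤ 1 / 2 := by
      rw [abs_mul, abs_of_nonneg (by linarith : (0 : ℝ) ≤ b)]
      refine (mul_le_mul_of_nonneg_left h2 (by linarith)).trans (le_of_eq ?_)
      field_simp
    have h6 : |((b * m - m' : ℤ) : ℝ)| < 1 := by
      have : ((b * m - m' : ℤ) : ℝ) = (b * y - m') - b * (y - m) := by push_cast; ring
      rw [this]
      linarith [abs_sub ((b : ℝ) * y - m') (b * (y - m))]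
    have h7 : |(b : ℤ) * m - m'| < 1 := by exact_mod_cast h6
    have h8 : (m' : ℝ) = b * m := by
      have := sub_eq_zero.1 (Int.abs_lt_one_iff.1 h7)
      exact_mod_cast this.symm
    refine ⟨m, ?_⟩
    rw [h8, ← mul_sub, abs_mul, abs_of_nonneg (by linarith : (0 : ℝ) ≤ b)] at h1
    rw [pow_succ, ← div_div, le_div_iff₀ (by linarith), mul_comm]
    exact h1

/-- The cell of length `1 / (2 b)` containing the fractional part. -/
noncomputable def codeCell (hb : 2 ≤ b) (y : ℝ) : Fin (2 * b) :=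
  ⟨⌊2 * (b : ℝ) * Int.fract y⌋₊, by
    have hb' : (2 : ℝ) ≤ b := by exact_mod_cast hb
    rw [Nat.floor_lt (mul_nonneg (by linarith) (Int.fract_nonneg y))]
    push_cast
    nlinarith [Int.fract_lt_one y]⟩

lemma code_cell (hb : 2 ≤ b) {y y' : ℝ} (h : codeCell hb y = codeCell hb y') :
    ∃ m : ℤ, |y - y' - m| ≤ 1 / (2 * b) := by
  have hb' : (2 : ℝ) ≤ b := by exact_mod_cast hb
  have h1 : ⌊2 * (b : ℝ) * Int.fract y⌋₊ = ⌊2 * (b : ℝ) * Int.fract y'⌋₊ := congrArg Fin.val h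
  have h2 := Nat.floor_le (mul_nonneg (by linarith : 0 ≤ 2 * (b : ℝ)) (Int.fract_nonneg y))
  have h3 := Nat.floor_le (mul_nonneg (by linarith : 0 ≤ 2 * (b : ℝ)) (Int.fract_nonneg y'))
  have h4 := Nat.lt_floor_add_one (2 * (b : ℝ) * Int.fract y)
  have h5 := Nat.lt_floor_add_one (2 * (b : ℝ) * Int.fract y')
  rw [h1] at h2 h4
  refine ⟨⌊y⌋ - ⌊y'⌋, ?_⟩
  have h6 : y - y' - ((⌊y⌋ - ⌊y'⌋ : ℤ) : ℝ) = Int.fract y - Int.fract y' := by
    rw [Int.fract, Int.fract]; push_cast; ring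
  rw [h6, le_div_iff₀ (by linarith), ← abs_of_nonneg (by linarith : 0 ≤ 2 * (b : ℝ)), ← abs_mul,
    abs_le]
  constructor <;> nlinarith

/-- The phase at time `k` can be read off. -/
def CodeOK (u : ℝ) (g : ℕ) (Good : ℕ → Set (Om b)) (z : ℕ → Om b → ℂ) (k : ℕ) (ω : Om b) : Prop :=
  (∃ i, i < g ∧ ω ∈ Good (k - i)) ∧ ∀ i, i < g → ω ∈ Good (k - i) →
    ‖ee (u * Xw (k - i) ω) - z (k - i) ω‖ ≤ 1 / (b : ℝ) ^ (g + 1)

open Classical in
/-- The correction needed at time `k`. -/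
noncomputable def codeErr (hb : 2 ≤ b) (u : ℝ) (g : ℕ) (Good : ℕ → Set (Om b))
    (z : ℕ → Om b → ℂ) (k : ℕ) (ω : Om b) : Option (Fin (2 * b)) :=
  if CodeOK u g Good z k ω then none else some (codeCell hb (u * Xw k ω))

section
variable {u : ℝ} {g w S : ℕ} {Good : ℕ → Set (Om b)} {z : ℕ → Om b → ℂ}
  (h1 : ∀ (k : ℕ) ω ω', (∀ j : ℤ, k - w ≤ j → j < k → ω j = ω' j) → ω ∈ Good k → ω' ∈ Good k)
  (h2 : ∀ (k : ℕ) ω ω', (∀ j : ℤ, -(S : ℤ) ≤ j → j < 0 → ω j = ω' j) →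
    (∀ j : ℤ, k - w ≤ j → j < k → ω j = ω' j) → z k ω = z k ω')
include h1 h2

lemma code_fib (hb : 2 ≤ b) {k : ℕ} (hk : w + g ≤ k) : Fib (codeErr hb u g Good z k) := by
  have key : ∀ ω ω' : Om b, (∀ j : ℤ, -(S : ℤ) ≤ j → j < k → ω j = ω' j) →
      CodeOK u g Good z k ω → CodeOK u g Good z k ω' := by
    intro ω ω' h ⟨⟨i, hi, hG⟩, hz⟩
    refine ⟨⟨i, hi, h1 _ ω ω' (fun j _ _ => h j (by omega) (by omega)) hG⟩, fun i hi hG => ?_⟩
    rw [← h2 _ ω ω' (fun j _ _ => h j (by omega) (by omega))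
      (fun j _ _ => h j (by omega) (by omega)),
      ← (Xw_eq_iff (k - i) ω ω').2 fun j _ => h j (by omega) (by omega)]
    exact hz i hi (h1 _ ω' ω (fun j _ _ => (h j (by omega) (by omega)).symm) hG)
  refine fib_of_dep (k := -(S : ℤ)) (l := k) fun ω ω' h => ?_
  unfold codeErr
  rw [(Xw_eq_iff k ω ω').2 fun j _ => h j (by omega) (by omega)]
  rw [propext (⟨key ω ω' h, key ω' ω fun j a c => (h j a c).symm⟩ :
    CodeOK u g Good z k ω ↔ CodeOK u g Good z k ω')]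

lemma code_step (hb : 2 ≤ b) {N j : ℕ} (hj : w + g ≤ j) {ω ω' : Om b}
    (hA : ∀ i : ℤ, -(S : ℤ) ≤ i → i < 0 → ω i = ω' i)
    (hW : ∀ i : ℤ, (N : ℤ) ≤ i → i < N + j → ω i = ω' i)
    (hE : codeErr hb u g Good z (N + j) ω = codeErr hb u g Good z (N + j) ω') :
    ∃ m : ℤ, |(b : ℝ) ^ j * (u * ((Xw N ω : ℝ) - Xw N ω')) - m| ≤ 1 / (2 * b) := by
  have hb' : (2 : ℝ) ≤ b := by exact_mod_cast hb
  have hX : ∀ l, l ≤ j → u * (Xw (N + l) ω : ℝ) - u * Xw (N + l) ω' =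
      (b : ℝ) ^ l * (u * ((Xw N ω : ℝ) - Xw N ω')) := by
    intro l hl
    rw [Xw_add, Xw_add, (Xw_eq_iff l (sh N ω) (sh N ω')).2 fun i _ => hW _ (by omega) (by omega)]
    push_cast
    ring
  unfold codeErr at hE
  split_ifs at hE with c1 c2
  · obtain ⟨⟨i, hi, hG⟩, hz⟩ := c1
    have hG' := h1 _ ω ω' (fun j _ _ => hW j (by omega) (by omega)) hG
    have e1 := hz i hi hG
    have e2 := c2.2 i hi hG'
    rw [← h2 _ ω ω' hA (fun j _ _ => hW j (by omega) (by omega))] at e2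
    obtain ⟨m, hm⟩ := exists_int_of_ee (u * Xw (N + j - i) ω) (u * Xw (N + j - i) ω')
    have e3 := norm_sub_le_norm_sub_add_norm_sub (ee (u * Xw (N + j - i) ω)) (z (N + j - i) ω)
      (ee (u * Xw (N + j - i) ω'))
    rw [norm_sub_rev (z _ _)] at e3
    have e4 : N + j - i = N + (j - i) := by omega
    have e5 := hX (j - i) (by omega)
    rw [← e4] at e5
    rw [e5] at hm
    refine ⟨b ^ i * m, ?_⟩
    have e6 : (b : ℝ) ^ j * (u * ((Xw N ω : ℝ) - Xw N ω')) - ((b ^ i * m : ℤ) : ℝ) =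
        (b : ℝ) ^ i * ((b : ℝ) ^ (j - i) * (u * ((Xw N ω : ℝ) - Xw N ω')) - m) := by
      have : (b : ℝ) ^ j = (b : ℝ) ^ i * (b : ℝ) ^ (j - i) := by
        rw [← pow_add]; congr 1; omega
      rw [this]; push_cast; ring
    have e7 : (b : ℝ) ^ i ≤ (b : ℝ) ^ g := pow_le_pow_right₀ (by linarith) hi.le
    have e8 : (b : ℝ) ^ g * (1 / (b : ℝ) ^ (g + 1) / 2) = 1 / (2 * b) := by
      rw [pow_succ]; field_simp
    rw [e6, abs_mul, abs_of_nonneg (by positivity), ← e8]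
    exact mul_le_mul e7 (by linarith) (abs_nonneg _) (by positivity)
  · obtain ⟨m, hm⟩ := code_cell hb (Option.some.inj hE)
    exact ⟨m, by rwa [hX j le_rfl] at hm⟩

lemma code_det (hb : 2 ≤ b) {N : ℕ} (hN : w + g ≤ N)
    (hx : ∀ p q : ℤ, q ≠ 0 → |(q : ℝ)| ≤ (b : ℝ) ^ N →
      ¬ |u * (b : ℝ) ^ (w + g) * q - p| ≤ 1 / (b : ℝ) ^ (3 * N)) {ω ω' : Om b}
    (hA : ∀ i : ℤ, -(S : ℤ) ≤ i → i < 0 → ω i = ω' i)
    (hW : ∀ i : ℤ, (N : ℤ) ≤ i → i < N + (4 * N : ℕ) → ω i = ω' i)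
    (hE : ∀ j, j ≤ 4 * N →
      codeErr hb u g Good z (N + j) ω = codeErr hb u g Good z (N + j) ω') :
    Xw N ω = Xw N ω' := by
  have hb' : (2 : ℝ) ≤ b := by exact_mod_cast hb
  obtain ⟨m, hm⟩ := code_chain hb (3 * N)
    ((b : ℝ) ^ (w + g) * (u * ((Xw N ω : ℝ) - Xw N ω'))) fun i hi => by
      rw [← mul_assoc, ← pow_add]
      exact code_step h1 h2 hb (by omega) hA (fun l a c => hW l a (by omega)) (hE _ (by omega))
  by_contra hne
  refine hx m ((Xw N ω : ℤ) - Xw N ω') (by omega) ?_ ?_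
  · have e1 : (Xw N ω : ℝ) < (b : ℝ) ^ N := by exact_mod_cast Xw_lt N ω
    have e2 : (Xw N ω' : ℝ) < (b : ℝ) ^ N := by exact_mod_cast Xw_lt N ω'
    have e3 : (0 : ℝ) ≤ Xw N ω := Nat.cast_nonneg _
    have e4 : (0 : ℝ) ≤ Xw N ω' := Nat.cast_nonneg _
    push_cast
    rw [abs_le]
    constructor <;> linarith
  · have e1 : u * (b : ℝ) ^ (w + g) * (((Xw N ω : ℤ) - Xw N ω' : ℤ) : ℝ) =
        (b : ℝ) ^ (w + g) * (u * ((Xw N ω : ℝ) - Xw N ω')) := by push_cast; ring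
    rw [e1]
    refine hm.trans (div_le_div_of_nonneg_right ?_ (by positivity))
    rw [div_le_one (by linarith)]
    linarith

lemma code_ent (hb : 2 ≤ b) {Q : Measure (Om b)} [IsProbabilityMeasure Q] (hQ : Inv Q) {N S' : ℕ}
    (hN : w + g ≤ N) (hS : S ≤ S')
    (hx : ∀ p q : ℤ, q ≠ 0 → |(q : ℝ)| ≤ (b : ℝ) ^ N →
      ¬ |u * (b : ℝ) ^ (w + g) * q - p| ≤ 1 / (b : ℝ) ^ (3 * N)) {e : ℝ}
    (he : ∀ j, j ≤ 4 * N → ent Q (codeErr hb u g Good z (N + j)) ≤ e) :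
    Hn Q (S' + 5 * N) ≤ Hn Q S' + (Hn Q (4 * N) + (4 * N + 1) * e) := by
  have fE : ∀ j : Fin (4 * N + 1), Fib (codeErr hb u g Good z (N + j)) := fun j =>
    code_fib h1 h2 hb (by omega)
  have e1 := ent_le_of_det (μ := Q) (g := wd (-(S' : ℤ)) (S' + 5 * N))
    ((fib_wd (-(S' : ℤ)) S').prod ((fib_wd (N : ℤ) (4 * N)).prod (Fib.pi fE))) fun ω ω' h => by
      have a1 := (wd_eq_iff _ _ _ _).1 (congrArg Prod.fst h)
      have a2 := (wd_eq_iff _ _ _ _).1 (congrArg (fun x => x.2.1) h)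
      have a3 := congrArg (fun x => x.2.2) h
      have a4 := (Xw_eq_iff _ _ _).1 (code_det h1 h2 hb hN hx
        (fun i a c => a1 i (by omega) (by omega)) a2 fun j hj => congrFun a3 ⟨j, by omega⟩)
      refine (wd_eq_iff _ _ _ _).2 fun j a c => ?_
      rcases lt_or_ge j 0 with c1 | c1
      · exact a1 j a (by omega)
      rcases lt_or_ge j N with c2 | c2
      · obtain ⟨n, rfl⟩ := Int.eq_ofNat_of_zero_le c1
        exact a4 n (by omega)
      · exact a2 j c2 (by omega)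
  have e2 := ent_prod_le (μ := Q) (fib_wd (-(S' : ℤ)) S')
    ((fib_wd (N : ℤ) (4 * N)).prod (Fib.pi fE))
  have e3 := ent_prod_le (μ := Q) (fib_wd (N : ℤ) (4 * N)) (Fib.pi fE)
  have e4 := (ent_pi_le (μ := Q) fE).trans
    (Finset.sum_le_card_nsmul _ _ e fun j _ => he j (by omega))
  rw [Finset.card_univ, Fintype.card_fin, nsmul_eq_mul] at e4
  rw [ent_wd hQ] at e1 e2 e3
  push_cast at e4
  linarith

end

/-- If the phases `u * Xw k` can be read off the far past and a window before time `k`, then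
`u` is rational. -/
theorem code (hb : 2 ≤ b) {Q : Measure (Om b)} [IsProbabilityMeasure Q] (hQ : Inv Q)
    (hpos : PosEnt Q) : ∃ ε : ℝ, 0 < ε ∧ ∀ (u : ℝ) (g w : ℕ),
      (∀ M : ℕ, ∃ (S : ℕ) (Good : ℕ → Set (Om b)) (z : ℕ → Om b → ℂ),
        (∀ (k : ℕ) ω ω', (∀ j : ℤ, k - w ≤ j → j < k → ω j = ω' j) → ω ∈ Good k → ω' ∈ Good k) ∧
        (∀ (k : ℕ) ω ω', (∀ j : ℤ, -(S : ℤ) ≤ j → j < 0 → ω j = ω' j) →
          (∀ j : ℤ, k - w ≤ j → j < k → ω j = ω' j) → z k ω = z k ω') ∧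
        ∀ k, g ≤ k → k ≤ M → Q.real {ω | ¬ ((∃ i, i < g ∧ ω ∈ Good (k - i)) ∧
          ∀ i, i < g → ω ∈ Good (k - i) →
            ‖ee (u * Xw (k - i) ω) - z (k - i) ω‖ ≤ 1 / (b : ℝ) ^ (g + 1))} ≤ ε) →
      ∃ r : ℚ, u = r := by
  obtain ⟨h, h0, hl, ht⟩ := exists_rate hQ
  obtain ⟨c, hc, hcn⟩ := hpos
  have hh : 0 < h := hc.trans_le (ge_of_tendsto ht ((eventually_gt_atTop 0).mono fun n hn => by
    rw [le_div_iff₀ (by exact_mod_cast hn)]
    exact hcn n))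
  have t0 : 0 < min 1 (h / 60) := lt_min one_pos (by positivity)
  have hlog : 0 ≤ Real.log ((Fintype.card (Option (Fin (2 * b))) : ℝ) / min 1 (h / 60)) := by
    refine Real.log_nonneg ?_
    rw [le_div_iff₀ t0, one_mul]
    refine (min_le_left _ _).trans ?_
    exact_mod_cast Fintype.card_pos
  refine ⟨h / 60 / (Real.log ((Fintype.card (Option (Fin (2 * b))) : ℝ) / min 1 (h / 60)) + 1),
    by positivity, fun u g w H => ?_⟩
  by_contra hu
  obtain ⟨N₁, hN₁⟩ := eventually_atTop.1 (ht.eventually (gt_mem_nhds (show h < h + h / 16 by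
    linarith)))
  obtain ⟨N₂, hN₂⟩ := exists_nat_gt (2 / h)
  have hb0 : (b : ℝ) ^ (w + g) ≠ 0 := pow_ne_zero _ (by exact_mod_cast (by omega : b ≠ 0))
  have hx : ¬ ∀ N, N₁ + N₂ + (w + g) + 1 ≤ N → ∃ p q : ℤ, q ≠ 0 ∧ |(q : ℝ)| ≤ (b : ℝ) ^ N ∧
      |u * (b : ℝ) ^ (w + g) * q - p| ≤ 1 / (b : ℝ) ^ (3 * N) := by
    intro hx
    obtain ⟨r, hr⟩ := rat_of_approx hb hx
    refine hu ⟨r / (b : ℚ) ^ (w + g), ?_⟩
    push_cast
    rw [← hr, mul_div_cancel_right₀ _ hb0]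
  simp only [not_forall, not_exists, not_and] at hx
  obtain ⟨N, hN, hx⟩ := hx
  obtain ⟨S, Good, z, h1, h2, h3⟩ := H (5 * N)
  obtain ⟨S', hS, hS'⟩ := exists_incr h0 hl S (5 * N)
  have e1 := code_ent h1 h2 hb hQ (by omega) hS hx (e := h / 30) fun j hj => by
    have a0 : {ω | codeErr hb u g Good z (N + j) ω ≠ none} ⊆ {ω | ¬ CodeOK u g Good z (N + j) ω} :=
      fun ω hω hk => hω (by rw [codeErr, if_pos hk])
    have a1 := ent_le_of_small (μ := Q)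
      (code_fib (u := u) (g := g) h1 h2 hb (k := N + j) (by omega)) none
      t0 (min_le_left _ _) ((measureReal_mono a0).trans (h3 (N + j) (by omega) (by omega)))
    rw [div_mul_cancel₀ _ (by positivity)] at a1
    linarith [min_le_right 1 (h / 60)]
  have e2 := hN₁ (4 * N) (by omega)
  have e3 : (1 : ℝ) ≤ N := by exact_mod_cast (by omega : 1 ≤ N)
  have e4 : (N₂ : ℝ) ≤ N := by exact_mod_cast (by omega : N₂ ≤ N)
  rw [div_lt_iff₀ (by exact_mod_cast (by omega : 0 < 4 * N))] at e2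
  rw [div_lt_iff₀ hh] at hN₂
  push_cast at e2 hS'
  nlinarith [mul_le_mul_of_nonneg_right e4 hh.le, mul_le_mul_of_nonneg_right e3 hh.le]

end Pool.Agent.Lib.MP_c9a594_an.FS
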