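import Mathlib

/-! Two-sided digit sequences, their past, entropy and conditional Fourier transform. -/

namespace Pool.Agent.Lib.MP_c9a594_an.FS

open MeasureTheory Filter Topology

/-- The entropy of a finite valued observable. -/
noncomputable def ent {X β : Type} [MeasurableSpace X] [Fintype β] (μ : Measure X) (f : X → β) :
    ℝ :=
  ∑ c, Real.negMulLog (μ.real (f ⁻¹' {c}))

/-- All fibres are measurable. -/
def Fib {X β : Type} [MeasurableSpace X] (f : X → β) : Prop := ∀ c, MeasurableSet (f ⁻¹' {c})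

/-- The character `exp (2 π i x)`. -/
noncomputable def ee (x : ℝ) : ℂ := Complex.exp (((2 * Real.pi * x : ℝ) : ℂ) * Complex.I)

/-- Two-sided digit sequences. -/
abbrev Om (b : ℕ) : Type := ℤ → Fin b

variable {b : ℕ}

/-- The shift. -/
def sh (k : ℤ) (ω : Om b) : Om b := fun j => ω (j + k)

/-- The number with digits `ω 0, ω 1, ...`. -/
noncomputable def Yv (ω : Om b) : ℝ := ∑' j : ℕ, ((ω j : ℕ) : ℝ) / (b : ℝ) ^ (j + 1)

/-- The integer with digits `ω 0, ..., ω (n - 1)`. -/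
def Xw : ℕ → Om b → ℕ
  | 0, _ => 0
  | n + 1, ω => b * Xw n ω + ω n

/-- The word of length `n` at position `k`. -/
def wd (k : ℤ) (n : ℕ) (ω : Om b) : Fin n → Fin b := fun i => ω (k + i)

/-- The past before time `k`. -/
@[instance_reducible] def Pk (b : ℕ) (k : ℤ) : MeasurableSpace (Om b) :=
  cylinderEvents (X := fun _ : ℤ => Fin b) (Set.Iio k)

/-- Shift invariance. -/
def Inv (P : Measure (Om b)) : Prop := ∀ k, MeasurePreserving (sh k) P P

/-- Block entropy. -/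
noncomputable def Hn (P : Measure (Om b)) (n : ℕ) : ℝ := ent P (wd 0 n)

/-- Positive entropy. -/
def PosEnt (P : Measure (Om b)) : Prop := ∃ c : ℝ, 0 < c ∧ ∀ n : ℕ, c * n ≤ Hn P n

/-- The future is nowhere determined by the past. -/
def NoPred (P : Measure (Om b)) : Prop :=
  ∀ (E : Set (Om b)) (g : Om b → ℝ), MeasurableSet[Pk b 0] E → Measurable[Pk b 0] g →
    (∀ᵐ ω ∂P, ω ∈ E → Yv ω = g ω) → P E = 0

/-- The Fourier transform of the law of the future given the past. -/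
noncomputable def Vf (P : Measure (Om b)) (v : ℝ) : Om b → ℂ :=
  P[fun ω => ee (v * Yv ω) | Pk b 0]

/-- Its mean square. -/
noncomputable def Bf (P : Measure (Om b)) (v : ℝ) : ℝ := ∫ ω, ‖Vf P v ω‖ ^ 2 ∂P

/-- The sequence `γ` has a finite expansion with rational coefficients along `U`. -/
def Rep (U : Ultrafilter ℕ) (b : ℕ) (γ : ℕ → ℝ) : Prop :=
  ∃ (K : ℕ) (r : Fin K → ℚ) (L : Fin K → ℕ → ℕ) (C : ℝ), (∀ k, r k ≠ 0) ∧
    (∀ k, Tendsto (L k) U atTop) ∧
    (∀ i j, i < j → Tendsto (fun n => (b : ℝ) ^ L j n / (b : ℝ) ^ L i n) U (𝓝 0)) ∧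
    (∀ k, ∃ D : ℝ, ∀ᶠ n in U, (b : ℝ) ^ L k n ≤ D * |γ n|) ∧
    ∀ᶠ n in U, |γ n - ∑ k, (r k : ℝ) * (b : ℝ) ^ L k n| ≤ C

end Pool.Agent.Lib.MP_c9a594_an.FS
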