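import Pool.Agent.Lib.MP_c9a594_an.FS.Basic

/-! Functions of finitely many digits. -/

namespace Pool.Agent.Lib.MP_c9a594_an.FS

open MeasureTheory Filter Topology

variable {b : ℕ}

lemma dep_factor {β : Type} {f : Om b → β} {k l : ℤ}
    (h : ∀ ω ω', (∀ j, k ≤ j → j < l → ω j = ω' j) → f ω = f ω') (ω₀ : Om b) :
    ∃ F : (Set.Ico k l → Fin b) → β, f = F ∘ fun ω (j : Set.Ico k l) => ω j := by
  classical
  refine ⟨fun w => f fun j => if hj : j ∈ Set.Ico k l then w ⟨j, hj⟩ else ω₀ j, ?_⟩
  funext ω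
  refine h _ _ fun j h1 h2 => ?_
  have hj : j ∈ Set.Ico k l := ⟨h1, h2⟩
  simp only [dif_pos hj]

/-- A function of finitely many past digits is measurable with respect to the past. -/
lemma measurable_Pk_of_dep {β : Type} [MeasurableSpace β] {f : Om b → β} {k l m : ℤ} (hm : l ≤ m)
    (h : ∀ ω ω', (∀ j, k ≤ j → j < l → ω j = ω' j) → f ω = f ω') : Measurable[Pk b m] f := by
  rcases isEmpty_or_nonempty (Om b) with h0 | ⟨⟨ω₀⟩⟩
  · intro s _
    rw [Set.eq_empty_of_isEmpty (f ⁻¹' s)]
    exact @MeasurableSet.empty _ (Pk b m)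
  obtain ⟨F, rfl⟩ := dep_factor h ω₀
  refine (measurable_of_finite F).comp ?_
  refine @measurable_pi_lambda _ _ _ (Pk b m) _ _ fun j => ?_
  exact measurable_cylinderEvent_apply (X := fun _ : ℤ => Fin b)
    (show (j : ℤ) ∈ Set.Iio m from lt_of_lt_of_le j.2.2 hm)

lemma measurableSet_of_dep {s : Set (Om b)} {k l : ℤ}
    (h : ∀ ω ω', (∀ j, k ≤ j → j < l → ω j = ω' j) → ω ∈ s → ω' ∈ s) : MeasurableSet s := by
  have h1 : Measurable[Pk b l] fun ω => ω ∈ s :=
    measurable_Pk_of_dep (k := k) le_rfl fun ω ω' hh =>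
      propext ⟨h ω ω' hh, h ω' ω fun j h1 h2 => (hh j h1 h2).symm⟩
  exact measurableSet_setOfPred.2 (h1.mono (Pk_le b l) le_rfl)

lemma fib_of_dep {β : Type} {f : Om b → β} {k l : ℤ}
    (h : ∀ ω ω', (∀ j, k ≤ j → j < l → ω j = ω' j) → f ω = f ω') : Fib f := fun c =>
  measurableSet_of_dep (k := k) (l := l) fun ω ω' hh hc => by
    rw [Set.mem_preimage, ← h ω ω' hh]
    exact hc

lemma fib_wd (k : ℤ) (n : ℕ) : Fib (wd k n : Om b → _) :=
  fib_of_dep fun ω ω' h => (wd_eq_iff k n ω ω').2 h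

lemma continuous_of_dep {β : Type} [TopologicalSpace β] {f : Om b → β} {k l : ℤ}
    (h : ∀ ω ω', (∀ j, k ≤ j → j < l → ω j = ω' j) → f ω = f ω') : Continuous f := by
  rcases isEmpty_or_nonempty (Om b) with h0 | ⟨⟨ω₀⟩⟩
  · exact continuous_of_const fun x => h0.elim x
  obtain ⟨F, rfl⟩ := dep_factor h ω₀
  exact continuous_of_discreteTopology.comp (continuous_pi fun j => continuous_apply _)

lemma dep_of_cyl {D : Set ℤ} {g : Om b → ℝ}
    (hg : Measurable[cylinderEvents (X := fun _ : ℤ => Fin b) D] g) (ω ω' : Om b)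
    (h : ∀ j ∈ D, ω j = ω' j) : g ω = g ω' := by
  let m : MeasurableSpace (Om b) :=
    { MeasurableSet' := fun s => ω ∈ s ↔ ω' ∈ s
      measurableSet_empty := Iff.rfl
      measurableSet_compl := fun s hs => not_congr hs
      measurableSet_iUnion := fun s hs => by
        simp only [Set.mem_iUnion]
        exact exists_congr hs }
  have hle : cylinderEvents (X := fun _ : ℤ => Fin b) D ≤ m := by
    refine iSup₂_le fun j hj => ?_
    rintro s ⟨t, -, rfl⟩
    show ω j ∈ t ↔ ω' j ∈ t
    rw [h j hj]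
  have h1 : ω ∈ g ⁻¹' {g ω} ↔ ω' ∈ g ⁻¹' {g ω} := hle _ (hg (measurableSet_singleton _))
  exact (h1.1 rfl).symm

/-- The windows of the past. -/
def win (b : ℕ) : Filtration ℕ (inferInstance : MeasurableSpace (Om b)) where
  seq n := cylinderEvents (X := fun _ : ℤ => Fin b) (Set.Ico (-(n : ℤ)) 0)
  mono' _ _ h := cylinderEvents_mono (Set.Ico_subset_Ico_left (by omega))
  le' _ := cylinderEvents_le_pi

lemma iSup_win : ⨆ n, win b n = Pk b 0 := by
  apply le_antisymm
  · exact iSup_le fun n => cylinderEvents_mono Set.Ico_subset_Iio_self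
  · refine iSup₂_le fun j hj => ?_
    have hj' : j < 0 := hj
    refine le_iSup_of_le (-j).toNat ?_
    exact le_iSup₂_of_le (f := fun (i : ℤ) (_ : i ∈ Set.Ico (-(((-j).toNat : ℕ) : ℤ)) 0) =>
      MeasurableSpace.comap (fun ω : Om b => ω i) inferInstance) j ⟨by omega, hj'⟩ le_rfl

lemma window_real (P : Measure (Om b)) [IsProbabilityMeasure P] {f : Om b → ℝ}
    (hf : StronglyMeasurable[Pk b 0] f) (hi : Integrable f P) :
    Tendsto (fun n => ∫ ω, ‖f ω - (P[f | win b n]) ω‖ ∂P) atTop (𝓝 0) := by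
  have h := hi.tendsto_eLpNorm_condExp (ℱ := win b) (by rw [iSup_win]; exact hf)
  have h2 := (ENNReal.tendsto_toReal ENNReal.zero_ne_top).comp h
  rw [ENNReal.toReal_zero] at h2
  refine h2.congr fun n => ?_
  have hm : AEStronglyMeasurable (P[f | win b n] - f) P := (integrable_condExp.sub hi).1
  rw [Function.comp_apply, eLpNorm_one_eq_lintegral_enorm, ← integral_norm_eq_lintegral_enorm hm]
  refine integral_congr_ae (Eventually.of_forall fun ω => ?_)
  exact norm_sub_rev _ _

/-- Approximation of a function of the past by a function of finitely many digits. -/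
theorem exists_window (P : Measure (Om b)) [IsProbabilityMeasure P] {f : Om b → ℂ}
    (hf : StronglyMeasurable[Pk b 0] f) (hi : Integrable f P) {ε : ℝ} (hε : 0 < ε) :
    ∃ (S : ℕ) (g : Om b → ℂ), (∀ ω ω', (∀ j, -(S : ℤ) ≤ j → j < 0 → ω j = ω' j) → g ω = g ω') ∧
      Integrable g P ∧ ∫ ω, ‖f ω - g ω‖ ∂P ≤ ε := by
  have h1 := window_real P (Complex.continuous_re.comp_stronglyMeasurable hf) hi.re
  have h2 := window_real P (Complex.continuous_im.comp_stronglyMeasurable hf) hi.im
  have h3 := h1.add h2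
  rw [add_zero] at h3
  obtain ⟨S, hS⟩ := (h3.eventually (eventually_le_nhds hε)).exists
  set u := P[fun ω => (f ω).re | win b S] with hu
  set v := P[fun ω => (f ω).im | win b S] with hv
  have iu : Integrable u P := integrable_condExp
  have iv : Integrable v P := integrable_condExp
  have ig : Integrable (fun ω => (u ω : ℂ) + (v ω : ℂ) * Complex.I) P :=
    iu.ofReal.add (iv.ofReal.mul_const _)
  refine ⟨S, fun ω => (u ω : ℂ) + (v ω : ℂ) * Complex.I, fun ω ω' h => ?_, ig, ?_⟩
  · have hD : ∀ j ∈ Set.Ico (-(S : ℤ)) 0, ω j = ω' j := fun j hj => h j hj.1 hj.2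
    have e1 : u ω = u ω' := dep_of_cyl (stronglyMeasurable_condExp (m := win b S)).measurable ω ω' hD
    have e2 : v ω = v ω' := dep_of_cyl (stronglyMeasurable_condExp (m := win b S)).measurable ω ω' hD
    simp only [e1, e2]
  · have j1 : Integrable (fun ω => ‖(f ω).re - u ω‖) P := (hi.re.sub iu).norm
    have j2 : Integrable (fun ω => ‖(f ω).im - v ω‖) P := (hi.im.sub iv).norm
    refine le_trans ?_ hS
    rw [← integral_add j1 j2]
    refine integral_mono (hi.sub ig).norm (j1.add j2) fun ω => ?_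
    refine (Complex.norm_le_abs_re_add_abs_im _).trans (le_of_eq ?_)
    simp

lemma inv_of_one {P : Measure (Om b)} (h : MeasurePreserving (sh 1) P P) : Inv P := by
  have hm : MeasurePreserving (sh (-1)) P P := by
    refine ⟨measurable_sh _, ?_⟩
    conv_lhs => rw [← h.map_eq]
    rw [Measure.map_map (measurable_sh _) (measurable_sh _)]
    have e : (sh (-1) ∘ sh 1 : Om b → Om b) = id := by
      funext ω
      rw [Function.comp_apply, sh_sh, neg_add_cancel, sh_zero, id]
    rw [e, Measure.map_id]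
  intro k
  induction k using Int.induction_on with
  | zero =>
    have e : (sh 0 : Om b → Om b) = id := funext sh_zero
    rw [e]
    exact MeasurePreserving.id P
  | succ i ih =>
    have e : (sh ((i : ℤ) + 1) : Om b → Om b) = sh i ∘ sh 1 := funext fun ω => (sh_sh _ _ ω).symm
    rw [e]
    exact ih.comp h
  | pred i ih =>
    have e : (sh (-(i : ℤ) - 1) : Om b → Om b) = sh (-i) ∘ sh (-1) :=
      funext fun ω => by rw [Function.comp_apply, sh_sh, sub_eq_add_neg]
    rw [e]
    exact ih.comp hm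

end Pool.Agent.Lib.MP_c9a594_an.FS
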