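import Pool.Agent.Lib.MP_c9a594_an.FS.Lim

/-! Digit expansions and the natural extension. -/

namespace Pool.Agent.Lib.MP_c9a594_an.FS

open MeasureTheory Filter Topology

variable {b : ℕ}

/-- The first digit of the fractional part. -/
noncomputable def dig_d (hb : 2 ≤ b) (x : ℝ) : Fin b :=
  ⟨⌊(b : ℝ) * Int.fract x⌋₊ % b, Nat.mod_lt _ (by omega)⟩

lemma dig_d_val (hb : 2 ≤ b) (x : ℝ) :
    ((dig_d hb x : ℕ) : ℤ) = ⌊(b : ℝ) * Int.fract x⌋ := by
  have hb0 : (0 : ℝ) < b := by exact_mod_cast (by omega : 0 < b)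
  have h0 : 0 ≤ (b : ℝ) * Int.fract x := mul_nonneg hb0.le (Int.fract_nonneg x)
  have h1 : (b : ℝ) * Int.fract x < b := by
    have := Int.fract_lt_one x
    nlinarith
  have h2 : ⌊(b : ℝ) * Int.fract x⌋₊ < b := (Nat.floor_lt h0).2 h1
  simp only [dig_d, Nat.mod_eq_of_lt h2]
  exact Int.natCast_floor_eq_floor h0

lemma dig_d_add (hb : 2 ≤ b) (x : ℝ) (m : ℤ) : dig_d hb (x + m) = dig_d hb x := by
  simp only [dig_d, Int.fract_add_intCast]

lemma dig_d_meas (hb : 2 ≤ b) : Measurable (dig_d hb) := by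
  have h1 : Measurable fun n : ℕ => (⟨n % b, Nat.mod_lt _ (by omega)⟩ : Fin b) :=
    measurable_from_top
  have h2 : Measurable fun x : ℝ => ⌊(b : ℝ) * Int.fract x⌋₊ :=
    (measurable_const.mul measurable_fract).nat_floor
  exact h1.comp h2

lemma dig_fract_mul (n : ℕ) (x : ℝ) :
    Int.fract ((b : ℝ) ^ n * Int.fract x) = Int.fract ((b : ℝ) ^ n * x) := by
  have : (b : ℝ) ^ n * x = (b : ℝ) ^ n * Int.fract x + (((b : ℤ) ^ n * ⌊x⌋ : ℤ) : ℝ) := by
    push_cast
    rw [← mul_add, Int.fract_add_floor]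
  rw [this, Int.fract_add_intCast]

theorem exists_dig (hb : 2 ≤ b) : ∃ π : ℝ → Om b, Measurable π ∧
    (∀ (x : ℝ) (k : ℕ), Yv (sh k (π x)) = Int.fract ((b : ℝ) ^ k * x)) ∧
    (∀ (x : ℝ) (k j : ℕ), sh k (π x) j = π ((b : ℝ) ^ k * x) j) ∧
    (∀ (x : ℝ) (m : ℤ), π (x + m) = π x) ∧
    ∀ (x : ℝ) (n : ℕ), (Xw n (π x) : ℤ) = ⌊(b : ℝ) ^ n * Int.fract x⌋ := by
  set π : ℝ → Om b := fun x j => dig_d hb ((b : ℝ) ^ j.toNat * x) with hπ
  have h3 : ∀ (x : ℝ) (k j : ℕ), sh k (π x) j = π ((b : ℝ) ^ k * x) j := by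
    intro x k j
    have : ((j : ℤ) + (k : ℤ)).toNat = j + k := by omega
    simp only [sh, hπ, this, Int.toNat_natCast, pow_add, mul_assoc]
  have h5 : ∀ (x : ℝ) (n : ℕ), (Xw n (π x) : ℤ) = ⌊(b : ℝ) ^ n * Int.fract x⌋ := by
    intro x n
    induction n with
    | zero => simp [Xw]
    | succ n ih =>
      have e1 : (b : ℝ) ^ (n + 1) * Int.fract x =
          (b : ℝ) * Int.fract ((b : ℝ) ^ n * x) +
            (((b : ℤ) * ⌊(b : ℝ) ^ n * Int.fract x⌋ : ℤ) : ℝ) := by
        push_cast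
        rw [← dig_fract_mul, ← mul_add, Int.fract_add_floor]
        ring
      rw [e1, Int.floor_add_intCast, ← ih, ← dig_d_val hb]
      simp only [Xw, hπ, Int.toNat_natCast]
      push_cast
      ring
  have h2 : ∀ x : ℝ, Yv (π x) = Int.fract x := by
    intro x
    have hb1 : (1 : ℝ) < b := by exact_mod_cast (by omega : 1 < b)
    by_contra hne
    have hpos : 0 < |Yv (π x) - Int.fract x| := abs_pos.2 (sub_ne_zero.2 hne)
    obtain ⟨n, hn⟩ := ((tendsto_pow_atTop_atTop_of_one_lt hb1).eventually_gt_atTop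
      (1 / |Yv (π x) - Int.fract x|)).exists
    have e1 := Yv_pow hb n (π x)
    have e2 : ((Xw n (π x) : ℕ) : ℝ) = (⌊(b : ℝ) ^ n * Int.fract x⌋ : ℝ) := by
      exact_mod_cast congrArg (Int.cast : ℤ → ℝ) (h5 x n)
    have e3 := Yv_nonneg (sh n (π x))
    have e4 := Yv_le_one hb (sh n (π x))
    have e5 := Int.floor_le ((b : ℝ) ^ n * Int.fract x)
    have e6 := Int.lt_floor_add_one ((b : ℝ) ^ n * Int.fract x)
    have e7 : |(b : ℝ) ^ n * (Yv (π x) - Int.fract x)| ≤ 1 := by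
      rw [abs_le]
      constructor <;> nlinarith
    rw [abs_mul, abs_of_pos (by positivity : (0 : ℝ) < (b : ℝ) ^ n)] at e7
    rw [div_lt_iff₀ hpos] at hn
    linarith
  refine ⟨π, ?_, ?_, h3, ?_, h5⟩
  · exact measurable_pi_lambda _ fun j => (dig_d_meas hb).comp (measurable_const.mul measurable_id)
  · intro x k
    rw [← h2]
    exact Yv_congr fun j => h3 x k j
  · intro x m
    funext j
    have : (b : ℝ) ^ j.toNat * (x + m) =
        (b : ℝ) ^ j.toNat * x + (((b : ℤ) ^ j.toNat * m : ℤ) : ℝ) := by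
      push_cast
      ring
    simp only [hπ, this, dig_d_add]

lemma dig_rep : ∃ r : UnitAddCircle → ℝ, Measurable r ∧ ∀ z, ((r z : ℝ) : UnitAddCircle) = z := by
  refine ⟨fun z => (AddCircle.measurableEquivIco 1 0 z : ℝ),
    measurable_subtype_coe.comp (AddCircle.measurableEquivIco 1 0).measurable, fun z => ?_⟩
  exact (AddCircle.equivIco 1 0).symm_apply_apply z

lemma dig_coe_eq {x y : ℝ} (h : (x : UnitAddCircle) = y) : ∃ m : ℤ, x = y + m := by
  have : ((x - y : ℝ) : UnitAddCircle) = 0 := by rw [AddCircle.coe_sub, h, sub_self]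
  obtain ⟨m, hm⟩ := AddCircle.coe_eq_zero_iff (1 : ℝ) |>.1 this
  refine ⟨m, ?_⟩
  simp only [zsmul_eq_mul, mul_one] at hm
  linarith

theorem exists_ext (hb : 2 ≤ b) (μ : Measure UnitAddCircle) [IsProbabilityMeasure μ]
    (hμ : MeasurePreserving (fun x => b • x) μ μ) :
    ∃ P : Measure (Om b), IsProbabilityMeasure P ∧ Inv P ∧
      P.map (fun ω => ((Yv ω : ℝ) : UnitAddCircle)) = μ ∧
      ∀ n : ℕ, ∑ k ∈ Finset.range (b ^ n), Real.negMulLog (μ.real (((↑) : ℝ → UnitAddCircle) ''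
        Set.Ico ((k : ℝ) / (b : ℝ) ^ n) ((k + 1 : ℝ) / (b : ℝ) ^ n))) ≤ Hn P n := by
  obtain ⟨π, hm, h2, h3, h4, h5⟩ := exists_dig hb
  obtain ⟨r, hr, hrz⟩ := dig_rep
  have hb0 : (0 : ℝ) < b := by exact_mod_cast (by omega : 0 < b)
  have hψ : Measurable fun z => π (r z) := hm.comp hr
  have : IsProbabilityMeasure (μ.map fun z => π (r z)) :=
    Measure.isProbabilityMeasure_map hψ.aemeasurable
  have hU : ((hyperfilter ℕ : Ultrafilter ℕ) : Filter ℕ) ≤ atTop := by
    rw [← Nat.cofinite_eq_atTop]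
    exact hyperfilter_le_cofinite
  obtain ⟨P, hP, hI, hlim⟩ := exists_limit (fun _ => μ.map fun z => π (r z)) (hyperfilter ℕ) hU
  have hit : ∀ j : ℕ, MeasurePreserving (fun x : UnitAddCircle => b ^ j • x) μ μ := by
    intro j
    induction j with
    | zero =>
      simp only [pow_zero, one_smul]
      exact MeasurePreserving.id μ
    | succ j ih =>
      have := hμ.comp ih
      convert this using 1
      funext x
      simp only [Function.comp, pow_succ', mul_smul]
  have key : ∀ f : Om b → ℝ, Continuous f →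
      (∀ ω ω' : Om b, (∀ j : ℕ, ω j = ω' j) → f ω = f ω') →
      ∫ ω, f ω ∂P = ∫ z, f (π (r z)) ∂μ := by
    intro f hf hdep
    have e : ∀ j : ℕ, ∫ ω, f (sh j ω) ∂(μ.map fun z => π (r z)) = ∫ z, f (π (r z)) ∂μ := by
      intro j
      rw [integral_map hψ.aemeasurable (f := fun ω => f (sh j ω))
        (hf.comp (continuous_sh j)).measurable.aestronglyMeasurable]
      have e1 : ∀ z, f (sh j (π (r z))) = f (π (r (b ^ j • z))) := by
        intro z
        refine hdep _ _ fun i => ?_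
        rw [h3]
        have : (((b : ℝ) ^ j * r z : ℝ) : UnitAddCircle) = (r (b ^ j • z) : ℝ) := by
          rw [hrz]
          conv_rhs => rw [← hrz z]
          rw [← AddCircle.coe_nsmul]
          simp
        obtain ⟨m, hm'⟩ := dig_coe_eq this
        rw [hm', h4]
      simp only [e1]
      have e2 := integral_map (μ := μ) (hit j).measurable.aemeasurable
        (f := fun z => f (π (r z))) (hf.measurable.comp hψ).aestronglyMeasurable
      rw [(hit j).map_eq] at e2
      exact e2.symm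
    have t1 := hlim f hf
    have t2 : Tendsto (fun N : ℕ => (∑ j ∈ Finset.range N,
        ∫ ω, f (sh j ω) ∂(μ.map fun z => π (r z))) / N) (hyperfilter ℕ)
        (𝓝 (∫ z, f (π (r z)) ∂μ)) := by
      refine tendsto_const_nhds.congr' ?_
      filter_upwards [hU (eventually_gt_atTop 0)] with N hN
      have : (N : ℝ) ≠ 0 := by positivity
      simp only [e, Finset.sum_const, Finset.card_range, nsmul_eq_mul]
      field_simp
    exact tendsto_nhds_unique t1 t2
  have hc : Continuous fun ω : Om b => ((Yv ω : ℝ) : UnitAddCircle) :=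
    (AddCircle.continuous_mk' 1).comp (continuous_Yv hb)
  refine ⟨P, hP, hI, ?_, fun n => ?_⟩
  · refine ext_of_forall_integral_eq_of_IsFiniteMeasure fun g => ?_
    rw [integral_map hc.measurable.aemeasurable g.continuous.measurable.aestronglyMeasurable,
      key (fun ω => g ((Yv ω : ℝ) : UnitAddCircle)) (g.continuous.comp hc)
        fun ω ω' h => by rw [Yv_congr h]]
    refine integral_congr_ae (Eventually.of_forall fun z => ?_)
    have := h2 (r z) 0
    simp only [Nat.cast_zero, sh_zero, pow_zero, one_mul] at this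
    simp only [this, AddCircle.coe_fract, hrz]
  · set K : Om b → Fin (b ^ n) := fun ω => ⟨Xw n ω, Xw_lt n ω⟩ with hK
    have hKd : ∀ ω ω' : Om b, (∀ j : ℤ, 0 ≤ j → j < 0 + n → ω j = ω' j) → K ω = K ω' := by
      intro ω ω' h
      refine Fin.ext ((Xw_eq_iff n ω ω').2 fun j hj => h j (by omega) (by omega))
    have hle : ent P K ≤ Hn P n :=
      ent_le_of_det (fib_wd 0 n) fun ω ω' h => hKd ω ω' ((wd_eq_iff 0 n ω ω').1 h)
    refine le_trans (le_of_eq ?_) hle
    rw [ent, Finset.sum_range]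
    refine Finset.sum_congr rfl fun c _ => ?_
    congr 1
    have hs : MeasurableSet (K ⁻¹' {c}) := fib_of_dep hKd c
    have hf : Continuous ((K ⁻¹' {c}).indicator fun _ => (1 : ℝ)) := by
      refine continuous_of_dep (k := 0) (l := 0 + n) fun ω ω' h => ?_
      simp only [Set.indicator, Set.mem_preimage, hKd ω ω' h]
    have e := key _ hf fun ω ω' h => by
      have : K ω = K ω' := hKd ω ω' fun j hj _ => by
        have := h j.toNat
        rwa [Int.toNat_of_nonneg hj] at this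
      simp only [Set.indicator, Set.mem_preimage, this]
    have e' : (fun z => (K ⁻¹' {c}).indicator (fun _ => (1 : ℝ)) (π (r z))) =
        ((fun z => π (r z)) ⁻¹' (K ⁻¹' {c})).indicator fun _ => (1 : ℝ) := rfl
    rw [e', integral_indicator_const _ hs, integral_indicator_const _ (hψ hs)] at e
    simp only [smul_eq_mul, mul_one] at e
    rw [e]
    congr 1
    ext z
    have hpow : (0 : ℝ) < (b : ℝ) ^ n := by positivity
    have hiff : K (π (r z)) = c ↔ Int.fract (r z) ∈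
        Set.Ico (((c : ℕ) : ℝ) / (b : ℝ) ^ n) ((((c : ℕ) : ℝ) + 1) / (b : ℝ) ^ n) := by
      rw [Fin.ext_iff, ← Int.natCast_inj, Set.mem_Ico, div_le_iff₀' hpow, lt_div_iff₀' hpow]
      simp only [hK]
      rw [h5, Int.floor_eq_iff]
      simp
    simp only [Set.mem_preimage, Set.mem_singleton_iff, hiff, Set.mem_image]
    constructor
    · rintro ⟨y, hy, hyz⟩
      obtain ⟨m, hm'⟩ := dig_coe_eq ((hrz z).trans hyz.symm)
      have hc1 : ((c : ℕ) : ℝ) + 1 ≤ (b : ℝ) ^ n := by exact_mod_cast c.2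
      have hy0 : 0 ≤ y := le_trans (by positivity) hy.1
      have hy1 : y < 1 := lt_of_lt_of_le hy.2 ((div_le_one hpow).2 hc1)
      rwa [hm', Int.fract_add_intCast, Int.fract_eq_self.2 ⟨hy0, hy1⟩]
    · intro h
      exact ⟨_, h, by rw [AddCircle.coe_fract, hrz]⟩

theorem many_of_dimH (hb : 2 ≤ b) {Y : Set ℝ} (hY : Y ⊆ Set.Ico 0 1) (h : 0 < dimH (closure Y)) :
    ∃ c : ℝ, 0 < c ∧ ∃ᶠ N : ℕ in atTop,
      Real.exp (c * N) ≤ ((fun y => ⌊(b : ℝ) ^ N * y⌋) '' Y).ncard := by
  obtain ⟨d, hd0, hd⟩ := ENNReal.lt_iff_exists_nnreal_btwn.1 h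
  have hd0' : (0 : ℝ) < d := by exact_mod_cast hd0
  have hb1 : (1 : ℝ) < b := by exact_mod_cast (by omega : 1 < b)
  have hb0 : (0 : ℝ) < b := by linarith
  refine ⟨d * Real.log b, mul_pos hd0' (Real.log_pos hb1), ?_⟩
  by_contra hcon
  rw [not_frequently] at hcon
  have hfin : ∀ N : ℕ, ((fun y => ⌊(b : ℝ) ^ N * y⌋) '' Y).Finite := by
    intro N
    refine (Set.finite_Icc (0 : ℤ) ⌊(b : ℝ) ^ N⌋).subset ?_
    rintro _ ⟨y, hy, rfl⟩
    have hpow : (0 : ℝ) < (b : ℝ) ^ N := by positivity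
    refine ⟨Int.floor_nonneg.2 (mul_nonneg hpow.le (hY hy).1), Int.floor_le_floor ?_⟩
    have := (hY hy).2
    nlinarith
  have hmain := Measure.hausdorffMeasure_le_liminf_sum (ι := fun N : ℕ => (hfin N).toFinset)
    (d : ℝ) (closure Y) (l := atTop) (fun N : ℕ => ENNReal.ofReal (((b : ℝ) ^ N)⁻¹)) ?_
    (fun N i => Set.Icc (((i : ℤ) : ℝ) / (b : ℝ) ^ N) ((((i : ℤ) : ℝ) + 1) / (b : ℝ) ^ N)) ?_ ?_
  · refine absurd (dimH_le_of_hausdorffMeasure_ne_top (d := d) ?_) (not_le.2 hd)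
    refine ne_top_of_le_ne_top ENNReal.one_ne_top (hmain.trans ?_)
    refine liminf_le_of_frequently_le' (Eventually.frequently ?_)
    filter_upwards [hcon] with N hN
    have hpow : (0 : ℝ) < (b : ℝ) ^ N := by positivity
    have e : ∀ i : ℤ, ((i : ℝ) + 1) / (b : ℝ) ^ N - (i : ℝ) / (b : ℝ) ^ N = ((b : ℝ) ^ N)⁻¹ := by
      intro i
      field_simp
      ring
    simp only [Real.ediam_Icc, e, Finset.sum_const, Finset.card_univ, Fintype.card_coe,
      nsmul_eq_mul]
    rw [← Set.ncard_eq_toFinset_card _ (hfin N), ENNReal.ofReal_rpow_of_pos (by positivity),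
      ← ENNReal.ofReal_natCast, ← ENNReal.ofReal_mul (by positivity), ENNReal.ofReal_le_one]
    have e2 : (((b : ℝ) ^ N)⁻¹) ^ (d : ℝ) = (Real.exp (d * Real.log b * N))⁻¹ := by
      rw [Real.rpow_def_of_pos (by positivity), Real.log_inv, Real.log_pow, ← Real.exp_neg]
      congr 1
      ring
    rw [e2, ← div_eq_mul_inv, div_le_one (Real.exp_pos _)]
    exact (not_le.1 hN).le
  · have := ENNReal.tendsto_ofReal
      (tendsto_inv_atTop_zero.comp (tendsto_pow_atTop_atTop_of_one_lt hb1))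
    simpa using this
  · refine Eventually.of_forall fun N i => ?_
    have hpow : (0 : ℝ) < (b : ℝ) ^ N := by positivity
    rw [Real.ediam_Icc]
    refine le_of_eq (congrArg _ ?_)
    field_simp
    ring
  · refine Eventually.of_forall fun N => ?_
    have hpow : (0 : ℝ) < (b : ℝ) ^ N := by positivity
    refine closure_minimal (fun y hy => ?_) (isClosed_iUnion_of_finite fun i => isClosed_Icc)
    refine Set.mem_iUnion.2 ⟨⟨⌊(b : ℝ) ^ N * y⌋, (hfin N).mem_toFinset.2 ⟨y, hy, rfl⟩⟩, ?_, ?_⟩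
    · rw [div_le_iff₀' hpow]
      exact Int.floor_le _
    · rw [le_div_iff₀' hpow]
      exact (Int.lt_floor_add_one _).le

end Pool.Agent.Lib.MP_c9a594_an.FS
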