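import Pool.Agent.Lib.MP_c9a594_an.FS.Defs

/-! Shannon entropy of finite valued observables. -/

namespace Pool.Agent.Lib.MP_c9a594_an.FS

open MeasureTheory Filter Topology

variable {X : Type} [MeasurableSpace X] {T : X → X} {μ : Measure X}
  {β β' : Type} [Fintype β] [Fintype β'] {f : X → β} {g : X → β'}

omit [Fintype β] [Fintype β'] in
theorem Fib.prod (hf : Fib f) (hg : Fib g) : Fib fun x => (f x, g x) := by
  rintro ⟨a, b⟩
  have : (fun x => (f x, g x)) ⁻¹' {(a, b)} = f ⁻¹' {a} ∩ g ⁻¹' {b} := by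
    ext x; simp
  rw [this]
  exact (hf a).inter (hg b)

omit [Fintype β] in
theorem Fib.pi {ι : Type} [Fintype ι] {F : ι → X → β} (hF : ∀ i, Fib (F i)) :
    Fib fun x i => F i x := by
  intro w
  have : (fun x i => F i x) ⁻¹' {w} = ⋂ i, F i ⁻¹' {w i} := by
    ext x; simp [funext_iff]
  rw [this]
  exact MeasurableSet.iInter fun i => hF i _

theorem ent_nonneg [IsProbabilityMeasure μ] (f : X → β) : 0 ≤ ent μ f :=
  Finset.sum_nonneg fun _ _ => Real.negMulLog_nonneg measureReal_nonneg measureReal_le_one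

theorem ent_comp (hT : MeasurePreserving T μ μ) (hf : Fib f) : ent μ (f ∘ T) = ent μ f := by
  refine Finset.sum_congr rfl fun b _ => ?_
  rw [Set.preimage_comp, hT.measureReal_preimage (hf b).nullMeasurableSet]

theorem ent_negMulLog_sum {ι : Type} (s : Finset ι) (a : ι → ℝ) (ha : ∀ i, 0 ≤ a i) :
    Real.negMulLog (∑ i ∈ s, a i) ≤ ∑ i ∈ s, Real.negMulLog (a i) := by
  unfold Real.negMulLog
  rw [← Finset.sum_neg_distrib, Finset.sum_mul]
  refine Finset.sum_le_sum fun i hi => ?_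
  rcases (ha i).eq_or_lt with h | h
  · simp [← h]
  · have := Real.log_le_log h (Finset.single_le_sum (fun i _ => ha i) hi)
    nlinarith

theorem ent_gibbs {p q : ℝ} (hp : 0 ≤ p) (hq : 0 ≤ q) (h : p ≠ 0 → 0 < q) :
    Real.negMulLog p ≤ -(p * Real.log q) + (q - p) := by
  rcases hp.eq_or_lt with h0 | h0
  · simp [← h0, hq]
  · have h1 := h h0.ne'
    have h2 := Real.log_le_sub_one_of_pos (div_pos h1 h0)
    rw [Real.log_div h1.ne' h0.ne'] at h2
    have h3 := mul_le_mul_of_nonneg_left h2 hp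
    have h4 : p * (q / p - 1) = q - p := by field_simp
    unfold Real.negMulLog
    linarith

omit [Fintype β] in
theorem ent_sum_fib [IsFiniteMeasure μ] (hg : Fib g) (A : Set X) :
    ∑ b, μ.real (A ∩ g ⁻¹' {b}) = μ.real A := by
  have h := sum_measureReal_preimage_singleton (μ := μ.restrict A) (f := g) Finset.univ
    (fun b _ => hg b)
  simp only [Finset.coe_univ, Set.preimage_univ, measureReal_restrict_apply_univ] at h
  rw [← h]
  refine Finset.sum_congr rfl fun b _ => ?_
  rw [measureReal_restrict_apply (hg b), Set.inter_comm]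

omit [MeasurableSpace X] [Fintype β] [Fintype β'] in
theorem ent_pre_prod (a : β) (b : β') :
    (fun x => (f x, g x)) ⁻¹' {(a, b)} = f ⁻¹' {a} ∩ g ⁻¹' {b} := by
  ext x; simp

theorem ent_sum_one [IsProbabilityMeasure μ] (hf : Fib f) : ∑ b, μ.real (f ⁻¹' {b}) = 1 := by
  simpa using ent_sum_fib (μ := μ) hf Set.univ

theorem ent_le_of_det [IsProbabilityMeasure μ] (hf : Fib f)
    (h : ∀ x y, f x = f y → g x = g y) : ent μ g ≤ ent μ f := by
  classical
  have h1 : ent μ g ≤ ∑ b, ∑ a, Real.negMulLog (μ.real (g ⁻¹' {b} ∩ f ⁻¹' {a})) := by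
    refine Finset.sum_le_sum fun b _ => ?_
    rw [← ent_sum_fib hf (g ⁻¹' {b})]
    exact ent_negMulLog_sum _ _ fun _ => measureReal_nonneg
  refine h1.trans (le_of_eq ?_)
  rw [Finset.sum_comm]
  refine Finset.sum_congr rfl fun a _ => ?_
  rcases (f ⁻¹' {a}).eq_empty_or_nonempty with h0 | ⟨x, hx⟩
  · simp [h0]
  · rw [Finset.sum_eq_single (g x)]
    · congr 2
      exact Set.inter_eq_right.2 fun y hy => h y x (hy.trans hx.symm)
    · intro b _ hb
      have : g ⁻¹' {b} ∩ f ⁻¹' {a} = ∅ := by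
        refine Set.eq_empty_of_forall_notMem fun y hy => hb ?_
        exact (show g y = b from hy.1).symm.trans (h y x (hy.2.trans hx.symm))
      simp [this]
    · simp

theorem ent_prod_le [IsProbabilityMeasure μ] (hf : Fib f) (hg : Fib g) :
    ent μ (fun x => (f x, g x)) ≤ ent μ f + ent μ g := by
  have key : ∀ a b, Real.negMulLog (μ.real (f ⁻¹' {a} ∩ g ⁻¹' {b})) ≤
      -(μ.real (f ⁻¹' {a} ∩ g ⁻¹' {b}) * Real.log (μ.real (f ⁻¹' {a}))) -
        μ.real (g ⁻¹' {b} ∩ f ⁻¹' {a}) * Real.log (μ.real (g ⁻¹' {b})) +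
        (μ.real (f ⁻¹' {a}) * μ.real (g ⁻¹' {b}) - μ.real (f ⁻¹' {a} ∩ g ⁻¹' {b})) := by
    intro a b
    rw [Set.inter_comm (g ⁻¹' {b})]
    by_cases h0 : μ.real (f ⁻¹' {a} ∩ g ⁻¹' {b}) = 0
    · rw [h0]; simp; positivity
    · have hp : 0 < μ.real (f ⁻¹' {a} ∩ g ⁻¹' {b}) := lt_of_le_of_ne measureReal_nonneg (Ne.symm h0)
      have h1 : 0 < μ.real (f ⁻¹' {a}) := hp.trans_le (measureReal_mono Set.inter_subset_left)
      have h2 : 0 < μ.real (g ⁻¹' {b}) := hp.trans_le (measureReal_mono Set.inter_subset_right)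
      have := ent_gibbs hp.le (mul_pos h1 h2).le fun _ => mul_pos h1 h2
      rw [Real.log_mul h1.ne' h2.ne'] at this
      linarith
  unfold ent
  rw [Fintype.sum_prod_type]
  simp only [ent_pre_prod]
  refine (Finset.sum_le_sum fun a _ => Finset.sum_le_sum fun b _ => key a b).trans (le_of_eq ?_)
  simp only [Finset.sum_add_distrib, Finset.sum_sub_distrib, Finset.sum_neg_distrib]
  rw [Finset.sum_comm (f := fun a b => μ.real (g ⁻¹' {b} ∩ f ⁻¹' {a}) * Real.log (μ.real (g ⁻¹' {b})))]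
  simp only [← Finset.sum_mul, ← Finset.mul_sum, ent_sum_fib hf, ent_sum_fib hg, ent_sum_one hf,
    ent_sum_one hg, Real.negMulLog, neg_mul, Finset.sum_neg_distrib]
  ring

theorem ent_pi_le [IsProbabilityMeasure μ] {n : ℕ} {F : Fin n → X → β} (hF : ∀ i, Fib (F i)) :
    ent μ (fun x i => F i x) ≤ ∑ i, ent μ (F i) := by
  induction n with
  | zero =>
    have : ∀ w : Fin 0 → β, (fun x i => F i x) ⁻¹' {w} = Set.univ := fun w =>
      Set.eq_univ_of_forall fun x => Subsingleton.elim _ _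
    simp [ent, this]
  | succ n ih =>
    rw [Fin.sum_univ_succ]
    have h1 : Fib fun x (i : Fin n) => F i.succ x := Fib.pi fun i => hF i.succ
    refine (ent_le_of_det ((hF 0).prod h1) fun x y h => ?_).trans
      ((ent_prod_le (hF 0) h1).trans (add_le_add le_rfl (ih fun i => hF i.succ)))
    obtain ⟨h2, h3⟩ := Prod.mk.inj h
    funext i
    refine Fin.cases h2 (fun j => congrFun h3 j) i

theorem ent_le_log_card [IsProbabilityMeasure μ] (hf : Fib f) :
    ent μ f ≤ Real.log (Fintype.card β) := by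
  have h1 := ent_sum_one (μ := μ) hf
  have hc : (0 : ℝ) < Fintype.card β := by
    rcases isEmpty_or_nonempty β with h | h
    · simp at h1
    · exact Nat.cast_pos.2 Fintype.card_pos
  have h2 := Finset.sum_le_sum (s := Finset.univ) fun b _ =>
    ent_gibbs (p := μ.real (f ⁻¹' {b})) measureReal_nonneg (inv_pos.2 hc).le fun _ => inv_pos.2 hc
  simp only [Finset.sum_add_distrib, Finset.sum_sub_distrib, Finset.sum_neg_distrib,
    ← Finset.sum_mul, h1, Finset.sum_const, nsmul_eq_mul, Finset.card_univ, Real.log_inv,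
    mul_inv_cancel₀ hc.ne'] at h2
  unfold ent
  linarith

/-- An observable that is mostly constant has small entropy. -/
theorem ent_le_of_small [IsProbabilityMeasure μ] (hf : Fib f) (c : β) {ε t : ℝ} (ht : 0 < t)
    (ht1 : t ≤ 1) (h : μ.real {x | f x ≠ c} ≤ ε) :
    ent μ f ≤ ε * (Real.log (Fintype.card β / t) + 1) + t := by
  classical
  have hc1 : (1 : ℝ) ≤ Fintype.card β := by
    have : Nonempty β := ⟨c⟩
    exact_mod_cast Fintype.card_pos
  have hc : (0 : ℝ) < Fintype.card β := by linarith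
  have h1 := ent_sum_one (μ := μ) hf
  rw [← Finset.add_sum_erase _ _ (Finset.mem_univ c)] at h1
  have h2 : μ.real {x | f x ≠ c} = 1 - μ.real (f ⁻¹' {c}) := probReal_compl_eq_one_sub (hf c)
  have hq : 0 < t / Fintype.card β := div_pos ht hc
  have h3 := Finset.sum_le_sum (s := Finset.univ.erase c) fun b _ =>
    ent_gibbs (p := μ.real (f ⁻¹' {b})) measureReal_nonneg hq.le fun _ => hq
  have h4 := ent_gibbs (p := μ.real (f ⁻¹' {c})) measureReal_nonneg zero_le_one fun _ => one_pos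
  simp only [Finset.sum_add_distrib, Finset.sum_sub_distrib, Finset.sum_neg_distrib,
    ← Finset.sum_mul, Finset.sum_const, nsmul_eq_mul] at h3
  have h5 : ((Finset.univ.erase c).card : ℝ) * (t / Fintype.card β) ≤ t := by
    rw [mul_div_assoc', div_le_iff₀ hc, mul_comm]
    refine mul_le_mul_of_nonneg_left ?_ ht.le
    exact_mod_cast Finset.card_le_univ _
  have h6 : Real.log (t / Fintype.card β) = -Real.log (Fintype.card β / t) := by
    rw [← Real.log_inv, inv_div]
  have h7 : 0 ≤ Real.log (Fintype.card β / t) :=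
    Real.log_nonneg ((one_le_div ht).2 (ht1.trans hc1))
  have h8 : ∑ b ∈ Finset.univ.erase c, μ.real (f ⁻¹' {b}) = μ.real {x | f x ≠ c} := by linarith
  have h9 : (0 : ℝ) ≤ μ.real {x | f x ≠ c} := measureReal_nonneg
  rw [h6, h8] at h3
  unfold ent
  rw [← Finset.add_sum_erase _ _ (Finset.mem_univ c)]
  simp only [Real.log_one, mul_zero, neg_zero, zero_add] at h4
  nlinarith [mul_le_mul_of_nonneg_right h h7]

/-- Small conditional entropy makes an observable predictable. -/
theorem exists_guess [IsProbabilityMeasure μ] [Nonempty β'] (hf : Fib f) (hg : Fib g) :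
    ∃ G : β → β', μ.real {x | g x ≠ G (f x)} ≤ ent μ (fun x => (f x, g x)) - ent μ f := by
  classical
  choose G _ hG using fun a : β => Finset.exists_max_image (Finset.univ : Finset β')
    (fun b => μ.real (f ⁻¹' {a} ∩ g ⁻¹' {b})) Finset.univ_nonempty
  refine ⟨G, ?_⟩
  rw [← ent_sum_fib (μ := μ) hf {x | g x ≠ G (f x)}]
  unfold ent
  rw [Fintype.sum_prod_type, ← Finset.sum_sub_distrib]
  refine Finset.sum_le_sum fun a _ => ?_
  simp only [ent_pre_prod]
  have e : {x | g x ≠ G (f x)} ∩ f ⁻¹' {a} = f ⁻¹' {a} \ g ⁻¹' {G a} := by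
    ext x
    simp only [Set.mem_inter_iff, Set.mem_ofPred_eq, Set.mem_preimage, Set.mem_singleton_iff,
      Set.mem_sdiff]
    constructor
    · rintro ⟨h1, h2⟩; exact ⟨h2, h2 ▸ h1⟩
    · rintro ⟨h1, h2⟩; exact ⟨h1 ▸ h2, h1⟩
  have h1 := measureReal_inter_add_sdiff (μ := μ) (s := f ⁻¹' {a}) (hg (G a))
  have h2 := ent_sum_fib (μ := μ) hg (f ⁻¹' {a})
  rw [e]
  set M := μ.real (f ⁻¹' {a} ∩ g ⁻¹' {G a}) with hM
  set m := μ.real (f ⁻¹' {a}) with hm
  have h3 : ∀ b, -(μ.real (f ⁻¹' {a} ∩ g ⁻¹' {b}) * Real.log M) ≤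
      Real.negMulLog (μ.real (f ⁻¹' {a} ∩ g ⁻¹' {b})) := by
    intro b
    have h0 : (0 : ℝ) ≤ μ.real (f ⁻¹' {a} ∩ g ⁻¹' {b}) := measureReal_nonneg
    unfold Real.negMulLog
    rcases h0.eq_or_lt with h | h
    · simp [← h]
    · have := Real.log_le_log h (hG a b (Finset.mem_univ b))
      nlinarith
  have h4 := Finset.sum_le_sum (s := Finset.univ) fun b _ => h3 b
  simp only [Finset.sum_neg_distrib, ← Finset.sum_mul, h2] at h4
  have h5 := ent_gibbs (p := m) (q := M) measureReal_nonneg measureReal_nonneg fun h => by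
    by_contra h6
    refine h ?_
    rw [← h2]
    exact Finset.sum_eq_zero fun b _ =>
      le_antisymm ((hG a b (Finset.mem_univ b)).trans (not_lt.1 h6)) measureReal_nonneg
  linarith

end Pool.Agent.Lib.MP_c9a594_an.FS
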