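import Pool.Agent.Lib.MP_c9a594_an.FS.Dep
import Pool.Agent.Lib.MP_c9a594_an.FS.Ent

/-! Entropy of shift invariant measures and predictability. -/

namespace Pool.Agent.Lib.MP_c9a594_an.FS

open MeasureTheory Filter Topology

variable {b : ℕ} {P : Measure (Om b)} [IsProbabilityMeasure P]

lemma entsh_cat {k k' : ℤ} {m : ℕ} (hk : k' = k + m) (n : ℕ) (ω ω' : Om b) :
    wd k (m + n) ω = wd k (m + n) ω' ↔ wd k m ω = wd k m ω' ∧ wd k' n ω = wd k' n ω' := by
  simp only [wd_eq_iff]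
  push_cast
  refine ⟨fun h => ⟨fun j h1 h2 => h j h1 (by omega), fun j h1 h2 => h j (by omega) (by omega)⟩,
    fun h j h1 h2 => ?_⟩
  rcases lt_or_ge j k' with h3 | h3
  · exact h.1 j h1 (by omega)
  · exact h.2 j h3 (by omega)

lemma entsh_Xw (n : ℕ) (ω ω' : Om b) : Xw n ω = Xw n ω' ↔ wd 0 n ω = wd 0 n ω' := by
  rw [Xw_eq_iff, wd_eq_iff]
  refine ⟨fun h j h1 h2 => ?_, fun h j h1 => h j (by omega) (by omega)⟩
  lift j to ℕ using h1
  exact h j (by omega)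

lemma ent_wd (hP : Inv P) (k : ℤ) (n : ℕ) : ent P (wd k n) = Hn P n := by
  rw [Hn, ← ent_comp (hP k) (fib_wd 0 n)]
  congr 1
  funext ω
  rw [Function.comp_apply, wd_sh, zero_add]

lemma Hn_add_le (hP : Inv P) (m n : ℕ) : Hn P (m + n) ≤ Hn P m + Hn P n := by
  have h1 := ent_prod_le (μ := P) (fib_wd (b := b) 0 m) (fib_wd m n)
  rw [ent_wd hP, ent_wd hP] at h1
  refine le_trans (ent_le_of_det ((fib_wd 0 m).prod (fib_wd m n)) fun x y h => ?_) h1
  exact (entsh_cat (zero_add _).symm n x y).2 (Prod.mk.inj h)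

lemma exists_rate (hP : Inv P) : ∃ h : ℝ, 0 ≤ h ∧ (∀ n : ℕ, h * n ≤ Hn P n) ∧
    Tendsto (fun n : ℕ => Hn P n / n) atTop (𝓝 h) := by
  have hs : Subadditive (Hn P) := Hn_add_le hP
  have h0 : ∀ n : ℕ, 0 ≤ Hn P n / n := fun n => div_nonneg (ent_nonneg _) n.cast_nonneg
  have hb : BddBelow (Set.range fun n : ℕ => Hn P n / n) := ⟨0, Set.forall_mem_range.2 h0⟩
  refine ⟨hs.lim, ge_of_tendsto' (hs.tendsto_lim hb) h0, fun n => ?_, hs.tendsto_lim hb⟩
  rcases eq_or_ne n 0 with rfl | hn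
  · simpa [Hn] using ent_nonneg (μ := P) (wd 0 0)
  · exact (le_div_iff₀ (by positivity)).1 (hs.lim_le_div hb hn)

lemma exists_incr {c : ℝ} (hc : 0 ≤ c) (h : ∀ n : ℕ, c * n ≤ Hn P n) (S₀ l : ℕ) :
    ∃ S, S₀ ≤ S ∧ c * l - 1 ≤ Hn P (S + l) - Hn P S := by
  by_contra hn
  push Not at hn
  have h1 : ∀ i : ℕ, Hn P (S₀ + i * l) ≤ Hn P S₀ + i * (c * l - 1) := fun i => by
    induction i with
    | zero => simp
    | succ i ih =>
      have := hn (S₀ + i * l) (Nat.le_add_right _ _)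
      rw [Nat.succ_mul, ← add_assoc]
      push_cast
      linarith
  obtain ⟨i, hi⟩ := exists_nat_gt (Hn P S₀)
  have h2 := (h _).trans (h1 i)
  have h3 : 0 ≤ c * S₀ := mul_nonneg hc S₀.cast_nonneg
  push_cast at h2
  linarith

lemma entsh_small (hP : Inv P) (h : ¬ PosEnt P) (l : ℕ) {ε : ℝ} (hε : 0 < ε) :
    ∃ S, Hn P (S + l) - Hn P S ≤ ε := by
  by_contra hn
  push Not at hn
  obtain ⟨r, h0, h1, h2⟩ := exists_rate hP
  obtain rfl : 0 = r := h0.eq_or_lt.resolve_right fun h3 => h ⟨r, h3, h1⟩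
  have hl : 0 < l := Nat.pos_of_ne_zero fun e => by
    have := hn 0
    rw [e, add_zero, sub_self] at this
    linarith
  have h3 : ∀ i : ℕ, i * ε ≤ Hn P (i * l) := fun i => by
    induction i with
    | zero => rw [Nat.cast_zero, zero_mul]; exact ent_nonneg _
    | succ i ih =>
      have := hn (i * l)
      rw [Nat.succ_mul]
      push_cast
      linarith
  have h4 : Tendsto (fun i : ℕ => i * l) atTop atTop :=
    tendsto_atTop_mono (fun i => Nat.le_mul_of_pos_right i hl) tendsto_id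
  have h5 : (0 : ℝ) < ε / l := by positivity
  obtain ⟨i, h6, h7⟩ := (((h2.comp h4).eventually_lt_const h5).and (eventually_gt_atTop 0)).exists
  have h8 := h3 i
  rw [Function.comp_apply, div_lt_div_iff₀ (by positivity) (by positivity)] at h6
  have h9 : (0 : ℝ) < l := by positivity
  push_cast at h6
  nlinarith

lemma entsh_near (hb : 2 ≤ b) (l : ℕ) (ω : Om b) :
    |Yv ω - Xw l ω / (b : ℝ) ^ l| ≤ (1 / 2) ^ l := by
  have h0 : (2 : ℝ) ≤ b := by exact_mod_cast hb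
  have h1 : (0 : ℝ) < (b : ℝ) ^ l := by positivity
  have h2 : Yv ω - Xw l ω / (b : ℝ) ^ l = Yv (sh l ω) / (b : ℝ) ^ l := by
    rw [eq_div_iff h1.ne', sub_mul, div_mul_cancel₀ _ h1.ne', mul_comm, Yv_pow hb]
    ring
  rw [h2, abs_of_nonneg (div_nonneg (Yv_nonneg _) h1.le), one_div_pow]
  exact div_le_div₀ zero_le_one (Yv_le_one hb _) (by positivity) (pow_le_pow_left₀ zero_le_two h0 l)

lemma entsh_guess (hb : 2 ≤ b) (hP : Inv P) (h : ¬ PosEnt P) (l : ℕ) :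
    ∃ g : Om b → ℝ, Measurable[Pk b 0] g ∧
      P.real {ω | (1 / 2) ^ l < |Yv ω - g ω|} ≤ (1 / 2) ^ l := by
  have : Nonempty (Fin b) := ⟨⟨0, by omega⟩⟩
  obtain ⟨S, hS⟩ := entsh_small hP h l (ε := (1 / 2) ^ l) (by positivity)
  obtain ⟨G, hG⟩ := exists_guess (μ := P) (fib_wd (b := b) (-S) S) (fib_wd 0 l)
  have h1 : ent P (fun x => (wd (-S) S x, wd 0 l x)) ≤ ent P (wd (-S) (S + l)) :=
    ent_le_of_det (fib_wd _ _) fun x y e =>
      Prod.ext_iff.2 ((entsh_cat (neg_add_cancel _).symm l x y).1 e)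
  rw [ent_wd hP] at h1 hG
  refine ⟨fun ω => Xw l (Function.invFun (wd 0 l) (G (wd (-S) S ω))) / (b : ℝ) ^ l,
    measurable_Pk_of_dep (k := -S) (l := -S + S) (by omega) fun ω ω' e => by
      rw [(wd_eq_iff _ _ ω ω').2 e], ?_⟩
  refine le_trans (measureReal_mono ?_ (measure_ne_top _ _)) (hG.trans (by linarith))
  intro ω hω e
  simp only [Set.mem_ofPred_eq] at hω
  rw [← e, (entsh_Xw l _ ω).2 (Function.invFun_eq ⟨ω, rfl⟩)] at hω
  exact hω.not_ge (entsh_near hb l ω)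

/-- Zero entropy makes the future a function of the past. -/
theorem pred_of_not_posEnt (hb : 2 ≤ b) (hP : Inv P) (h : ¬ PosEnt P) :
    ∃ g : Om b → ℝ, Measurable[Pk b 0] g ∧ ∀ᵐ ω ∂P, Yv ω = g ω := by
  choose g h1 h2 using entsh_guess hb hP h
  refine ⟨fun ω => liminf (fun l => g l ω) atTop, Measurable.liminf h1, ?_⟩
  have h3 : ∑' l, P {ω | (1 / 2) ^ l < |Yv ω - g l ω|} ≠ ⊤ := by
    refine ne_top_of_le_ne_top (ENNReal.ofReal_ne_top (r := ∑' l : ℕ, (1 / 2) ^ l)) ?_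
    rw [ENNReal.ofReal_tsum_of_nonneg (fun _ => by positivity) summable_geometric_two]
    exact ENNReal.tsum_le_tsum fun l =>
      (ofReal_measureReal (μ := P)).symm.le.trans (ENNReal.ofReal_le_ofReal (h2 l))
  filter_upwards [ae_eventually_notMem h3] with ω hω
  refine (Tendsto.liminf_eq (tendsto_iff_dist_tendsto_zero.2 (squeeze_zero'
    (Eventually.of_forall fun _ => dist_nonneg) (hω.mono fun l hl => ?_)
    (tendsto_pow_atTop_nhds_zero_of_lt_one (r := (1 / 2 : ℝ)) (by norm_num) (by norm_num))))).symm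
  rw [dist_comm, Real.dist_eq]
  exact not_lt.1 hl

lemma entsh_window (hb : 2 ≤ b) {g : Om b → ℝ} (hg : Measurable[Pk b 0] g)
    (h : ∀ᵐ ω ∂P, Yv ω = g ω) (l : ℕ) {ε : ℝ} (hε : 0 < ε) :
    ∃ (S : ℕ) (t : Om b → ℝ), (∀ ω ω', (∀ j, -(S : ℤ) ≤ j → j < 0 → ω j = ω' j) → t ω = t ω') ∧
      P.real {ω | ¬ ((Xw l ω : ℝ) - 1 < t ω ∧ t ω < Xw l ω + 2)} ≤ ε := by
  have h0 : (0 : ℝ) < (b : ℝ) ^ l := by positivity
  have hY : Integrable (fun ω : Om b => (Yv ω : ℂ)) P :=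
    Integrable.ofReal (.of_bound (measurable_Yv hb).aestronglyMeasurable 1
      (Eventually.of_forall fun ω => (Real.norm_of_nonneg (Yv_nonneg ω)).trans_le (Yv_le_one hb ω)))
  have he : (fun ω : Om b => (Yv ω : ℂ)) =ᵐ[P] fun ω => (g ω : ℂ) :=
    h.mono fun ω e => congrArg _ e
  obtain ⟨S, u, h1, h2, h3⟩ := exists_window P (f := fun ω => (g ω : ℂ))
    (Complex.continuous_ofReal.comp_stronglyMeasurable hg.stronglyMeasurable) (hY.congr he)
    (ε := ε / (b : ℝ) ^ l) (by positivity)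
  rw [← integral_congr_ae (f := fun ω => ‖(Yv ω : ℂ) - u ω‖) (he.mono fun ω e => by
    simp only at e ⊢
    rw [e])] at h3
  have h4 := (mul_meas_ge_le_integral_of_nonneg (Eventually.of_forall fun _ => norm_nonneg _)
    (hY.sub h2).norm (1 / (b : ℝ) ^ l)).trans h3
  rw [one_div_mul_eq_div, div_le_div_iff_of_pos_right h0] at h4
  refine ⟨S, fun ω => (b : ℝ) ^ l * (u ω).re, fun ω ω' e => by simp only [h1 ω ω' e],
    le_trans (measureReal_mono ?_ (measure_ne_top _ _)) h4⟩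
  refine fun ω hω => Set.mem_ofPred_eq ▸ not_lt.1 fun h5 => hω ?_
  have h6 : |Yv ω - (u ω).re| < 1 / (b : ℝ) ^ l := by
    simpa using (Complex.abs_re_le_norm _).trans_lt h5
  rw [lt_div_iff₀ h0, ← abs_of_pos h0, ← abs_mul, sub_mul, mul_comm, Yv_pow hb,
    abs_lt] at h6
  have h7 := Yv_nonneg (sh l ω)
  have h8 := Yv_le_one hb (sh l ω)
  exact ⟨by linarith [h6.2], by linarith [h6.1]⟩

/-- If the future is a function of the past, the entropy is zero. -/
theorem not_posEnt_of_pred (hb : 2 ≤ b) (hP : Inv P) {g : Om b → ℝ} (hg : Measurable[Pk b 0] g)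
    (h : ∀ᵐ ω ∂P, Yv ω = g ω) : ¬ PosEnt P := by
  classical
  rintro ⟨c, hc, hH⟩
  obtain ⟨l, hl⟩ := exists_nat_gt ((Real.log 3 + 3) / c)
  rw [div_lt_iff₀ hc] at hl
  obtain ⟨L, hL⟩ : ∃ L : ℝ, L = Real.log (Fintype.card (Option (Fin l → Fin b)) / 1) + 1 :=
    ⟨_, rfl⟩
  have L0 : 0 < L := by
    rw [hL, div_one]
    exact add_pos_of_nonneg_of_pos (Real.log_natCast_nonneg _) one_pos
  obtain ⟨S₀, t, h1, h2⟩ := entsh_window hb hg h l (ε := 1 / L) (by positivity)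
  obtain ⟨S, hS, h3⟩ := exists_incr hc.le hH S₀ l
  let O : Om b → ZMod 3 := fun ω => Xw l ω
  let E : Om b → Option (Fin l → Fin b) := fun ω =>
    if (Xw l ω : ℝ) - 1 < t ω ∧ t ω < Xw l ω + 2 then none else some (wd 0 l ω)
  have hO : Fib O := fib_of_dep (k := 0) (l := 0 + l) fun ω ω' e => by
    simp only [O, (entsh_Xw l ω ω').2 ((wd_eq_iff _ _ ω ω').2 e)]
  have hE : Fib E := fib_of_dep (k := -S₀) (l := l) fun ω ω' e => by
    have e1 := (wd_eq_iff 0 l ω ω').2 fun j a1 a2 => e j (by omega) (by omega)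
    simp only [E, (entsh_Xw l ω ω').2 e1, e1, h1 ω ω' fun j a1 a2 => e j a1 (by omega)]
  have h4 := ent_le_log_card (μ := P) hO
  have h5 := ent_le_of_small (μ := P) hE none one_pos le_rfl
    (le_trans (measureReal_mono (fun ω hω e => hω (if_pos e)) (measure_ne_top _ _)) h2)
  have h6 := ent_prod_le (μ := P) hO hE
  have h7 := ent_prod_le (μ := P) (fib_wd (-S) S) (hO.prod hE)
  have h8 : ent P (wd (-S) (S + l)) ≤ ent P fun ω => (wd (-S) S ω, O ω, E ω) := by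
    refine ent_le_of_det ((fib_wd (-S) S).prod (hO.prod hE)) fun ω ω' e => ?_
    simp only [Prod.mk.injEq, O, E, ZMod.natCast_eq_natCast_iff'] at e
    obtain ⟨e1, e2, e3⟩ := e
    refine (entsh_cat (neg_add_cancel _).symm l ω ω').2 ⟨e1, ?_⟩
    rw [h1 ω ω' fun j a1 a2 => (wd_eq_iff _ _ ω ω').1 e1 j (by omega) (by omega)] at e3
    split_ifs at e3 with a1 a2
    · have a3 : Xw l ω < Xw l ω' + 3 := by
        exact_mod_cast (by linarith [a1.1, a2.2] : (Xw l ω : ℝ) < Xw l ω' + 3)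
      have a4 : Xw l ω' < Xw l ω + 3 := by
        exact_mod_cast (by linarith [a1.2, a2.1] : (Xw l ω' : ℝ) < Xw l ω + 3)
      exact (entsh_Xw l ω ω').1 (by omega)
    · exact Option.some.inj e3
  rw [ent_wd hP] at h7 h8
  rw [← hL, one_div_mul_cancel L0.ne'] at h5
  rw [ZMod.card, Nat.cast_ofNat] at h4
  linarith

end Pool.Agent.Lib.MP_c9a594_an.FS
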