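import Pool.Agent.Lib.MP_c9a594_an.FS.Main
import Pool.Agent.Lib.MP_c9a594_an.FS.Dig

/-! The final statements. -/

namespace Pool.Agent.Lib.MP_c9a594_an.FS

open MeasureTheory Filter Topology

variable {a b : ℕ}

lemma final_mem_arc {u v : ℝ} (hu : 0 ≤ u) (hv : v ≤ 1) {y : ℝ} :
    (y : UnitAddCircle) ∈ ((↑) : ℝ → UnitAddCircle) '' Set.Ioo u v ↔
      Int.fract y ∈ Set.Ioo u v := by
  constructor
  · rintro ⟨s, hs, h⟩
    have h1 : ((y - s : ℝ) : UnitAddCircle) = 0 := by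
      rw [AddCircle.coe_sub, h, sub_self]
    obtain ⟨n, hn⟩ := (AddCircle.coe_eq_zero_iff _).1 h1
    have h2 : y = s + n := by
      simp at hn
      linarith
    have h3 : Int.fract y = s := by
      rw [h2, Int.fract_add_intCast, Int.fract_eq_self.2 ⟨by linarith [hs.1], by linarith [hs.2]⟩]
    rwa [h3]
  · intro h
    exact ⟨_, h, AddCircle.coe_fract y⟩

theorem core_top (ha : 2 ≤ a) (hb : 2 ≤ b) (hab : ∀ m n : ℕ, a ^ m = b ^ n → m = 0 ∧ n = 0)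
    {S : Set (Om b)} (hS : ∀ ω ∈ S, sh 1 ω ∈ S) {c : ℝ} (hc : 0 < c)
    (h : ∃ᶠ N : ℕ in atTop, Real.exp (c * N) ≤ (wd 0 N '' S).ncard) {u v : ℝ} (hu : 0 ≤ u)
    (huv : u < v) (hv : v ≤ 1) :
    ∀ᶠ n : ℕ in atTop, ∃ ω ∈ S, Int.fract ((a : ℝ) ^ n * Yv ω) ∈ Set.Ioo u v := by
  obtain ⟨P, hP, hinv, hpos, hsupp⟩ := exists_posEnt hb hS hc h
  obtain ⟨Q, hQ, hQP, hinvQ, hN⟩ := exists_noPred hb hinv hpos
  set J : Set UnitAddCircle := ((↑) : ℝ → UnitAddCircle) '' Set.Ioo u v with hJ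
  have hJo : IsOpen J := QuotientAddGroup.isOpenMap_coe _ isOpen_Ioo
  have hJc : (Jᶜ).Nonempty := ⟨((0 : ℝ) : UnitAddCircle), fun h0 => by
    have h1 := (final_mem_arc hu hv).1 h0
    rw [Int.fract_zero] at h1
    linarith [h1.1]⟩
  let φ : UnitAddCircle → ℝ := fun x => Metric.infDist x Jᶜ
  have hφ : Continuous φ := Metric.continuous_infDist_pt _
  have hφ0 : ∀ x, 0 ≤ φ x := fun x => Metric.infDist_nonneg
  have hI : 0 < ∫ x, φ x := by
    refine hφ.integral_pos_of_hasCompactSupport_nonneg_nonzero (HasCompactSupport.of_compactSpace _)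
      hφ0 (x := (((u + v) / 2 : ℝ) : UnitAddCircle)) ?_
    refine ((hJo.isClosed_compl.notMem_iff_infDist_pos hJc).1 fun h1 => h1 ?_).ne'
    exact ⟨_, ⟨by linarith, by linarith⟩, rfl⟩
  have ht := tendsto_equi ha hb hab hinvQ hN ⟨fun x => (φ x : ℂ), Complex.continuous_ofReal.comp hφ⟩
  simp only [ContinuousMap.coe_mk, integral_complex_ofReal] at ht
  have hne : ((∫ x, φ x : ℝ) : ℂ) ≠ 0 := by exact_mod_cast hI.ne'
  filter_upwards [ht.eventually_ne hne] with n hn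
  by_contra hcon
  push Not at hcon
  apply hn
  have hcont : Continuous fun ω : Om b => φ (a ^ n • ((Yv ω : ℝ) : UnitAddCircle)) :=
    hφ.comp ((continuous_const_smul _).comp ((AddCircle.continuous_mk' 1).comp (continuous_Yv hb)))
  have h1 := hsupp _ hcont fun ω hω => by
    refine Metric.infDist_zero_of_mem fun h2 => hcon ω hω ?_
    rw [← AddCircle.coe_nsmul, final_mem_arc hu hv] at h2
    simpa using h2
  rw [integral_eq_zero_iff_of_nonneg (fun ω => hφ0 _) (hcont.integrable_of_hasCompactSupport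
    (HasCompactSupport.of_compactSpace _))] at h1
  have h2 : (fun ω : Om b => φ (a ^ n • ((Yv ω : ℝ) : UnitAddCircle))) =ᵐ[Q] 0 := hQP.ae_le h1
  rw [integral_congr_ae h2]
  simp

theorem full_measure (ha : 2 ≤ a) (hb : 2 ≤ b) (hab : ∀ m n : ℕ, a ^ m = b ^ n → m = 0 ∧ n = 0)
    (μ : Measure UnitAddCircle) [IsProbabilityMeasure μ] (hμ : Ergodic (fun x => b • x) μ)
    (hpos : ∃ c : ℝ, 0 < c ∧ ∀ n : ℕ, c * n ≤ ∑ k ∈ Finset.range (b ^ n),
      Real.negMulLog (μ.real (((↑) : ℝ → UnitAddCircle) ''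
        Set.Ico ((k : ℝ) / (b : ℝ) ^ n) ((k + 1 : ℝ) / (b : ℝ) ^ n))))
    (f : C(UnitAddCircle, ℂ)) :
    Tendsto (fun n : ℕ => ∫ x, f (a ^ n • x) ∂μ) atTop (𝓝 (∫ x, f x)) := by
  obtain ⟨P, hP, hinv, hmap, hent⟩ := exists_ext hb μ hμ.toMeasurePreserving
  obtain ⟨c, hc, hcn⟩ := hpos
  obtain ⟨Q, hQ, hQP, hinvQ, hN⟩ := exists_noPred hb hinv ⟨c, hc, fun n => (hcn n).trans (hent n)⟩
  have hm : Measurable fun ω : Om b => ((Yv ω : ℝ) : UnitAddCircle) :=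
    ((AddCircle.continuous_mk' 1).comp (continuous_Yv hb)).measurable
  have hT : Measurable fun x : UnitAddCircle => b • x := (continuous_const_smul _).measurable
  have hprob : IsProbabilityMeasure (Q.map fun ω => ((Yv ω : ℝ) : UnitAddCircle)) :=
    Measure.isProbabilityMeasure_map hm.aemeasurable
  have hcomm : ((fun x : UnitAddCircle => b • x) ∘ fun ω : Om b => ((Yv ω : ℝ) : UnitAddCircle)) =
      (fun ω : Om b => ((Yv ω : ℝ) : UnitAddCircle)) ∘ sh 1 := by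
    funext ω
    have h1 := Yv_pow hb 1 ω
    simp only [Function.comp_apply]
    rw [← AddCircle.coe_nsmul, nsmul_eq_mul, ← pow_one (b : ℝ), h1, AddCircle.coe_add]
    have h2 : (((Xw 1 ω : ℕ) : ℝ) : UnitAddCircle) = 0 :=
      (AddCircle.coe_eq_zero_iff _).2 ⟨(Xw 1 ω : ℕ), by simp⟩
    rw [h2, zero_add]
    rfl
  have hmp : MeasurePreserving (fun x : UnitAddCircle => b • x)
      (Q.map fun ω => ((Yv ω : ℝ) : UnitAddCircle))
      (Q.map fun ω => ((Yv ω : ℝ) : UnitAddCircle)) := by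
    refine ⟨hT, ?_⟩
    rw [Measure.map_map hT hm, hcomm, ← Measure.map_map hm (measurable_sh 1), (hinvQ 1).map_eq]
  have heq : (Q.map fun ω => ((Yv ω : ℝ) : UnitAddCircle)) = μ :=
    hμ.eq_of_absolutelyContinuous hmp (hmap ▸ hQP.map hm)
  refine (tendsto_equi ha hb hab hinvQ hN f).congr fun n => ?_
  rw [← heq, integral_map hm.aemeasurable]
  exact (f.continuous.comp (continuous_const_smul _)).aestronglyMeasurable

theorem full_set (ha : 2 ≤ a) (hb : 2 ≤ b) (hab : ∀ m n : ℕ, a ^ m = b ^ n → m = 0 ∧ n = 0)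
    {Y : Set ℝ} (hY : Y ⊆ Set.Ico 0 1) (hT : ∀ y ∈ Y, Int.fract ((b : ℝ) * y) ∈ Y)
    (h : 0 < dimH (closure Y)) {u v : ℝ} (hu : 0 ≤ u) (huv : u < v) (hv : v ≤ 1) :
    ∀ᶠ n : ℕ in atTop, ∃ y ∈ Y, Int.fract ((a : ℝ) ^ n * y) ∈ Set.Ioo u v := by
  obtain ⟨π, -, h1, -, -, h4⟩ := exists_dig hb
  obtain ⟨c, hc, hmany⟩ := many_of_dimH hb hY h
  have hit : ∀ y ∈ Y, ∀ k : ℕ, Int.fract ((b : ℝ) ^ k * y) ∈ Y := by
    intro y hy k
    induction k with
    | zero => simpa [Int.fract_eq_self.2 (hY hy)] using hy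
    | succ k ih =>
      have h5 := hT _ ih
      have h6 : Int.fract ((b : ℝ) * Int.fract ((b : ℝ) ^ k * y)) =
          Int.fract ((b : ℝ) ^ (k + 1) * y) := by
        rw [Int.fract_eq_fract]
        refine ⟨-(b * ⌊(b : ℝ) ^ k * y⌋), ?_⟩
        rw [Int.fract]
        push_cast
        ring
      rwa [h6] at h5
  have hcore := core_top ha hb hab (S := {ω | ∃ y ∈ Y, ∃ k : ℕ, ω = sh k (π y)}) ?_ hc ?_ hu huv hv
  · filter_upwards [hcore] with n hn
    obtain ⟨_, ⟨y, hy, k, rfl⟩, hn⟩ := hn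
    exact ⟨_, hit y hy k, by rwa [h1] at hn⟩
  · rintro _ ⟨y, hy, k, rfl⟩
    exact ⟨y, hy, k + 1, by rw [sh_sh]; push_cast; rw [add_comm]⟩
  · refine hmany.mono fun N hN => hN.trans ?_
    classical
    let F : (Fin N → Fin b) → ℤ := fun w =>
      if hw : ∃ y ∈ Y, wd 0 N (π y) = w then ⌊(b : ℝ) ^ N * hw.choose⌋ else 0
    have hsub : (fun y => ⌊(b : ℝ) ^ N * y⌋) '' Y ⊆
        F '' (wd 0 N '' {ω | ∃ y ∈ Y, ∃ k : ℕ, ω = sh k (π y)}) := by
      rintro _ ⟨y, hy, rfl⟩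
      refine ⟨wd 0 N (π y), ⟨π y, ⟨y, hy, 0, by simp [sh_zero]⟩, rfl⟩, ?_⟩
      have hw : ∃ y' ∈ Y, wd 0 N (π y') = wd 0 N (π y) := ⟨y, hy, rfl⟩
      simp only [F, dif_pos hw]
      obtain ⟨h5, h6⟩ := hw.choose_spec
      have h7 : Xw N (π hw.choose) = Xw N (π y) :=
        (Xw_eq_iff _ _ _).2 fun j hj => (wd_eq_iff _ _ _ _).1 h6 j (by omega) (by omega)
      have h8 := h4 hw.choose N
      rw [h7, h4 y N, Int.fract_eq_self.2 (hY hy), Int.fract_eq_self.2 (hY h5)] at h8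
      exact h8.symm
    exact_mod_cast (Set.ncard_le_ncard hsub (Set.toFinite _ |>.image _)).trans
      (Set.ncard_image_le (Set.toFinite _))

end Pool.Agent.Lib.MP_c9a594_an.FS
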