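import Pool.Agent.Lib.MP_c9a594_an.FS.Bfun
import Pool.Agent.Lib.MP_c9a594_an.FS.Code

/-! Irrational leading terms are impossible. -/

namespace Pool.Agent.Lib.MP_c9a594_an.FS

open MeasureTheory Filter Topology

variable {b : ℕ} {P : Measure (Om b)} [IsProbabilityMeasure P]

lemma irr_pre (hP : Inv P) (k : ℤ) (s : Set (Om b)) : P.real (sh k ⁻¹' s) ≤ P.real s := by
  have h := Measure.le_map_apply (μ := P) (hP k).measurable.aemeasurable s
  rw [(hP k).map_eq] at h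
  exact ENNReal.toReal_mono (measure_ne_top _ _) h

omit [IsProbabilityMeasure P] in
lemma irr_meas0 (v : ℝ) : Measurable[Pk b 0] (Vf P v) :=
  (stronglyMeasurable_condExp (m := Pk b 0)).measurable

omit [IsProbabilityMeasure P] in
lemma irr_meas (v : ℝ) : Measurable (Vf P v) := (irr_meas0 v).mono (Pk_le b 0) le_rfl

lemma irr_meas_ee (v : ℝ) (k : ℕ) : Measurable fun ω : Om b => ee (v * Xw k ω) := by
  refine Continuous.measurable (continuous_of_dep (k := 0) (l := k) fun ω ω' h => ?_)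
  rw [(Xw_eq_iff k ω ω').2 fun j hj => h j (by positivity) (by exact_mod_cast hj)]

omit [IsProbabilityMeasure P] in
lemma irr_markov {f : Om b → ℝ} (h0 : ∀ ω, 0 ≤ f ω) (hi : Integrable f P) {σ ρ : ℝ} (hσ : 0 < σ)
    (h : ∫ ω, f ω ∂P ≤ ρ * σ) : P.real {ω | σ ≤ f ω} ≤ ρ := by
  have h1 := mul_meas_ge_le_integral_of_nonneg (μ := P) (Eventually.of_forall h0) hi σ
  have h2 : σ * P.real {ω | σ ≤ f ω} ≤ σ * ρ := by linarith
  exact le_of_mul_le_mul_left h2 hσ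

lemma irr_stab (hb : 2 ≤ b) (hP : Inv P) (v : ℝ) (k : ℕ) {σ ρ : ℝ} (hσ : 0 < σ)
    (h : Bf P v - Bf P (v * (b : ℝ) ^ k) ≤ ρ * σ ^ 2) :
    P.real {ω | σ ≤ ‖ee (v * Xw k ω) * Vf P v (sh k ω) - Vf P (v * (b : ℝ) ^ k) ω‖} ≤ ρ := by
  have hm : Measurable fun ω : Om b =>
      ‖ee (v * Xw k ω) * Vf P v (sh k ω) - Vf P (v * (b : ℝ) ^ k) ω‖ ^ 2 :=
    ((((irr_meas_ee v k).mul ((irr_meas v).comp (measurable_sh k))).sub
      (irr_meas _)).norm).pow_const 2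
  have hi : Integrable (fun ω : Om b =>
      ‖ee (v * Xw k ω) * Vf P v (sh k ω) - Vf P (v * (b : ℝ) ^ k) ω‖ ^ 2) P := by
    refine Integrable.of_bound hm.aestronglyMeasurable 4 ?_
    filter_upwards [(hP k).quasiMeasurePreserving.ae (norm_Vf_le P v),
      norm_Vf_le P (v * (b : ℝ) ^ k)] with ω h1 h2
    have h3 := norm_sub_le (ee (v * Xw k ω) * Vf P v (sh k ω)) (Vf P (v * (b : ℝ) ^ k) ω)
    rw [norm_mul, norm_ee, one_mul] at h3
    have h4 := norm_nonneg (ee (v * Xw k ω) * Vf P v (sh k ω) - Vf P (v * (b : ℝ) ^ k) ω)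
    rw [Real.norm_eq_abs, abs_of_nonneg (by positivity)]
    nlinarith
  have h1 := irr_markov (P := P) (fun ω => by positivity) hi (pow_pos hσ 2)
    (ρ := ρ) (by rw [stab hb hP v k]; exact h)
  refine le_trans (measureReal_mono fun ω hω => ?_) h1
  exact pow_le_pow_left₀ hσ.le hω 2

lemma irr_big (v : ℝ) {β t : ℝ} (ht : 0 ≤ t) (h : β ≤ Bf P v) :
    β - t ^ 2 ≤ P.real {ω | t ≤ ‖Vf P v ω‖} := by
  have hs : MeasurableSet {ω | t ≤ ‖Vf P v ω‖} :=
    measurableSet_le measurable_const (irr_meas v).norm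
  have h1 : Bf P v ≤ ∫ ω, (t ^ 2 + Set.indicator {ω | t ≤ ‖Vf P v ω‖} (fun _ => (1 : ℝ)) ω) ∂P := by
    refine integral_mono_of_nonneg (Eventually.of_forall fun ω => by positivity)
      ((integrable_const _).add ((integrable_const _).indicator hs)) ?_
    filter_upwards [norm_Vf_le P v] with ω hω
    have h0 := norm_nonneg (Vf P v ω)
    by_cases hc : t ≤ ‖Vf P v ω‖
    · rw [Set.indicator_of_mem (show ω ∈ {ω | t ≤ ‖Vf P v ω‖} from hc)]
      nlinarith [sq_nonneg t]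
    · rw [Set.indicator_of_notMem (show ω ∉ {ω | t ≤ ‖Vf P v ω‖} from hc)]
      push Not at hc
      nlinarith
  rw [integral_add (integrable_const _) ((integrable_const _).indicator hs),
    integral_indicator hs] at h1
  simp only [integral_const, probReal_univ, smul_eq_mul, one_mul, mul_one,
    MeasurableSet.univ, measureReal_restrict_apply, Set.univ_inter] at h1
  linarith

theorem exists_good (hb : 2 ≤ b) (hP : Inv P) {u β : ℝ} (hβ : 0 < β)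
    (h : ∀ R : ℕ, β ≤ Bf P (u * (b : ℝ) ^ R)) :
    ∃ (κ : ℝ) (A : Set (Om b)), 0 < κ ∧ MeasurableSet[Pk b 0] A ∧ P A ≠ 0 ∧
      ∀ R₀ : ℕ, ∃ R : ℕ, R₀ ≤ R ∧
        ∀ ω ∈ A, κ ≤ ‖Vf P (u * (b : ℝ) ^ R) (sh (-(R : ℤ)) ω)‖ := by
  obtain ⟨κ, hκ, hκ2⟩ : ∃ κ : ℝ, 0 < κ ∧ (3 * κ) ^ 2 = β / 2 := by
    refine ⟨Real.sqrt (β / 18), Real.sqrt_pos.2 (by positivity), ?_⟩
    rw [mul_pow, Real.sq_sqrt (by positivity)]; ring
  have hst : ∀ i : ℕ, ∃ R₀ : ℕ, ∀ R, R₀ ≤ R → ∀ k : ℕ,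
      Bf P (u * (b : ℝ) ^ R) - Bf P (u * (b : ℝ) ^ R * (b : ℝ) ^ k) ≤
        β / 8 * (1 / 2) ^ i * (κ / 2 ^ i) ^ 2 := fun i =>
    exists_stable hb hP u (by positivity)
  choose r hr using hst
  obtain ⟨R, hR0, hRs⟩ : ∃ R : ℕ → ℕ, R 0 = r 0 ∧ ∀ i, R (i + 1) = R i + (r (i + 1) + 1) :=
    ⟨fun i => Nat.rec (r 0) (fun j x => x + (r (j + 1) + 1)) i, rfl, fun _ => rfl⟩
  have hRr : ∀ i, r i ≤ R i := by
    intro i
    cases i with
    | zero => exact hR0.ge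
    | succ j => rw [hRs]; omega
  have hRi : ∀ i, i ≤ R i := by
    intro i
    induction i with
    | zero => omega
    | succ j ih => rw [hRs]; omega
  obtain ⟨lam, hlam⟩ : ∃ lam : ℕ → Om b → ℝ, ∀ i ω,
      lam i ω = ‖Vf P (u * (b : ℝ) ^ R i) (sh (-(R i : ℤ)) ω)‖ := ⟨_, fun _ _ => rfl⟩
  have hlm : ∀ i, Measurable[Pk b 0] (lam i) := by
    intro i
    have : lam i = fun ω => ‖Vf P (u * (b : ℝ) ^ R i) (sh (-(R i : ℤ)) ω)‖ := funext (hlam i)
    rw [this]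
    have h1 : Measurable[Pk b 0, Pk b 0] (sh (-(R i : ℤ)) : Om b → Om b) :=
      measurable_sh_Pk (by omega)
    exact measurable_norm.comp ((irr_meas0 (P := P) (u * (b : ℝ) ^ R i)).comp h1)
  have hbad : ∀ i, P.real {ω | κ / 2 ^ i ≤ |lam i ω - lam (i + 1) ω|} ≤ β / 8 * (1 / 2) ^ i := by
    intro i
    have h1 := irr_stab hb hP (u * (b : ℝ) ^ R i) (r (i + 1) + 1) (σ := κ / 2 ^ i) (by positivity)
      (hr i (R i) (hRr i) (r (i + 1) + 1))
    refine le_trans (measureReal_mono fun ω hω => ?_)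
      ((irr_pre hP (-(R (i + 1) : ℤ)) _).trans h1)
    simp only [Set.mem_ofPred_eq, Set.mem_preimage] at hω ⊢
    refine hω.trans ?_
    rw [hlam, hlam, sh_sh]
    have e1 : ((r (i + 1) + 1 : ℕ) : ℤ) + -(R (i + 1) : ℤ) = -(R i : ℤ) := by
      rw [hRs]; push_cast; ring
    have e2 : u * (b : ℝ) ^ R i * (b : ℝ) ^ (r (i + 1) + 1) = u * (b : ℝ) ^ R (i + 1) := by
      rw [hRs, pow_add (b : ℝ) (R i)]; ring
    rw [e1, e2]
    refine le_trans (le_of_eq ?_) (abs_norm_sub_norm_le _ _)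
    rw [norm_mul, norm_ee, one_mul]
  refine ⟨κ, {ω | 3 * κ ≤ lam 0 ω} ∩ ⋂ i, {ω | |lam i ω - lam (i + 1) ω| < κ / 2 ^ i}, hκ,
    ?_, ?_, ?_⟩
  · refine MeasurableSet.inter (measurableSet_le measurable_const (hlm 0))
      (MeasurableSet.iInter fun i => ?_)
    exact measurableSet_lt (measurable_abs.comp ((hlm i).sub (hlm (i + 1)))) measurable_const
  · intro h0
    have hs : MeasurableSet {ω | 3 * κ ≤ ‖Vf P (u * (b : ℝ) ^ R 0) ω‖} :=
      measurableSet_le measurable_const (irr_meas _).norm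
    have h1 : β / 2 ≤ P.real {ω | 3 * κ ≤ lam 0 ω} := by
      have h2 := irr_big (P := P) (u * (b : ℝ) ^ R 0) (t := 3 * κ) (by positivity) (h (R 0))
      have h3 := (hP (-(R 0 : ℤ))).measureReal_preimage hs.nullMeasurableSet
      have h4 : {ω | 3 * κ ≤ lam 0 ω} =
          sh (-(R 0 : ℤ)) ⁻¹' {ω | 3 * κ ≤ ‖Vf P (u * (b : ℝ) ^ R 0) ω‖} := by
        ext ω; simp only [Set.mem_ofPred_eq, Set.mem_preimage, hlam]
      rw [h4, h3]; linarith
    have hsum : HasSum (fun i : ℕ => β / 8 * (1 / 2 : ℝ) ^ i) (β / 4) := by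
      have := hasSum_geometric_two.mul_left (β / 8)
      rwa [show β / 8 * 2 = β / 4 by ring] at this
    have h2 : P (⋃ i, {ω | κ / 2 ^ i ≤ |lam i ω - lam (i + 1) ω|}) ≤ ENNReal.ofReal (β / 4) := by
      refine (measure_iUnion_le _).trans ?_
      rw [← hsum.tsum_eq, ENNReal.ofReal_tsum_of_nonneg (fun i => by positivity) hsum.summable]
      refine ENNReal.tsum_le_tsum fun i => ?_
      exact (ENNReal.le_ofReal_iff_toReal_le (measure_ne_top _ _) (by positivity)).2 (hbad i)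
    have h3 : P {ω | 3 * κ ≤ lam 0 ω} ≤ ENNReal.ofReal (β / 4) := by
      refine le_trans (measure_mono (t := ({ω | 3 * κ ≤ lam 0 ω} ∩
        ⋂ i, {ω | |lam i ω - lam (i + 1) ω| < κ / 2 ^ i}) ∪
        ⋃ i, {ω | κ / 2 ^ i ≤ |lam i ω - lam (i + 1) ω|}) fun ω hω => ?_) ?_
      · by_cases hc : ∀ i, |lam i ω - lam (i + 1) ω| < κ / 2 ^ i
        · exact Or.inl ⟨hω, Set.mem_iInter.2 hc⟩
        · push Not at hc
          exact Or.inr (Set.mem_iUnion.2 hc)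
      · refine (measure_union_le _ _).trans ?_
        rw [h0, zero_add]; exact h2
    have h4 := (ENNReal.le_ofReal_iff_toReal_le (measure_ne_top _ _) (by positivity)).1 h3
    have h5 : P.real {ω | 3 * κ ≤ lam 0 ω} ≤ β / 4 := h4
    linarith
  · intro R₀
    refine ⟨R R₀, hRi R₀, fun ω hω => ?_⟩
    have h1 : ∀ i, κ + 2 * κ / 2 ^ i ≤ lam i ω := by
      intro i
      induction i with
      | zero => have : 3 * κ ≤ lam 0 ω := hω.1; simp; linarith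
      | succ j ih =>
        have h2 : |lam j ω - lam (j + 1) ω| < κ / 2 ^ j := Set.mem_iInter.1 hω.2 j
        have h3 := (abs_lt.1 h2).2
        have e1 : 2 * κ / 2 ^ (j + 1) = κ / 2 ^ j := by field_simp; ring
        have e2 : 2 * κ / 2 ^ j = 2 * (κ / 2 ^ j) := by ring
        linarith
    have h2 := h1 R₀
    have h3 : 0 ≤ 2 * κ / 2 ^ R₀ := by positivity
    rw [← hlam]; linarith

lemma irr_close {e v v' W G : ℂ} {κ σ : ℝ} (hκ : 0 < κ) (he : ‖e‖ = 1) (hv : κ / 2 ≤ ‖v'‖)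
    (h1 : ‖v - v'‖ ≤ σ) (h2 : ‖e * v - W‖ ≤ σ) (h3 : ‖W - G‖ ≤ σ) :
    ‖e - G / v'‖ ≤ 6 * σ / κ := by
  have hv0 : 0 < ‖v'‖ := by linarith
  have hne : v' ≠ 0 := norm_pos_iff.1 hv0
  have e1 : e - G / v' = ((e * v - W) + (W - G) - e * (v - v')) / v' := by
    field_simp; ring
  have h4 : ‖(e * v - W) + (W - G) - e * (v - v')‖ ≤ 3 * σ := by
    have a1 := norm_sub_le ((e * v - W) + (W - G)) (e * (v - v'))
    have a2 := norm_add_le (e * v - W) (W - G)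
    rw [norm_mul, he, one_mul] at a1
    linarith
  have hσ : 0 ≤ σ := (norm_nonneg _).trans h1
  rw [e1, norm_div, div_le_div_iff₀ hv0 hκ]
  nlinarith [norm_nonneg ((e * v - W) + (W - G) - e * (v - v'))]

theorem rat_of_Bf (hb : 2 ≤ b) (hP : Inv P) (hN : NoPred P) {u β : ℝ} (hβ : 0 < β)
    (h : ∀ R : ℕ, β ≤ Bf P (u * (b : ℝ) ^ R)) : ∃ r : ℚ, u = r := by
  obtain ⟨κ, A, hκ, hA, hA0, hR⟩ := exists_good hb hP hβ h
  obtain ⟨Q, C, hQp, hQ, hpos, hC, hQC, hvis⟩ := exists_hull hb hP hN hA hA0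
  obtain ⟨ε, hε, hcode⟩ := code hb hQ hpos
  obtain ⟨g, hg⟩ := hvis (ε / 2) (by positivity)
  have hb1 : (1 : ℝ) ≤ (b : ℝ) := by exact_mod_cast (by omega : 1 ≤ b)
  have hbg : (1 : ℝ) ≤ (b : ℝ) ^ (g + 1) := one_le_pow₀ hb1
  obtain ⟨σ, hσ, hσ1, hσ2⟩ : ∃ σ : ℝ, 0 < σ ∧ σ ≤ κ / 2 ∧ 6 * σ / κ = 1 / (b : ℝ) ^ (g + 1) := by
    refine ⟨κ / (6 * (b : ℝ) ^ (g + 1)), by positivity, ?_, by field_simp⟩
    exact div_le_div_of_nonneg_left hκ.le (by norm_num) (by linarith)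
  obtain ⟨ρ, hρ, hρ1⟩ : ∃ ρ : ℝ, 0 < ρ ∧ (g : ℝ) * (3 * (C * ρ)) ≤ ε / 2 := by
    refine ⟨ε / (6 * (g * C + 1)), by positivity, ?_⟩
    have h0 : (0 : ℝ) ≤ g * C := by positivity
    have e1 : (g : ℝ) * (3 * (C * (ε / (6 * (g * C + 1))))) =
        ε / 2 * ((g * C) / (g * C + 1)) := by field_simp; ring
    rw [e1]
    have h1 : (g * C : ℝ) / (g * C + 1) ≤ 1 := (div_le_one (by positivity)).2 (by linarith)
    nlinarith
  obtain ⟨R₀, hR₀⟩ := exists_stable hb hP u (ε := ρ * σ ^ 2) (by positivity)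
  obtain ⟨R, hRR, hRA⟩ := hR R₀
  have hwin : ∀ v : ℝ, ∃ (S : ℕ) (G : Om b → ℂ),
      (∀ ω ω', (∀ j, -(S : ℤ) ≤ j → j < 0 → ω j = ω' j) → G ω = G ω') ∧
        P.real {ω | σ ≤ ‖Vf P v ω - G ω‖} ≤ ρ := by
    intro v
    have hi : Integrable (Vf P v) P := integrable_condExp
    obtain ⟨S, G, h1, h2, h3⟩ := exists_window P (f := Vf P v)
      (stronglyMeasurable_condExp (m := Pk b 0)) hi (ε := ρ * σ) (by positivity)
    exact ⟨S, G, h1, irr_markov (fun ω => norm_nonneg _) (hi.sub h2).norm hσ h3⟩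
  obtain ⟨w, v', hv', hv'P⟩ := hwin (u * (b : ℝ) ^ R)
  choose Sk Gk hGk hGkP using fun k : ℕ => hwin (u * (b : ℝ) ^ R * (b : ℝ) ^ k)
  have hv'sh : ∀ (k : ℕ) (ω ω' : Om b), (∀ j : ℤ, k - w ≤ j → j < k → ω j = ω' j) →
      v' (sh k ω) = v' (sh k ω') := by
    intro k ω ω' hh
    exact hv' _ _ fun j h1 h2 => hh (j + k) (by omega) (by omega)
  obtain ⟨r, hr⟩ := hcode (u * (b : ℝ) ^ R) g w fun M => by
    refine ⟨∑ k ∈ Finset.range (M + 1), Sk k, fun k => {ω | κ / 2 ≤ ‖v' (sh k ω)‖},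
      fun k ω => if k ≤ M then Gk k ω / v' (sh k ω) else 0, ?_, ?_, ?_⟩
    · intro k ω ω' hh hω
      simp only [Set.mem_ofPred_eq] at hω ⊢
      rw [← hv'sh k ω ω' hh]; exact hω
    · intro k ω ω' h1 h2
      by_cases hk : k ≤ M
      · have h3 : Sk k ≤ ∑ k ∈ Finset.range (M + 1), Sk k :=
          Finset.single_le_sum (f := Sk) (fun _ _ => Nat.zero_le _)
            (Finset.mem_range.2 (by omega))
        simp only [if_pos hk]
        rw [hv'sh k ω ω' h2, hGk k ω ω' fun j a1 a2 => h1 j (by omega) a2]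
      · simp only [if_neg hk]
    · intro k hgk hkM
      obtain ⟨E, hE⟩ : ∃ E : ℕ → Set (Om b), ∀ m, E m =
          sh (m : ℤ) ⁻¹' {ω | σ ≤ ‖Vf P (u * (b : ℝ) ^ R) ω - v' ω‖} ∪
          {ω | σ ≤ ‖ee (u * (b : ℝ) ^ R * Xw m ω) * Vf P (u * (b : ℝ) ^ R) (sh m ω) -
            Vf P (u * (b : ℝ) ^ R * (b : ℝ) ^ m) ω‖} ∪
          {ω | σ ≤ ‖Vf P (u * (b : ℝ) ^ R * (b : ℝ) ^ m) ω - Gk m ω‖} := ⟨_, fun _ => rfl⟩
      have hEQ : ∀ m, Q.real (E m) ≤ 3 * (C * ρ) := by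
        intro m
        have a1 := (irr_pre hP m _).trans hv'P
        have a2 := irr_stab hb hP (u * (b : ℝ) ^ R) m hσ (hR₀ R hRR m)
        have a3 := hGkP m
        have a4 : P.real (E m) ≤ ρ + ρ + ρ := by
          rw [hE]
          exact (measureReal_union_le _ _).trans
            (add_le_add ((measureReal_union_le _ _).trans (add_le_add a1 a2)) a3)
        have a5 := hQC (E m)
        nlinarith [mul_le_mul_of_nonneg_left a4 hC]
      have hU : Q.real (⋃ i ∈ Finset.range g, E (k - i)) ≤ ε / 2 := by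
        refine (measureReal_biUnion_finset_le _ _).trans ?_
        refine (Finset.sum_le_sum fun i _ => hEQ (k - i)).trans ?_
        rw [Finset.sum_const, Finset.card_range, nsmul_eq_mul]; exact hρ1
      have hV := (irr_pre hQ ((k : ℤ) + R) _).trans hg
      refine le_trans (measureReal_mono (s₂ := sh ((k : ℤ) + R) ⁻¹'
        {ω | ∀ i : ℕ, i < g → sh (-(i : ℤ)) ω ∉ A} ∪ ⋃ i ∈ Finset.range g, E (k - i))
        (fun ω hω => ?_) (measure_ne_top _ _)) ((measureReal_union_le _ _).trans (by linarith))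
      by_contra hcon
      simp only [Set.mem_union, Set.mem_preimage, Set.mem_ofPred_eq, Set.mem_iUnion,
        Finset.mem_range, not_or, not_forall, not_exists, not_not, hE, not_le] at hcon
      obtain ⟨⟨i₀, hi₀, hiA⟩, hE'⟩ := hcon
      refine hω ⟨⟨i₀, hi₀, ?_⟩, fun i hi hG => ?_⟩
      · have a1 := hRA _ hiA
        rw [sh_sh, sh_sh] at a1
        have e1 : -(R : ℤ) + -(i₀ : ℤ) + ((k : ℤ) + R) = ((k - i₀ : ℕ) : ℤ) := by omega
        rw [e1] at a1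
        have a2 := (hE' i₀ hi₀).1.1
        have a3 := norm_sub_norm_le (Vf P (u * (b : ℝ) ^ R) (sh ((k - i₀ : ℕ) : ℤ) ω))
          (v' (sh ((k - i₀ : ℕ) : ℤ) ω))
        show κ / 2 ≤ ‖v' (sh ((k - i₀ : ℕ) : ℤ) ω)‖
        linarith
      · have hk : k - i ≤ M := by omega
        simp only [if_pos hk]
        rw [← hσ2]
        exact irr_close hκ (norm_ee _) hG (hE' i hi).1.1.le (hE' i hi).1.2.le (hE' i hi).2.le
  refine ⟨r / (b : ℚ) ^ R, ?_⟩
  have hb0 : (b : ℝ) ^ R ≠ 0 := by positivity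
  push_cast
  rw [← hr]; field_simp

end Pool.Agent.Lib.MP_c9a594_an.FS
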