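import Pool.Agent.Lib.MP_c9a594_an.FS.EntSh

/-! Invariant measures as limits of averages. -/

namespace Pool.Agent.Lib.MP_c9a594_an.FS

open MeasureTheory Filter Topology

variable {b : ℕ}

theorem lim_integrable (μ : Measure (Om b)) [IsFiniteMeasure μ] {f : Om b → ℝ}
    (hf : Continuous f) : Integrable f μ :=
  (BoundedContinuousFunction.mkOfCompact ⟨f, hf⟩).integrable μ

/-- The average of finitely many probability measures. -/
theorem lim_avg {ι : Type} (T : Finset ι) (hT : T.Nonempty) (ν : ι → Measure (Om b))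
    [∀ i, IsProbabilityMeasure (ν i)] :
    ∃ μ : ProbabilityMeasure (Om b), ∀ f : Om b → ℝ, Continuous f →
      ∫ ω, f ω ∂(μ : Measure (Om b)) = (∑ i ∈ T, ∫ ω, f ω ∂ν i) / T.card := by
  have h0 : (T.card : ENNReal) ≠ 0 := Nat.cast_ne_zero.2 hT.card_pos.ne'
  refine ⟨⟨(T.card : ENNReal)⁻¹ • ∑ i ∈ T, ν i, ⟨?_⟩⟩, fun f hf => ?_⟩
  · rw [Measure.smul_apply, Measure.finsetSum_apply]
    simp only [measure_univ, Finset.sum_const, nsmul_eq_mul, mul_one, smul_eq_mul]
    exact ENNReal.inv_mul_cancel h0 (ENNReal.natCast_ne_top _)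
  · change ∫ ω, f ω ∂((T.card : ENNReal)⁻¹ • ∑ i ∈ T, ν i) = _
    rw [integral_smul_measure, integral_finsetSum_measure fun i _ => lim_integrable _ hf,
      ENNReal.toReal_inv, ENNReal.toReal_natCast, smul_eq_mul, inv_mul_eq_div]

theorem lim_tel (u : ℕ → ℝ) (N : ℕ) :
    ∑ j ∈ Finset.range N, u (j + 1) = ∑ j ∈ Finset.range N, u j + (u N - u 0) := by
  have h1 := Finset.sum_range_succ u N
  have h2 := Finset.sum_range_succ' u N
  linarith

theorem exists_limit (ρ : ℕ → Measure (Om b)) [∀ N, IsProbabilityMeasure (ρ N)]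
    (U : Ultrafilter ℕ) (hU : (U : Filter ℕ) ≤ atTop) :
    ∃ P : Measure (Om b), IsProbabilityMeasure P ∧ Inv P ∧ ∀ f : Om b → ℝ, Continuous f →
      Tendsto (fun N : ℕ => (∑ j ∈ Finset.range N, ∫ ω, f (sh j ω) ∂ρ N) / N) U
        (𝓝 (∫ ω, f ω ∂P)) := by
  have h1 : ∀ N : ℕ, ∃ μ : ProbabilityMeasure (Om b), 1 ≤ N → ∀ f : Om b → ℝ, Continuous f →
      ∫ ω, f ω ∂(μ : Measure (Om b)) = (∑ j ∈ Finset.range N, ∫ ω, f (sh j ω) ∂ρ N) / N := by
    intro N
    by_cases hN : 1 ≤ N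
    · have : ∀ j : ℕ, IsProbabilityMeasure ((ρ N).map (sh (j : ℤ))) := fun j =>
        Measure.isProbabilityMeasure_map (measurable_sh _).aemeasurable
      obtain ⟨μ, hμ⟩ := lim_avg (Finset.range N) ⟨0, Finset.mem_range.2 hN⟩
        fun j : ℕ => (ρ N).map (sh (j : ℤ))
      refine ⟨μ, fun _ f hf => ?_⟩
      rw [hμ f hf, Finset.card_range]
      congr 1
      exact Finset.sum_congr rfl fun j _ =>
        integral_map (measurable_sh _).aemeasurable hf.aestronglyMeasurable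
    · exact ⟨⟨ρ 0, inferInstance⟩, fun h => absurd h hN⟩
  choose μ hμ using h1
  obtain ⟨P, -, hP⟩ := isCompact_univ.ultrafilter_le_nhds (U.map μ) (by simp)
  have hP' : Tendsto μ U (𝓝 P) := hP
  have h2 : ∀ f : Om b → ℝ, Continuous f →
      Tendsto (fun N : ℕ => (∑ j ∈ Finset.range N, ∫ ω, f (sh j ω) ∂ρ N) / N) U
        (𝓝 (∫ ω, f ω ∂(P : Measure (Om b)))) := by
    intro f hf
    have h3 := ProbabilityMeasure.tendsto_iff_forall_integral_tendsto.1 hP'
      (BoundedContinuousFunction.mkOfCompact ⟨f, hf⟩)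
    refine Tendsto.congr' ?_ h3
    filter_upwards [hU (eventually_ge_atTop 1)] with N hN
    exact hμ N hN f hf
  refine ⟨P, inferInstance, inv_of_one ⟨measurable_sh 1, ?_⟩, h2⟩
  have : IsProbabilityMeasure ((P : Measure (Om b)).map (sh 1)) :=
    Measure.isProbabilityMeasure_map (measurable_sh _).aemeasurable
  refine ext_of_forall_integral_eq_of_IsFiniteMeasure fun f => ?_
  rw [integral_map (measurable_sh _).aemeasurable f.continuous.aestronglyMeasurable]
  have h3 := h2 (fun ω => f (sh 1 ω)) (f.continuous.comp (continuous_sh 1))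
  have h4 := h2 f f.continuous
  have hb : ∀ (N : ℕ) (j : ℤ), |∫ ω, f (sh j ω) ∂ρ N| ≤ ‖f‖ := by
    intro N j
    have h5 := norm_integral_le_of_norm_le_const (μ := ρ N) (f := fun ω => f (sh j ω))
      (Eventually.of_forall fun ω => f.norm_coe_le_norm _)
    rwa [probReal_univ, mul_one, Real.norm_eq_abs] at h5
  have h5 : Tendsto (fun N : ℕ => (∫ ω, f (sh (N : ℕ) ω) ∂ρ N - ∫ ω, f (sh (0 : ℕ) ω) ∂ρ N) / N)
      U (𝓝 0) := by
    refine Tendsto.mono_left ?_ hU
    refine squeeze_zero_norm (a := fun N : ℕ => (2 * ‖f‖) / N) (fun N => ?_)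
      (tendsto_const_div_atTop_nhds_zero_nat _)
    rw [Real.norm_eq_abs, abs_div, Nat.abs_cast]
    refine div_le_div_of_nonneg_right ?_ (Nat.cast_nonneg _)
    have h6 := abs_sub (∫ ω, f (sh (N : ℕ) ω) ∂ρ N) (∫ ω, f (sh (0 : ℕ) ω) ∂ρ N)
    have h7 := hb N (N : ℕ)
    have h8 := hb N (0 : ℕ)
    linarith
  have h6 := h4.add h5
  rw [add_zero] at h6
  refine tendsto_nhds_unique h3 (h6.congr fun N => ?_)
  rw [← add_div, ← lim_tel (fun j : ℕ => ∫ ω, f (sh j ω) ∂ρ N) N]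
  congr 1
  refine Finset.sum_congr rfl fun j _ => ?_
  simp only [sh_sh, Nat.cast_add, Nat.cast_one, add_comm (j : ℤ) 1]

theorem lim_ind_cont (k : ℤ) (n : ℕ) (c : Fin n → Fin b) :
    Continuous ((wd k n ⁻¹' {c}).indicator (1 : Om b → ℝ)) := by
  refine continuous_of_dep (k := k) (l := k + n) fun ω ω' h => ?_
  have h1 := (wd_eq_iff k n ω ω').2 h
  simp only [Set.indicator, Set.mem_preimage, h1, Pi.one_apply]

/-- A measure on `S` that is uniform on the words. -/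
theorem lim_unif {S : Set (Om b)} (hS : S.Nonempty) (N : ℕ) :
    ∃ ρ : Measure (Om b), IsProbabilityMeasure ρ ∧
      ent ρ (wd 0 N) = Real.log (wd 0 N '' S).ncard ∧
      ∀ f : Om b → ℝ, Continuous f → (∀ ω ∈ S, f ω = 0) → ∫ ω, f ω ∂ρ = 0 := by
  classical
  obtain ⟨ω₀, h₀⟩ := hS
  have h1 : ∀ w : Fin N → Fin b, ∃ ω ∈ S, w ∈ wd 0 N '' S → wd 0 N ω = w := by
    intro w
    by_cases hw : w ∈ wd 0 N '' S
    · obtain ⟨ω, hω, e⟩ := hw
      exact ⟨ω, hω, fun _ => e⟩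
    · exact ⟨ω₀, h₀, fun h => absurd h hw⟩
  choose s hs1 hs2 using h1
  set T : Finset (Fin N → Fin b) := (wd 0 N '' S).toFinset with hT
  have hT1 : T.Nonempty := ⟨wd 0 N ω₀, Set.mem_toFinset.2 ⟨ω₀, h₀, rfl⟩⟩
  obtain ⟨μ, hμ⟩ := lim_avg T hT1 fun w => Measure.dirac (s w)
  refine ⟨μ, inferInstance, ?_, fun f hf h => ?_⟩
  · have h2 : ∀ c, (μ : Measure (Om b)).real (wd 0 N ⁻¹' {c}) =
        if c ∈ T then (T.card : ℝ)⁻¹ else 0 := by
      intro c
      rw [← integral_indicator_one (fib_wd 0 N c), hμ _ (lim_ind_cont 0 N c)]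
      have h3 : ∀ w ∈ T, ∫ ω, (wd 0 N ⁻¹' {c}).indicator (1 : Om b → ℝ) ω ∂Measure.dirac (s w) =
          if w = c then 1 else 0 := by
        intro w hw
        rw [integral_dirac]
        simp only [Set.indicator, Set.mem_preimage, hs2 w (Set.mem_toFinset.1 hw), Pi.one_apply,
          Set.mem_singleton_iff]
      rw [Finset.sum_congr rfl h3, Finset.sum_ite_eq' T c]
      split_ifs
      · rw [one_div]
      · rw [zero_div]
    have h3 : (T.card : ℝ) ≠ 0 := Nat.cast_ne_zero.2 hT1.card_pos.ne'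
    rw [Set.ncard_eq_toFinset_card', ← hT, ent]
    simp only [h2, apply_ite Real.negMulLog, Real.negMulLog_zero]
    rw [Finset.sum_ite_mem, Finset.univ_inter, Finset.sum_const, nsmul_eq_mul, Real.negMulLog,
      Real.log_inv]
    field_simp
  · rw [hμ f hf, Finset.sum_eq_zero, zero_div]
    intro w _
    rw [integral_dirac, h _ (hs1 w)]

theorem lim_step (ρ : Measure (Om b)) [IsProbabilityMeasure ρ] (n m : ℕ) :
    ent ρ (wd 0 (n + m)) ≤ ent ρ (wd 0 n) + ent ρ (wd n m) := by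
  refine le_trans (ent_le_of_det ((fib_wd 0 n).prod (fib_wd n m)) fun x y h => ?_)
    (ent_prod_le (fib_wd 0 n) (fib_wd n m))
  have h1 := (wd_eq_iff _ _ _ _).1 (congrArg Prod.fst h)
  have h2 := (wd_eq_iff _ _ _ _).1 (congrArg Prod.snd h)
  refine (wd_eq_iff _ _ _ _).2 fun j hj hj' => ?_
  by_cases h3 : j < n
  · exact h1 j hj (by omega)
  · exact h2 j (by omega) (by push_cast at hj'; omega)

theorem lim_mono (ρ : Measure (Om b)) [IsProbabilityMeasure ρ] (n m : ℕ) :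
    ent ρ (wd 0 n) ≤ ent ρ (wd 0 (n + m)) := by
  refine ent_le_of_det (fib_wd 0 (n + m)) fun x y h => ?_
  have h1 := (wd_eq_iff _ _ _ _).1 h
  exact (wd_eq_iff _ _ _ _).2 fun j hj hj' => h1 j hj (by push_cast; omega)

/-- Cutting a long word into blocks in all possible ways. -/
theorem lim_block (m : ℕ) : ∃ K : ℝ, ∀ (ρ : Measure (Om b)) [IsProbabilityMeasure ρ] (N : ℕ),
    m * ent ρ (wd 0 N) ≤ ∑ j ∈ Finset.range N, ent ρ (wd j m) + K := by
  refine ⟨∑ i ∈ Finset.range m, Real.log (Fintype.card (Fin i → Fin b)), fun ρ _ N => ?_⟩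
  have h1 : ∑ n ∈ Finset.range N, ent ρ (wd 0 (m + n)) ≤
      ∑ n ∈ Finset.range N, ent ρ (wd 0 n) + ∑ n ∈ Finset.range N, ent ρ (wd n m) := by
    rw [← Finset.sum_add_distrib]
    refine Finset.sum_le_sum fun n _ => ?_
    rw [add_comm m n]
    exact lim_step ρ n m
  have h2 := Finset.sum_range_add (fun n => ent ρ (wd 0 n)) N m
  have h3 := Finset.sum_range_add (fun n => ent ρ (wd 0 n)) m N
  rw [add_comm m N] at h3
  have h4 : ∑ i ∈ Finset.range m, ent ρ (wd 0 i) ≤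
      ∑ i ∈ Finset.range m, Real.log (Fintype.card (Fin i → Fin b)) :=
    Finset.sum_le_sum fun i _ => ent_le_log_card (fib_wd 0 i)
  have h5 : ∑ _i ∈ Finset.range m, ent ρ (wd 0 N) ≤ ∑ i ∈ Finset.range m, ent ρ (wd 0 (N + i)) :=
    Finset.sum_le_sum fun i _ => lim_mono ρ N i
  rw [Finset.sum_const, Finset.card_range, nsmul_eq_mul] at h5
  linarith

/-- Concavity of the entropy. -/
theorem lim_concave (ρ : Measure (Om b)) {N : ℕ} (hN : 1 ≤ N) (m : ℕ) :
    (∑ j ∈ Finset.range N, ent ρ (wd j m)) / N ≤ ∑ c : Fin m → Fin b, Real.negMulLog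
      ((∑ j ∈ Finset.range N, ∫ ω, (wd 0 m ⁻¹' {c}).indicator (1 : Om b → ℝ) (sh j ω) ∂ρ) / N) := by
  have hN' : (N : ℝ) ≠ 0 := Nat.cast_ne_zero.2 (by omega)
  simp only [ent]
  rw [Finset.sum_comm, Finset.sum_div]
  refine Finset.sum_le_sum fun c _ => ?_
  have h1 : ∀ j : ℕ, ∫ ω, (wd 0 m ⁻¹' {c}).indicator (1 : Om b → ℝ) (sh j ω) ∂ρ =
      ρ.real (wd j m ⁻¹' {c}) := by
    intro j
    rw [← integral_indicator_one (fib_wd j m c)]
    congr 1
    funext ω
    simp only [Set.indicator, Set.mem_preimage, wd_sh, zero_add, Pi.one_apply]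
  simp only [h1]
  have h2 := Real.concaveOn_negMulLog.le_map_sum (t := Finset.range N) (w := fun _ => (N : ℝ)⁻¹)
    (p := fun j : ℕ => ρ.real (wd j m ⁻¹' {c})) (fun _ _ => by positivity)
    (by rw [Finset.sum_const, Finset.card_range, nsmul_eq_mul, mul_inv_cancel₀ hN'])
    fun _ _ => measureReal_nonneg
  simp only [smul_eq_mul] at h2
  rwa [← Finset.mul_sum, ← Finset.mul_sum, inv_mul_eq_div, inv_mul_eq_div] at h2

/-- A forward invariant set with exponentially many words carries a measure of positive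
entropy. -/
theorem exists_posEnt (hb : 2 ≤ b) {S : Set (Om b)} (hS : ∀ ω ∈ S, sh 1 ω ∈ S) {c : ℝ}
    (hc : 0 < c) (h : ∃ᶠ N : ℕ in atTop, Real.exp (c * N) ≤ (wd 0 N '' S).ncard) :
    ∃ P : Measure (Om b), IsProbabilityMeasure P ∧ Inv P ∧ PosEnt P ∧
      ∀ f : Om b → ℝ, Continuous f → (∀ ω ∈ S, f ω = 0) → ∫ ω, f ω ∂P = 0 := by
  have hne : S.Nonempty := by
    obtain ⟨N, hN⟩ := h.exists
    by_contra h0
    rw [Set.not_nonempty_iff_eq_empty.1 h0, Set.image_empty, Set.ncard_empty, Nat.cast_zero] at hN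
    exact absurd (Real.exp_pos _) (not_lt.2 hN)
  choose ρ hρ1 hρ2 hρ3 using lim_unif hne
  have := frequently_iff_neBot.1 h
  obtain ⟨U, hU⟩ := Ultrafilter.exists_le
    (atTop ⊓ 𝓟 {N : ℕ | Real.exp (c * N) ≤ (wd 0 N '' S).ncard})
  have hU1 : (U : Filter ℕ) ≤ atTop := hU.trans inf_le_left
  have hU2 : ∀ᶠ N : ℕ in U, Real.exp (c * N) ≤ (wd 0 N '' S).ncard :=
    le_principal_iff.1 (hU.trans inf_le_right)
  obtain ⟨P, hP1, hP2, hP3⟩ := exists_limit ρ U hU1
  refine ⟨P, hP1, hP2, ⟨c, hc, fun m => ?_⟩, fun f hf h0 => ?_⟩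
  · obtain ⟨K, hK⟩ := lim_block (b := b) m
    have h1 : Tendsto (fun N : ℕ => c * m - K / N) U (𝓝 (c * m - 0)) :=
      tendsto_const_nhds.sub ((tendsto_const_div_atTop_nhds_zero_nat K).mono_left hU1)
    rw [sub_zero] at h1
    have h2 := tendsto_finsetSum (Finset.univ : Finset (Fin m → Fin b)) fun w _ =>
      (Real.continuous_negMulLog.tendsto _).comp (hP3 _ (lim_ind_cont 0 m w))
    have h3 : Hn P m = ∑ w : Fin m → Fin b, Real.negMulLog
        (∫ ω, (wd 0 m ⁻¹' {w}).indicator (1 : Om b → ℝ) ω ∂P) := by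
      rw [Hn, ent]
      exact Finset.sum_congr rfl fun w _ => by rw [integral_indicator_one (fib_wd 0 m w)]
    rw [h3]
    refine le_of_tendsto_of_tendsto h1 h2 ?_
    filter_upwards [hU1 (eventually_ge_atTop 1), hU2] with N hN hN2
    refine le_trans ?_ (lim_concave (ρ N) hN m)
    have hN' : (0 : ℝ) < N := Nat.cast_pos.2 hN
    have h4 : c * N ≤ ent (ρ N) (wd 0 N) := by
      rw [hρ2]
      exact (Real.le_log_iff_exp_le ((Real.exp_pos _).trans_le hN2)).2 hN2
    have h5 := mul_le_mul_of_nonneg_left h4 (Nat.cast_nonneg m)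
    have h6 := hK (ρ N) N
    rw [le_div_iff₀ hN', sub_mul, div_mul_cancel₀ _ hN'.ne']
    linarith
  · have h1 : ∀ (j : ℕ), ∀ ω ∈ S, sh j ω ∈ S := by
      intro j
      induction j with
      | zero => intro ω hω; rwa [Nat.cast_zero, sh_zero]
      | succ j ih =>
        intro ω hω
        rw [Nat.cast_succ, add_comm, ← sh_sh]
        exact hS _ (ih ω hω)
    refine tendsto_nhds_unique (hP3 f hf) (tendsto_const_nhds.congr fun N => ?_)
    rw [Finset.sum_eq_zero, zero_div]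
    intro j _
    exact hρ3 N _ (hf.comp (continuous_sh _)) fun ω hω => h0 _ (h1 j ω hω)

end Pool.Agent.Lib.MP_c9a594_an.FS
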