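import Pool.Agent.Lib.MP_c9a594_an.FS.Irr
import Pool.Agent.Lib.MP_c9a594_an.FS.Arith

/-! Equidistribution along the full sequence. -/

namespace Pool.Agent.Lib.MP_c9a594_an.FS

open MeasureTheory Filter Topology

variable {a b : ℕ} {P : Measure (Om b)} [IsProbabilityMeasure P]

lemma main_scale (hb : 2 ≤ b) (x : ℝ) : ∃ L : ℕ, 1 ≤ |x| →
    1 / (8 * (b : ℝ)) ≤ |x / (b : ℝ) ^ L| ∧ |x / (b : ℝ) ^ L| ≤ 1 / 8 := by
  have hb1 : (1 : ℝ) < b := by exact_mod_cast hb
  by_cases hx : 1 ≤ |x|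
  · obtain ⟨n, h1, h2⟩ := exists_nat_pow_near (x := 8 * |x|) (by linarith) hb1
    refine ⟨n + 1, fun _ => ?_⟩
    have hp : (0 : ℝ) < (b : ℝ) ^ (n + 1) := by positivity
    rw [abs_div, abs_of_pos hp]
    constructor
    · rw [div_le_div_iff₀ (by positivity) hp, pow_succ]
      nlinarith
    · rw [div_le_div_iff₀ hp (by norm_num)]
      linarith
  · exact ⟨0, fun h => absurd h hx⟩

theorem rep_of_Bf (hb : 2 ≤ b) (hP : Inv P) (hN : NoPred P) (U : Ultrafilter ℕ) {γ : ℕ → ℝ}
    {δ : ℝ} (hδ : 0 < δ) (h : ∀ᶠ n in U, δ ≤ Bf P (γ n)) : Rep U b γ := by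
  have hb1 : (1 : ℝ) < b := by exact_mod_cast hb
  obtain ⟨κ, hκ, hstep⟩ := step hb hP hN hδ
  have key : ∀ (j : ℕ) (γ : ℕ → ℝ) (c : ℝ), δ ≤ c → 1 < c + j * κ →
      (∀ᶠ n in U, c ≤ Bf P (γ n)) → Rep U b γ := by
    intro j
    induction j with
    | zero =>
      intro γ c _ hc h
      obtain ⟨n, hn⟩ := h.exists
      have := Bf_le_one P (γ n)
      simp at hc
      linarith
    | succ j ih =>
      intro γ c hδc hc h
      by_cases hbd : ∃ C : ℝ, ∀ᶠ n in U, |γ n| ≤ C
      · obtain ⟨C, hC⟩ := hbd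
        exact Rep.of_bdd hC
      have hinf : ∀ C : ℝ, ∀ᶠ n in U, C < |γ n| := fun C => by
        have h1 : ¬ ∀ᶠ n in U, |γ n| ≤ C := fun h => hbd ⟨C, h⟩
        exact (Ultrafilter.eventually_not.2 h1).mono fun n hn => not_le.1 hn
      choose L hL using fun n => main_scale hb (γ n)
      have hL' := (hinf 1).mono fun n hn => hL n hn.le
      have hLt : Tendsto L U atTop := by
        refine tendsto_atTop.2 fun R => ?_
        filter_upwards [hL', hinf ((b : ℝ) ^ R)] with n h1 h2
        have hp : (0 : ℝ) < (b : ℝ) ^ L n := by positivity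
        have h3 := h1.2
        rw [abs_div, abs_of_pos hp, div_le_div_iff₀ hp (by norm_num)] at h3
        have h4 : (b : ℝ) ^ R < (b : ℝ) ^ L n := by linarith [abs_nonneg (γ n)]
        exact ((pow_lt_pow_iff_right₀ hb1).1 h4).le
      have hK : IsCompact {x : ℝ | 1 / (8 * (b : ℝ)) ≤ |x| ∧ |x| ≤ 1 / 8} := by
        refine (isCompact_Icc (a := -(1 / 8 : ℝ)) (b := 1 / 8)).of_isClosed_subset ?_ ?_
        · exact (isClosed_le continuous_const continuous_abs).inter
            (isClosed_le continuous_abs continuous_const)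
        · exact fun x hx => abs_le.1 hx.2
      obtain ⟨r, hr, hlim⟩ := hK.ultrafilter_le_nhds (U.map fun n => γ n / (b : ℝ) ^ L n)
        (le_principal_iff.2 hL')
      have hlim' : Tendsto (fun n => γ n / (b : ℝ) ^ L n) U (𝓝 r) := hlim
      have hBc : Continuous (Bf P) := by
        refine (LipschitzWith.of_dist_le_mul (K := ⟨4 * Real.pi, by positivity⟩)
          fun v w => ?_).continuous
        exact Bf_lip (P := P) hb v w
      have hR : ∀ R : ℕ, δ ≤ Bf P (r * (b : ℝ) ^ R) := fun R => by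
        refine ge_of_tendsto ((hBc.tendsto _).comp (hlim'.mul_const ((b : ℝ) ^ R))) ?_
        filter_upwards [h, hLt.eventually_ge_atTop R] with n h1 h2
        have h3 := Bf_pow_le hb hP (γ n / (b : ℝ) ^ L n * (b : ℝ) ^ R) (L n - R)
        have h4 : γ n / (b : ℝ) ^ L n * (b : ℝ) ^ R * (b : ℝ) ^ (L n - R) = γ n := by
          rw [mul_assoc, ← pow_add, Nat.add_sub_cancel' h2]
          field_simp
        rw [h4] at h3
        exact hδc.trans (h1.trans h3)
      obtain ⟨ρ, hρ⟩ := rat_of_Bf hb hP hN hδ hR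
      obtain ⟨θ, L₀, hθ, hs⟩ := hstep r hr.1 hr.2
      subst hρ
      have hρ0 : ρ ≠ 0 := by
        rintro rfl
        have h1 := hr.1
        have h2 : (0 : ℝ) < 1 / (8 * (b : ℝ)) := by positivity
        simp only [Rat.cast_zero, abs_zero] at h1
        linarith
      refine Rep.step hb hρ0 hLt hlim' (ih _ (c + κ) (by linarith) (by push_cast at hc; linarith) ?_)
      have h5 : ∀ᶠ n in U, |γ n / (b : ℝ) ^ L n - ρ| < θ := by
        have := hlim'.eventually (Metric.ball_mem_nhds _ hθ)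
        simpa [Real.dist_eq] using this
      filter_upwards [h, h5, hLt.eventually_ge_atTop L₀] with n h1 h2 h3
      have hp : (0 : ℝ) < (b : ℝ) ^ L n := by positivity
      have h4 : |γ n - ρ * (b : ℝ) ^ L n| ≤ θ * (b : ℝ) ^ L n := by
        have : γ n - ρ * (b : ℝ) ^ L n = (γ n / (b : ℝ) ^ L n - ρ) * (b : ℝ) ^ L n := by
          field_simp
        rw [this, abs_mul, abs_of_pos hp]
        exact mul_le_mul_of_nonneg_right h2.le hp.le
      have h6 := hs (L n) h3 _ h4
      rw [add_sub_cancel] at h6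
      linarith [h6 (hδc.trans h1)]
  obtain ⟨j, hj⟩ := exists_nat_gt (1 / κ)
  rw [div_lt_iff₀ hκ] at hj
  exact key j γ δ le_rfl (by linarith) h

theorem tendsto_fourier (ha : 2 ≤ a) (hb : 2 ≤ b)
    (hab : ∀ m n : ℕ, a ^ m = b ^ n → m = 0 ∧ n = 0) (hP : Inv P) (hN : NoPred P) {l : ℤ}
    (hl : l ≠ 0) :
    Tendsto (fun n : ℕ => ∫ ω, ee ((l : ℝ) * (a : ℝ) ^ n * Yv ω) ∂P) atTop (𝓝 0) := by
  by_contra hc
  rw [NormedAddGroup.tendsto_nhds_zero] at hc
  push Not at hc
  obtain ⟨ε, hε, hf⟩ := hc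
  obtain ⟨U, hU⟩ := Ultrafilter.exists_le (atTop ⊓ 𝓟 {n : ℕ |
    ε ≤ ‖∫ ω, ee ((l : ℝ) * (a : ℝ) ^ n * Yv ω) ∂P‖}) (h := frequently_iff_neBot.1 hf)
  refine not_rep ha hb hab (hU.trans inf_le_left) hl
    (rep_of_Bf hb hP hN U (δ := ε / 2 * (ε / 2)) (by positivity) ?_)
  have h1 := le_principal_iff.1 (hU.trans inf_le_right)
  filter_upwards [h1] with n hn
  have h2 := norm_integral_ee_le (P := P) hb ((l : ℝ) * (a : ℝ) ^ n) (half_pos hε)
  have h3 : ε / 2 ≤ Bf P ((l : ℝ) * (a : ℝ) ^ n) / (ε / 2) := by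
    have h4 : ε ≤ _ := hn
    linarith
  exact (le_div_iff₀ (half_pos hε)).1 h3

theorem tendsto_equi (ha : 2 ≤ a) (hb : 2 ≤ b)
    (hab : ∀ m n : ℕ, a ^ m = b ^ n → m = 0 ∧ n = 0) (hP : Inv P) (hN : NoPred P)
    (f : C(UnitAddCircle, ℂ)) :
    Tendsto (fun n : ℕ => ∫ ω, f (a ^ n • ((Yv ω : ℝ) : UnitAddCircle)) ∂P) atTop
      (𝓝 (∫ x, f x)) := by
  have hprob : IsProbabilityMeasure (volume : Measure UnitAddCircle) :=
    ⟨UnitAddCircle.measure_univ⟩
  have hc : ∀ n : ℕ, Continuous fun ω : Om b => a ^ n • ((Yv ω : ℝ) : UnitAddCircle) := fun n =>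
    (continuous_const_smul _).comp ((AddCircle.continuous_mk' 1).comp (continuous_Yv hb))
  have hi : ∀ (g : C(UnitAddCircle, ℂ)) (n : ℕ),
      Integrable (fun ω : Om b => g (a ^ n • ((Yv ω : ℝ) : UnitAddCircle))) P := fun g n =>
    (g.continuous.comp (hc n)).integrable_of_hasCompactSupport (HasCompactSupport.of_compactSpace _)
  have hi' : ∀ g : C(UnitAddCircle, ℂ), Integrable g := fun g =>
    g.continuous.integrable_of_hasCompactSupport (HasCompactSupport.of_compactSpace _)
  have hspan : ∀ g ∈ Submodule.span ℂ (Set.range (@fourier 1)),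
      Tendsto (fun n : ℕ => ∫ ω, g (a ^ n • ((Yv ω : ℝ) : UnitAddCircle)) ∂P) atTop
        (𝓝 (∫ x, g x)) := by
    intro g hg
    induction hg using Submodule.span_induction with
    | mem g hg =>
      obtain ⟨l, rfl⟩ := hg
      by_cases hl : l = 0
      · subst hl
        simp
      · have h0 : ∫ x : UnitAddCircle, fourier l x = 0 := by
          have h1 := congrFun (fourierCoeff_fourier (T := 1) l) 0
          rw [Pi.single_eq_of_ne (Ne.symm hl), fourierCoeff, AddCircle.integral_haarAddCircle] at h1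
          simpa using h1
        rw [h0]
        refine (tendsto_fourier ha hb hab hP hN hl).congr fun n => ?_
        refine integral_congr_ae (Eventually.of_forall fun ω => ?_)
        simp only
        rw [← AddCircle.coe_nsmul, fourier_coe_apply, ee]
        congr 1
        simp only [nsmul_eq_mul]
        push_cast
        ring
    | zero => simp
    | add g g' _ _ h1 h2 =>
      simp only [ContinuousMap.add_apply, integral_add (hi g _) (hi g' _),
        integral_add (hi' g) (hi' g')]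
      exact h1.add h2
    | smul c g _ h1 =>
      simp only [ContinuousMap.smul_apply, integral_smul]
      exact h1.const_smul c
  rw [Metric.tendsto_nhds]
  intro ε hε
  have hf : f ∈ closure (Submodule.span ℂ (Set.range (@fourier 1)) : Set C(UnitAddCircle, ℂ)) := by
    rw [← Submodule.topologicalClosure_coe, span_fourier_closure_eq_top]
    trivial
  obtain ⟨g, hg, hfg⟩ := Metric.mem_closure_iff.1 hf (ε / 3) (by positivity)
  filter_upwards [Metric.tendsto_nhds.1 (hspan g hg) (ε / 3) (by positivity)] with n hn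
  have h1 : dist (∫ ω, f (a ^ n • ((Yv ω : ℝ) : UnitAddCircle)) ∂P)
      (∫ ω, g (a ^ n • ((Yv ω : ℝ) : UnitAddCircle)) ∂P) ≤ dist f g := by
    rw [dist_eq_norm, ← integral_sub (hi f n) (hi g n)]
    refine (norm_integral_le_of_norm_le_const (C := dist f g)
      (Eventually.of_forall fun ω => ?_)).trans (by simp)
    rw [← dist_eq_norm]
    exact ContinuousMap.dist_apply_le_dist _
  have h2 : dist (∫ x, g x) (∫ x, f x) ≤ dist f g := by
    rw [dist_comm, dist_eq_norm, ← integral_sub (hi' f) (hi' g)]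
    refine (norm_integral_le_of_norm_le_const (C := dist f g)
      (Eventually.of_forall fun x => ?_)).trans (by simp)
    rw [← dist_eq_norm]
    exact ContinuousMap.dist_apply_le_dist _
  have h3 := dist_triangle4 (∫ ω, f (a ^ n • ((Yv ω : ℝ) : UnitAddCircle)) ∂P)
    (∫ ω, g (a ^ n • ((Yv ω : ℝ) : UnitAddCircle)) ∂P) (∫ x, g x) (∫ x, f x)
  linarith

end Pool.Agent.Lib.MP_c9a594_an.FS
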