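import Pool.Agent.Lib.MP_c9a594_an.FS.Arith

/-! A lower bound for sums of monomials in two independent integers. -/

namespace Pool.Agent.Lib.MP_c9a594_an.FS

open Filter Topology Finset Pool.Agent.Subspace

variable {U : Ultrafilter ℕ} {a b : ℕ}

lemma ta_ctx {K Pl : Type} [Field K] [CharZero K] [Fintype Pl] (X : Ctx K Pl) {s : Set K}
    (hs : s.Finite) (hy : ∀ y ∈ s, y ∈ X.O ∧ ∑ v, X.ord v y = 0) {x z : K} (hx : x ∈ X.O)
    (hx0 : ∑ v, X.ord v x = 0) (hxs : x ∉ Submodule.span ℚ s) {c : ℚ} (hc : c ≠ 0)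
    (hz : z - c • x ∈ Submodule.span ℚ s) (hzO : z ∈ X.O) (v0 : Pl) :
    X.ord v0 x ≤ X.ord v0 z := by
  classical
  obtain ⟨t, hts, hspan, hli⟩ := exists_linearIndependent ℚ s
  have : Fintype t := (hs.subset hts).fintype
  have hzs : z ∉ Submodule.span ℚ s := fun h => hxs (by
    have h1 := Submodule.smul_mem _ c⁻¹ (Submodule.sub_mem _ h hz)
    rwa [sub_sub_cancel, inv_smul_smul₀ hc] at h1)
  let f : K → Option t → K := fun u o => Option.casesOn' o u (↑)
  have hf : ∀ u, u ∉ Submodule.span ℚ s → LinearIndependent ℚ (f u) := fun u hu =>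
    hli.option (by rwa [Subtype.range_coe, hspan])
  let e : Fin (Fintype.card (Option t)) ≃ Option t := (Fintype.equivFin _).symm
  have hO : ∀ u ∈ X.O, ∀ o, f u o ∈ X.O := by
    rintro u hu (_ | o)
    exacts [hu, (hy _ (hts o.2)).1]
  have hle : Submodule.span ℚ s ≤ Submodule.span ℚ (Set.range (f x ∘ e)) := by
    rw [← hspan]
    exact Submodule.span_mono fun y hy' => ⟨e.symm (some ⟨y, hy'⟩), by simp [f]⟩
  have hxm : x ∈ Submodule.span ℚ (Set.range (f x ∘ e)) :=
    Submodule.subset_span ⟨e.symm none, by simp [f]⟩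
  have h := X.sub _ (f x ∘ e) (fun v => f (if v = v0 then z else x) ∘ e) (fun i => hO x hx _)
    (fun v i => hO _ (by split_ifs; exacts [hzO, hx]) _) ((hf x hxs).comp e e.injective)
    (fun v => (hf _ (by split_ifs; exacts [hzs, hxs])).comp e e.injective) (fun v i => by
      simp only [Function.comp_apply]
      rcases e i with _ | o
      · simp only [f, Option.casesOn'_none]
        split_ifs
        · have h1 := Submodule.add_mem _ (hle hz) (Submodule.smul_mem _ c hxm)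
          rwa [sub_add_cancel] at h1
        · exact hxm
      · exact hle (Submodule.subset_span (hts o.2)))
  have h1 : ∀ v, ∑ i, X.ord v ((f (if v = v0 then z else x) ∘ e) i) =
      X.ord v (if v = v0 then z else x) + ∑ o : t, X.ord v o := fun v => by
    rw [show ∑ i, X.ord v ((f (if v = v0 then z else x) ∘ e) i) =
      ∑ o, X.ord v (f (if v = v0 then z else x) o) from
        e.sum_comp fun o => X.ord v (f (if v = v0 then z else x) o), Fintype.sum_option]
    rfl
  simp only [h1, sum_add_distrib] at h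
  rw [sum_comm, sum_eq_zero (fun (o : t) _ => (hy _ (hts o.2)).2), add_zero,
    ← add_sum_erase _ _ (mem_univ v0), if_pos rfl,
    sum_congr rfl fun v hv => by rw [if_neg (ne_of_mem_erase hv)]] at h
  rw [← add_sum_erase _ _ (mem_univ v0)] at hx0
  linarith

lemma ta_notMem (ha : 2 ≤ a) (hb : 2 ≤ b) (hab : ∀ k l : ℕ, 0 < k → 0 < l → a ^ k ≠ b ^ l)
    {J : Type} (γ : J → ℕ → ℤ × ℤ) (j0 : J) (hcl : ∀ j, γ j - γ j0 ∈ stdE U → j = j0) :
    gm U a b (γ j0) ∉ Submodule.span ℚ ((fun j => gm U a b (γ j)) '' {j | j ≠ j0}) := by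
  let R : Setoid J := ⟨fun i j => γ i - γ j ∈ stdE U, fun i => by simp,
    fun h => by simpa using neg_mem h, fun h h' => by simpa using add_mem h h'⟩
  have hi := gm_independent (U := U) ha hb hab (fun r : Quotient R => γ r.out) fun r r' h => by
    rw [← r.out_eq, ← r'.out_eq]
    exact Quotient.sound h
  have h0 : (Quotient.mk R j0).out = j0 := hcl _ (Quotient.mk_out (s := R) j0)
  intro hmem
  apply hi.notMem_span_image (s := {r | r ≠ Quotient.mk R j0}) (x := Quotient.mk R j0) (by simp)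
  simp only [h0]
  refine Submodule.span_le.2 ?_ hmem
  rintro _ ⟨j, hj, rfl⟩
  obtain ⟨c, hc⟩ : γ j - γ (Quotient.mk R j).out ∈ stdE U := R.symm (Quotient.mk_out (s := R) j)
  have h1 : gm U a b (γ j) =
      ((a : ℚ) ^ c.1 * (b : ℚ) ^ c.2) • gm U a b (γ (Quotient.mk R j).out) := by
    rw [gm, gm, germ_smul, germ_eq]
    filter_upwards [hc] with n hn
    have h2 : γ j n = c + γ (Quotient.mk R j).out n := by rw [← hn]; simp
    rw [h2, Prod.fst_add, Prod.snd_add, zpow_add₀ (by exact_mod_cast by omega),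
      zpow_add₀ (by exact_mod_cast by omega)]
    ring
  simp only [SetLike.mem_coe, h1]
  exact Submodule.smul_mem _ _ (Submodule.subset_span
    ⟨Quotient.mk R j, fun e => hj (hcl j (Quotient.exact e)), rfl⟩)

/-- A sum of monomials is not exponentially smaller than a term that is alone in its class. -/
theorem ta_sum (ha : 2 ≤ a) (hb : 2 ≤ b) (hab : ∀ k l : ℕ, 0 < k → 0 < l → a ^ k ≠ b ^ l)
    {J : Type} [Fintype J] (α β : J → ℕ → ℕ) (c : J → ℚ) (j0 : J) (hc : c j0 ≠ 0)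
    (hcl : ∀ j, (∃ u v : ℤ, ∀ᶠ n in U, (α j n : ℤ) - α j0 n = u ∧ (β j n : ℤ) - β j0 n = v) →
      j = j0)
    {q : ℕ → ℝ} (hq : Tendsto q U atTop) {T d r : ℝ} (hr : r < d)
    (ht : ∀ j, ∀ᶠ n in U, (α j n : ℝ) ≤ T * q n ∧ (β j n : ℝ) ≤ T * q n)
    (h0 : ∀ᶠ n in U, (a : ℝ) ^ α j0 n * (b : ℝ) ^ β j0 n = Real.exp (d * q n))
    (hz : ∀ᶠ n in U, |∑ j, (c j : ℝ) * ((a : ℝ) ^ α j n * (b : ℝ) ^ β j n)| ≤
      Real.exp (r * q n)) : False := by
  classical
  have ha0 : a ≠ 0 := by omega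
  have hb0 : b ≠ 0 := by omega
  obtain ⟨D, hD⟩ := IsLocalization.exist_integer_multiples_of_finite (nonZeroDivisors ℤ) c
  choose p hp using hD
  have D0 : ((D : ℤ) : ℚ) ≠ 0 := Int.cast_ne_zero.2 (nonZeroDivisors.coe_ne_zero D)
  have hp' : ∀ j, (p j : ℚ) = ((D : ℤ) : ℚ) * c j := fun j => by
    have := hp j
    rwa [eq_intCast, zsmul_eq_mul] at this
  let γ : J → ℕ → ℤ × ℤ := fun j n => (α j n, β j n)
  let Z : ℕ → ℤ := fun n => ∑ j, p j * ((a : ℤ) ^ α j n * (b : ℤ) ^ β j n)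
  have htame : ∀ j, γ j ∈ tameE U q := fun j => ⟨T, (ht j).mono fun n hn => by
    simp only [γ, Prod.norm_def, Int.norm_natCast]
    exact max_le hn.1 hn.2⟩
  have hnot := ta_notMem (U := U) ha hb hab γ j0 fun j ⟨w, hw⟩ => hcl j ⟨w.1, w.2,
    hw.mono fun n hn => by rw [← hn]; simp [γ]⟩
  have hZ : germ U (fun n => (Z n : ℚ)) = ∑ j, (p j : ℚ) • gm U a b (γ j) := by
    simp only [gm, germ_smul, germ_sum]
    congr 1
    ext n
    simp [Z, γ]
  have hp0 : (p j0 : ℚ) ≠ 0 := by rw [hp']; exact mul_ne_zero D0 hc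
  have hmem : germ U (fun n => (Z n : ℚ)) - (p j0 : ℚ) • gm U a b (γ j0) ∈
      Submodule.span ℚ ((fun j => gm U a b (γ j)) '' {j | j ≠ j0}) := by
    rw [hZ, ← add_sum_erase _ _ (mem_univ j0), add_sub_cancel_left]
    exact Submodule.sum_mem _ fun j hj => Submodule.smul_mem _ _
      (Submodule.subset_span ⟨j, ne_of_mem_erase hj, rfl⟩)
  have hne : ∀ᶠ n in U, Z n ≠ 0 := by
    refine Ultrafilter.eventually_not.2 fun h => hnot ?_
    have h1 : germ U (fun n => (Z n : ℚ)) = 0 :=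
      germ_eq_zero.2 (h.mono fun n hn => by simp [hn])
    have h2 := Submodule.smul_mem _ (-(p j0 : ℚ)⁻¹) hmem
    rwa [h1, zero_sub, smul_neg, neg_smul, neg_neg, inv_smul_smul₀ hp0] at h2
  have hbd : ∀ᶠ n in U, |(Z n : ℝ)| ≤ Real.exp ((r + d) / 2 * q n) := by
    filter_upwards [hz, (hq.const_mul_atTop (r := (d - r) / 2)
      (by linarith)).eventually_ge_atTop |((D : ℤ) : ℝ)|] with n h1 h2
    have h3 : (Z n : ℝ) =
        ((D : ℤ) : ℝ) * ∑ j, (c j : ℝ) * ((a : ℝ) ^ α j n * (b : ℝ) ^ β j n) := by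
      rw [mul_sum]
      simp only [Z]
      push_cast
      refine sum_congr rfl fun j _ => ?_
      have h4 : (p j : ℝ) = ((D : ℤ) : ℝ) * c j := by exact_mod_cast hp' j
      rw [h4, mul_assoc]
    rw [h3, abs_mul, show (r + d) / 2 * q n = (d - r) / 2 * q n + r * q n by ring, Real.exp_add]
    refine mul_le_mul (h2.trans ?_) h1 (abs_nonneg _) (Real.exp_pos _).le
    linarith [Real.add_one_le_exp ((d - r) / 2 * q n)]
  have hS : ∀ p ∈ (a * b).primeFactors, p.Prime := fun p => Nat.prime_of_mem_primeFactors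
  have hωS : ∀ p, p.Prime → p ∣ a * b → p ∈ (a * b).primeFactors := fun p hp h =>
    Nat.mem_primeFactors.mpr ⟨hp, h, mul_ne_zero ha0 hb0⟩
  have hZO : germ U (fun n => (Z n : ℚ)) ∈ tameO U q (a * b) := int_mem hq (hne.and hbd)
  have h1 := ta_ctx (ctxU hS hq (mul_ne_zero ha0 hb0) hωS) ((Set.toFinite _).image _)
    (by
      rintro _ ⟨j, -, rfl⟩
      exact ⟨gm_mem ha0 hb0 (htame j), sum_ordU_gm hq ha0 hb0 hωS (htame j)⟩)
    (gm_mem ha0 hb0 (htame j0)) (sum_ordU_gm hq ha0 hb0 hωS (htame j0)) hnot hp0 hmem hZO none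
  have h2 : ordU U hS q none (germ U fun n => (Z n : ℚ)) ≤ (r + d) / 2 :=
    ordU_le hq (mul_ne_zero ha0 hb0) hZO none (hbd.mono fun n hn => by rwa [plAbs_none_int])
  have h3 : ordU U hS q none (gm U a b (γ j0)) = d := by
    refine ordU_eq (tendsto_const_nhds.congr' ?_)
    filter_upwards [h0, hq.eventually_gt_atTop 0] with n hn hqn
    rw [rate, plAbs_none]
    simp only [γ, zpow_natCast]
    push_cast
    rw [hn, abs_of_pos (Real.exp_pos _), Real.log_exp, mul_div_cancel_right₀ _ hqn.ne']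
  have h4 : ordU U hS q none (gm U a b (γ j0)) ≤ ordU U hS q none (germ U fun n => (Z n : ℚ)) := h1
  linarith

end Pool.Agent.Lib.MP_c9a594_an.FS
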