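import Pool.Agent.Lib.MP_c9a594_an.FS.TwoAlgA

/-! No finite expansions in two bases with an algebraic ratio. -/

namespace Pool.Agent.Lib.MP_c9a594_an.FS

open Filter Topology Finset

variable {U : Ultrafilter ℕ} {a b : ℕ}

lemma ta_le_of_pow {d m : ℕ} (hd : 2 ≤ d) {κ q : ℝ} (h : (d : ℝ) ^ m ≤ κ * Real.exp q)
    (hκ : κ ≤ q) : (m : ℝ) ≤ 4 * q := by
  have h1 : Real.exp (1 / 2) ≤ d := by
    have h2 : (2 : ℝ) ≤ d := by exact_mod_cast hd
    have h3 : Real.exp (1 / 2) * Real.exp (1 / 2) < 4 := by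
      rw [← Real.exp_add, add_halves]
      linarith [Real.exp_one_lt_d9]
    nlinarith [Real.exp_pos (1 / 2 : ℝ)]
  have h4 : Real.exp (m * (1 / 2)) ≤ Real.exp (q + q) := by
    rw [Real.exp_nat_mul, Real.exp_add]
    refine (pow_le_pow_left₀ (Real.exp_pos _).le h1 m).trans (h.trans ?_)
    exact mul_le_mul_of_nonneg_right (by linarith [Real.add_one_le_exp q]) (Real.exp_pos _).le
  have := Real.exp_le_exp.1 h4
  linarith

lemma ta_hom (F : Polynomial ℚ) {θ A B E G : ℝ} {e : ℕ} (he : F.natDegree = e + 1)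
    (hF : Polynomial.aeval θ F = 0) (hE : |B - θ * A| ≤ E) (hG : 1 ≤ G) (hA : |A| ≤ G)
    (hB : |B| ≤ G) (hθ : |θ * A| ≤ G) :
    |∑ i ∈ range (e + 2), (F.coeff i : ℝ) * (B ^ i * A ^ (e + 1 - i))| ≤
      (∑ i ∈ range (e + 2), |(F.coeff i : ℝ)| * (E * i)) * G ^ e := by
  have h0 : ∑ i ∈ range (e + 2), (F.coeff i : ℝ) * ((θ * A) ^ i * A ^ (e + 1 - i)) = 0 := by
    rw [Polynomial.aeval_eq_sum_range, he] at hF
    have h1 : ∑ i ∈ range (e + 2), (F.coeff i : ℝ) * ((θ * A) ^ i * A ^ (e + 1 - i)) =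
        (∑ i ∈ range (e + 1 + 1), F.coeff i • θ ^ i) * A ^ (e + 1) := by
      rw [sum_mul]
      refine sum_congr rfl fun i hi => ?_
      have h2 : A ^ (e + 1) = A ^ i * A ^ (e + 1 - i) := by
        rw [← pow_add]
        congr 1
        have := mem_range.1 hi
        omega
      rw [h2, Rat.smul_def, mul_pow]
      ring
    rw [h1, hF, zero_mul]
  have hE0 : 0 ≤ E := (abs_nonneg _).trans hE
  rw [← sub_zero (∑ i ∈ range (e + 2), (F.coeff i : ℝ) * (B ^ i * A ^ (e + 1 - i))), ← h0,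
    ← sum_sub_distrib, sum_mul]
  refine (abs_sum_le_sum_abs _ _).trans (sum_le_sum fun i hi => ?_)
  rw [← mul_sub, ← sub_mul, abs_mul, abs_mul, mul_assoc]
  refine mul_le_mul_of_nonneg_left ?_ (abs_nonneg _)
  rcases i with _ | i
  · simp
  · have hi' : i ≤ e := by
      have := mem_range.1 hi
      omega
    have h1 := abs_pow_sub_pow_le (a := B) (b := θ * A) (n := i + 1)
    have h2 : max |B| |θ * A| ^ (i + 1 - 1) ≤ G ^ i :=
      pow_le_pow_left₀ (le_max_of_le_left (abs_nonneg _)) (max_le hB hθ) _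
    have h3 : |A ^ (e + 1 - (i + 1))| ≤ G ^ (e - i) := by
      rw [abs_pow, Nat.add_sub_add_right]
      exact pow_le_pow_left₀ (abs_nonneg _) hA _
    have h4 : G ^ e = G ^ i * G ^ (e - i) := by
      rw [← pow_add, Nat.add_sub_cancel' hi']
    rw [h4, ← mul_assoc]
    refine mul_le_mul (h1.trans ?_) h3 (abs_nonneg _) (by positivity)
    exact mul_le_mul (mul_le_mul_of_nonneg_right hE (by positivity)) h2 (by positivity)
      (by positivity)

theorem ta_not_rep (ha : 2 ≤ a) (hb : 2 ≤ b) (hab : ∀ m n : ℕ, a ^ m = b ^ n → m = 0 ∧ n = 0)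
    {γ : ℕ → ℝ} (hγ : Tendsto (fun n => |γ n|) U atTop) {θ : ℝ} (hθ0 : θ ≠ 0)
    (hθ : IsAlgebraic ℚ θ) (h1 : Rep U a γ) (h2 : Rep U b fun n => θ * γ n) : False := by
  classical
  obtain ⟨K, r, L, C, -, hL, -, hD, hC⟩ := h1
  obtain ⟨K', s, M, C', hs, hM, hsep, -, hC'⟩ := h2
  obtain ⟨F, hF0, hF⟩ := hθ
  obtain ⟨e, he⟩ : ∃ e, F.natDegree = e + 1 :=
    Nat.exists_eq_succ_of_ne_zero (Polynomial.natDegree_pos_of_aeval_root hF0 hF
      fun x hx => by simpa using hx).ne'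
  have hθ' : 0 < |θ| := abs_pos.2 hθ0
  have hb1 : (1 : ℝ) < b := by exact_mod_cast hb
  obtain rfl | hK := Nat.eq_zero_or_pos K'
  · obtain ⟨n, h4, h5⟩ := (hC'.and (hγ.eventually_gt_atTop (C' / |θ|))).exists
    rw [div_lt_iff₀ hθ'] at h5
    simp only [Finset.univ_eq_empty, Finset.sum_empty, sub_zero, abs_mul] at h4
    nlinarith
  let o : Fin K' := ⟨0, hK⟩
  let q : ℕ → ℝ := fun n => M o n * Real.log b
  have hq : Tendsto q U atTop :=
    (tendsto_natCast_atTop_atTop.comp (hM o)).atTop_mul_const (Real.log_pos hb1)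
  have hexp : ∀ n, Real.exp (q n) = (b : ℝ) ^ M o n := fun n => by
    simp only [q]
    rw [Real.exp_nat_mul, Real.exp_log (by linarith)]
  have hgap : ∀ j, j ≠ o → ∀ m : ℕ, ∀ᶠ n in U, M j n + m < M o n := fun j hj m => by
    have h3 : o < j := lt_of_le_of_ne (Nat.zero_le _) hj.symm
    filter_upwards [(hsep o j h3).eventually_lt_const
      (by positivity : (0 : ℝ) < ((b : ℝ) ^ m)⁻¹)] with n hn
    rw [div_lt_iff₀ (by positivity), inv_mul_eq_div, lt_div_iff₀ (by positivity), ← pow_add] at hn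
    exact (pow_lt_pow_iff_right₀ hb1).1 hn
  have hMle : ∀ᶠ n in U, ∀ j, M j n ≤ M o n := eventually_all.2 fun j => by
    by_cases hj : j = o
    · simp [hj]
    · exact (hgap j hj 0).mono fun n hn => by omega
  have hbM : ∀ᶠ n in U, ∀ j, (b : ℝ) ^ M j n ≤ Real.exp (q n) := hMle.mono fun n hn j => by
    rw [hexp]
    exact pow_le_pow_right₀ hb1.le (hn j)
  have hq0 : ∀ᶠ n in U, 1 ≤ Real.exp (q n) :=
    (hq.eventually_ge_atTop 0).mono fun n hn => Real.one_le_exp hn
  have hBle : ∀ᶠ n in U, |∑ j, (s j : ℝ) * (b : ℝ) ^ M j n| ≤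
      (∑ j, |(s j : ℝ)|) * Real.exp (q n) := hbM.mono fun n hn => by
    rw [sum_mul]
    refine (abs_sum_le_sum_abs _ _).trans (sum_le_sum fun j _ => ?_)
    rw [abs_mul, abs_of_pos (by positivity : (0 : ℝ) < (b : ℝ) ^ M j n)]
    exact mul_le_mul_of_nonneg_left (hn j) (abs_nonneg _)
  obtain ⟨κ, hκ0, hκ⟩ : ∃ κ : ℝ, 0 ≤ κ ∧ ∀ᶠ n in U, |γ n| ≤ κ * Real.exp (q n) := by
    refine ⟨(|C'| + ∑ j, |(s j : ℝ)|) / |θ|, by positivity, ?_⟩
    filter_upwards [hC', hBle, hq0] with n h3 h4 h5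
    rw [div_mul_eq_mul_div, le_div_iff₀ hθ', mul_comm, ← abs_mul, add_mul]
    have h6 := abs_sub_abs_le_abs_sub (θ * γ n) (∑ j, (s j : ℝ) * (b : ℝ) ^ M j n)
    nlinarith [le_abs_self C', abs_nonneg C']
  let m1 : Fin K ⊕ Fin K' → ℕ → ℕ := fun c n => c.elim (fun k => L k n) fun _ => 0
  let m2 : Fin K ⊕ Fin K' → ℕ → ℕ := fun c n => c.elim (fun _ => 0) fun j => M j n
  have hm : ∀ c, ∀ᶠ n in U, (m1 c n : ℝ) ≤ 4 * q n ∧ (m2 c n : ℝ) ≤ 4 * q n := by
    rintro (k | j)
    · obtain ⟨D, hD⟩ := hD k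
      filter_upwards [hD, hκ, hq.eventually_ge_atTop (|D| * κ), hq.eventually_ge_atTop 0]
        with n h3 h4 h5 h6
      refine ⟨ta_le_of_pow ha (h3.trans ?_) h5, by simpa [m2] using h6⟩
      rw [mul_assoc]
      exact mul_le_mul (le_abs_self D) h4 (abs_nonneg _) (abs_nonneg _)
    · filter_upwards [hbM, hq.eventually_ge_atTop 1] with n h3 h4
      exact ⟨by simp [m1]; linarith, ta_le_of_pow hb (κ := 1) (by simpa [m2] using h3 j) h4⟩
  let w : ℕ → Fin (e + 1) → Fin K ⊕ Fin K' → ℚ := fun i t c =>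
    c.elim (fun k => if (t : ℕ) < i then 0 else r k) fun j => if (t : ℕ) < i then s j else 0
  let G : ℝ := 1 + (1 + |θ|) * (κ + |C|) + ∑ j, |(s j : ℝ)|
  let E : ℝ := C' + |θ| * C
  refine ta_sum (U := U) ha hb (fun k m hk _ e => hk.ne' (hab k m e).1)
    (J := Fin (e + 1) → Fin K ⊕ Fin K') (fun p n => ∑ t, m1 (p t) n) (fun p n => ∑ t, m2 (p t) n)
    (fun p => ∑ i ∈ range (e + 2), F.coeff i * ∏ t, w i t (p t)) (fun _ => Sum.inr o) ?_ ?_ hq
    (T := (e + 1 : ℕ) * 4) (d := (e + 1 : ℕ)) (r := e + 1 / 2) (by push_cast; linarith) ?_ ?_ ?_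
  · rw [sum_range_succ, sum_eq_zero, zero_add]
    · refine mul_ne_zero ?_ (prod_ne_zero_iff.2 fun t _ => ?_)
      · rw [← he]
        exact Polynomial.leadingCoeff_ne_zero.2 hF0
      · simp only [w, Sum.elim_inr, if_pos t.2]
        exact hs o
    · intro i hi
      rw [prod_eq_zero (mem_univ ⟨i, mem_range.1 hi⟩) (by simp [w]), mul_zero]
  · rintro p ⟨u, v, h⟩
    funext t
    by_contra hne
    rcases hpt : p t with k | j
    · obtain ⟨n, ⟨h3, -⟩, h4⟩ := (h.and ((hL k).eventually_gt_atTop u.toNat)).exists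
      have h5 : m1 (p t) n ≤ ∑ t, m1 (p t) n :=
        single_le_sum (f := fun t => m1 (p t) n) (fun _ _ => Nat.zero_le _) (mem_univ t)
      have h6 : m1 (p t) n = L k n := by simp [m1, hpt]
      have h7 : ∑ _t : Fin (e + 1), m1 (Sum.inr o) n = 0 := by simp [m1]
      rw [h7] at h3
      omega
    · have hj : j ≠ o := fun e => hne (by rw [hpt, e])
      obtain ⟨n, ⟨⟨-, h3⟩, h4⟩, h5⟩ := ((h.and (hgap j hj v.natAbs)).and hMle).exists
      have h6 : ∀ t', m2 (p t') n ≤ m2 (Sum.inr o) n := fun t' => by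
        rcases p t' with k | j'
        · simp [m2]
        · simpa [m2] using h5 j'
      have h7 : m2 (p t) n + v.natAbs < m2 (Sum.inr o) n := by simpa [m2, hpt] using h4
      have h8 : ∑ t' ∈ univ.erase t, m2 (p t') n ≤ ∑ _t' ∈ univ.erase t, m2 (Sum.inr o) n :=
        sum_le_sum fun t' _ => h6 t'
      rw [← add_sum_erase _ _ (mem_univ t),
        ← add_sum_erase _ (fun _ => m2 (Sum.inr o) n) (mem_univ t)] at h3
      omega
  · intro p
    filter_upwards [eventually_all.2 fun t => hm (p t)] with n hn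
    push_cast
    constructor
    · refine (sum_le_sum fun t _ => (hn t).1).trans (le_of_eq ?_)
      simp
      ring
    · refine (sum_le_sum fun t _ => (hn t).2).trans (le_of_eq ?_)
      simp
      ring
  · refine Eventually.of_forall fun n => ?_
    rw [Real.exp_nat_mul, hexp, ← pow_mul]
    simp [m1, m2, mul_comm]
  · filter_upwards [hC, hC', hBle, hκ, hq0, (hq.const_mul_atTop (r := 1 / 2)
      (by norm_num)).eventually_ge_atTop
        ((∑ i ∈ range (e + 2), |(F.coeff i : ℝ)| * (E * i)) * G ^ e)] with n h3 h4 h5 h6 h7 h8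
    set A := ∑ k, (r k : ℝ) * (a : ℝ) ^ L k n with hA
    set B := ∑ j, (s j : ℝ) * (b : ℝ) ^ M j n with hB
    have hsum : ∑ p : Fin (e + 1) → Fin K ⊕ Fin K',
        ((∑ i ∈ range (e + 2), F.coeff i * ∏ t, w i t (p t) : ℚ) : ℝ) *
          ((a : ℝ) ^ (∑ t, m1 (p t) n) * (b : ℝ) ^ (∑ t, m2 (p t) n)) =
        ∑ i ∈ range (e + 2), (F.coeff i : ℝ) * (B ^ i * A ^ (e + 1 - i)) := by
      push_cast
      simp only [sum_mul]
      rw [sum_comm]
      refine sum_congr rfl fun i hi => ?_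
      have hi' : i ≤ e + 1 := Nat.lt_succ_iff.1 (mem_range.1 hi)
      have h9 : ∀ t : Fin (e + 1), ∑ c, (w i t c : ℝ) * ((a : ℝ) ^ m1 c n * (b : ℝ) ^ m2 c n) =
          if (t : ℕ) < i then B else A := fun t => by
        split_ifs with ht <;> simp [w, m1, m2, ht, hA, hB]
      have h10 : ∏ t : Fin (e + 1), (if (t : ℕ) < i then B else A) = B ^ i * A ^ (e + 1 - i) := by
        rw [Fin.prod_univ_eq_prod_range (fun t => if t < i then B else A),
          ← prod_range_mul_prod_Ico _ hi', prod_congr rfl fun t ht => if_pos (mem_range.1 ht),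
          prod_congr rfl fun t ht => if_neg (not_lt.2 (mem_Ico.1 ht).1)]
        simp
      rw [← h10, ← prod_congr rfl fun t _ => h9 t, Fintype.prod_sum, mul_sum]
      refine sum_congr rfl fun p _ => ?_
      rw [prod_mul_distrib, prod_mul_distrib, prod_pow_eq_pow_sum, prod_pow_eq_pow_sum, mul_assoc]
    rw [hsum]
    have hs0 : 0 ≤ ∑ j, |(s j : ℝ)| := by positivity
    have hA1 : |A| ≤ (κ + |C|) * Real.exp (q n) := by
      have h9 := abs_sub_abs_le_abs_sub A (γ n)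
      rw [abs_sub_comm] at h9
      nlinarith [le_abs_self C, abs_nonneg C]
    have hx : 0 ≤ (κ + |C|) * Real.exp (q n) := by positivity
    have hG : G * Real.exp (q n) = Real.exp (q n) + (κ + |C|) * Real.exp (q n) +
        |θ| * ((κ + |C|) * Real.exp (q n)) + (∑ j, |(s j : ℝ)|) * Real.exp (q n) := by
      simp only [G]
      ring
    have hy : 0 ≤ |θ| * ((κ + |C|) * Real.exp (q n)) := by positivity
    have hw : 0 ≤ (∑ j, |(s j : ℝ)|) * Real.exp (q n) := by positivity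
    have h9 := ta_hom F (A := A) (B := B) (E := E) (G := G * Real.exp (q n)) he hF
      (by
        rw [show B - θ * A = -(θ * γ n - B) + θ * (γ n - A) by ring]
        refine (abs_add_le _ _).trans ?_
        rw [abs_neg, abs_mul]
        exact add_le_add h4 (mul_le_mul_of_nonneg_left h3 (abs_nonneg _)))
      (by linarith) (by linarith) (by linarith)
      (by
        rw [abs_mul]
        linarith [mul_le_mul_of_nonneg_left hA1 (abs_nonneg θ)])
    refine h9.trans ?_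
    rw [mul_pow, ← mul_assoc, ← Real.exp_nat_mul,
      show ((e : ℝ) + 1 / 2) * q n = 1 / 2 * q n + e * q n by ring, Real.exp_add]
    refine mul_le_mul_of_nonneg_right (h8.trans ?_) (Real.exp_pos _).le
    linarith [Real.add_one_le_exp (1 / 2 * q n)]

end Pool.Agent.Lib.MP_c9a594_an.FS
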