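import Pool.Agent.Lib.MP_c9a594_an.FS.Final
import Pool.Agent.Lib.MP_c9a594_an.FS.TwoAlgB

/-! Dilates of two invariant sets for two independent bases. -/

namespace Pool.Agent.Lib.MP_c9a594_an.FS

open MeasureTheory Filter Topology

variable {a b : ℕ}

theorem ts_equi (hb : 2 ≤ b) {P : Measure (Om b)} [IsProbabilityMeasure P] (hP : Inv P)
    (hN : NoPred P) {U : Ultrafilter ℕ} {t : ℕ → ℝ}
    (h : ∀ l : ℤ, l ≠ 0 → ¬ Rep U b fun n => (l : ℝ) * t n) (f : C(UnitAddCircle, ℂ)) :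
    Tendsto (fun n : ℕ => ∫ ω, f ((t n * Yv ω : ℝ) : UnitAddCircle) ∂P) U (𝓝 (∫ x, f x)) := by
  have hfour : ∀ l : ℤ, l ≠ 0 →
      Tendsto (fun n : ℕ => ∫ ω, ee ((l : ℝ) * t n * Yv ω) ∂P) U (𝓝 0) := by
    intro l hl
    by_contra hc
    rw [NormedAddGroup.tendsto_nhds_zero] at hc
    simp only [not_forall] at hc
    obtain ⟨ε, hε, hf⟩ := hc
    refine h l hl (rep_of_Bf hb hP hN U (δ := ε / 2 * (ε / 2)) (by positivity) ?_)
    filter_upwards [Ultrafilter.eventually_not.2 hf] with n hn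
    have h2 := norm_integral_ee_le (P := P) hb ((l : ℝ) * t n) (half_pos hε)
    have h3 : ε / 2 ≤ Bf P ((l : ℝ) * t n) / (ε / 2) := by
      have h4 := not_lt.1 hn
      linarith
    exact (le_div_iff₀ (half_pos hε)).1 h3
  have hprob : IsProbabilityMeasure (volume : Measure UnitAddCircle) :=
    ⟨UnitAddCircle.measure_univ⟩
  have hc : ∀ n : ℕ, Continuous fun ω : Om b => ((t n * Yv ω : ℝ) : UnitAddCircle) := fun n =>
    (AddCircle.continuous_mk' 1).comp (continuous_const.mul (continuous_Yv hb))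
  have hi : ∀ (g : C(UnitAddCircle, ℂ)) (n : ℕ),
      Integrable (fun ω : Om b => g ((t n * Yv ω : ℝ) : UnitAddCircle)) P := fun g n =>
    (g.continuous.comp (hc n)).integrable_of_hasCompactSupport (HasCompactSupport.of_compactSpace _)
  have hi' : ∀ g : C(UnitAddCircle, ℂ), Integrable g := fun g =>
    g.continuous.integrable_of_hasCompactSupport (HasCompactSupport.of_compactSpace _)
  have hspan : ∀ g ∈ Submodule.span ℂ (Set.range (@fourier 1)),
      Tendsto (fun n : ℕ => ∫ ω, g ((t n * Yv ω : ℝ) : UnitAddCircle) ∂P) U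
        (𝓝 (∫ x, g x)) := by
    intro g hg
    induction hg using Submodule.span_induction with
    | mem g hg =>
      obtain ⟨l, rfl⟩ := hg
      by_cases hl : l = 0
      · subst hl
        simp
      · have h0 : ∫ x : UnitAddCircle, fourier l x = 0 := by
          have h1 := congrFun (fourierCoeff_fourier (T := 1) l) 0
          rw [Pi.single_eq_of_ne (Ne.symm hl), fourierCoeff, AddCircle.integral_haarAddCircle] at h1
          simpa using h1
        rw [h0]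
        refine (hfour l hl).congr fun n => ?_
        refine integral_congr_ae (Eventually.of_forall fun ω => ?_)
        simp only
        rw [fourier_coe_apply, ee]
        congr 1
        push_cast
        ring
    | zero => simp
    | add g g' _ _ h1 h2 =>
      simp only [ContinuousMap.add_apply, integral_add (hi g _) (hi g' _),
        integral_add (hi' g) (hi' g')]
      exact h1.add h2
    | smul c g _ h1 =>
      simp only [ContinuousMap.smul_apply, integral_smul]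
      exact h1.const_smul c
  rw [Metric.tendsto_nhds]
  intro ε hε
  have hf : f ∈ closure (Submodule.span ℂ (Set.range (@fourier 1)) : Set C(UnitAddCircle, ℂ)) := by
    rw [← Submodule.topologicalClosure_coe, span_fourier_closure_eq_top]
    trivial
  obtain ⟨g, hg, hfg⟩ := Metric.mem_closure_iff.1 hf (ε / 3) (by positivity)
  filter_upwards [Metric.tendsto_nhds.1 (hspan g hg) (ε / 3) (by positivity)] with n hn
  have h1 : dist (∫ ω, f ((t n * Yv ω : ℝ) : UnitAddCircle) ∂P)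
      (∫ ω, g ((t n * Yv ω : ℝ) : UnitAddCircle) ∂P) ≤ dist f g := by
    rw [dist_eq_norm, ← integral_sub (hi f n) (hi g n)]
    refine (norm_integral_le_of_norm_le_const (C := dist f g)
      (Eventually.of_forall fun ω => ?_)).trans (by simp)
    rw [← dist_eq_norm]
    exact ContinuousMap.dist_apply_le_dist _
  have h2 : dist (∫ x, g x) (∫ x, f x) ≤ dist f g := by
    rw [dist_comm, dist_eq_norm, ← integral_sub (hi' f) (hi' g)]
    refine (norm_integral_le_of_norm_le_const (C := dist f g)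
      (Eventually.of_forall fun x => ?_)).trans (by simp)
    rw [← dist_eq_norm]
    exact ContinuousMap.dist_apply_le_dist _
  have h3 := dist_triangle4 (∫ ω, f ((t n * Yv ω : ℝ) : UnitAddCircle) ∂P)
    (∫ ω, g ((t n * Yv ω : ℝ) : UnitAddCircle) ∂P) (∫ x, g x) (∫ x, f x)
  linarith

theorem ts_core (hb : 2 ≤ b) {S : Set (Om b)} (hS : ∀ ω ∈ S, sh 1 ω ∈ S) {c : ℝ} (hc : 0 < c)
    (h : ∃ᶠ N : ℕ in atTop, Real.exp (c * N) ≤ (wd 0 N '' S).ncard) {U : Ultrafilter ℕ}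
    {t : ℕ → ℝ} (hrep : ∀ l : ℤ, l ≠ 0 → ¬ Rep U b fun n => (l : ℝ) * t n) {u v : ℝ} (hu : 0 ≤ u)
    (huv : u < v) (hv : v ≤ 1) :
    ∀ᶠ n : ℕ in U, ∃ ω ∈ S, Int.fract (t n * Yv ω) ∈ Set.Ioo u v := by
  obtain ⟨P, hP, hinv, hpos, hsupp⟩ := exists_posEnt hb hS hc h
  obtain ⟨Q, hQ, hQP, hinvQ, hN⟩ := exists_noPred hb hinv hpos
  set J : Set UnitAddCircle := ((↑) : ℝ → UnitAddCircle) '' Set.Ioo u v with hJ
  have hJo : IsOpen J := QuotientAddGroup.isOpenMap_coe _ isOpen_Ioo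
  have hJc : (Jᶜ).Nonempty := ⟨((0 : ℝ) : UnitAddCircle), fun h0 => by
    have h1 := (final_mem_arc hu hv).1 h0
    rw [Int.fract_zero] at h1
    linarith [h1.1]⟩
  let φ : UnitAddCircle → ℝ := fun x => Metric.infDist x Jᶜ
  have hφ : Continuous φ := Metric.continuous_infDist_pt _
  have hφ0 : ∀ x, 0 ≤ φ x := fun x => Metric.infDist_nonneg
  have hI : 0 < ∫ x, φ x := by
    refine hφ.integral_pos_of_hasCompactSupport_nonneg_nonzero (HasCompactSupport.of_compactSpace _)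
      hφ0 (x := (((u + v) / 2 : ℝ) : UnitAddCircle)) ?_
    refine ((hJo.isClosed_compl.notMem_iff_infDist_pos hJc).1 fun h1 => h1 ?_).ne'
    exact ⟨_, ⟨by linarith, by linarith⟩, rfl⟩
  have ht := ts_equi hb hinvQ hN hrep ⟨fun x => (φ x : ℂ), Complex.continuous_ofReal.comp hφ⟩
  simp only [ContinuousMap.coe_mk, integral_complex_ofReal] at ht
  have hne : ((∫ x, φ x : ℝ) : ℂ) ≠ 0 := by exact_mod_cast hI.ne'
  filter_upwards [ht.eventually_ne hne] with n hn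
  by_contra hcon
  push Not at hcon
  apply hn
  have hcont : Continuous fun ω : Om b => φ ((t n * Yv ω : ℝ) : UnitAddCircle) :=
    hφ.comp ((AddCircle.continuous_mk' 1).comp (continuous_const.mul (continuous_Yv hb)))
  have h1 := hsupp _ hcont fun ω hω => by
    refine Metric.infDist_zero_of_mem fun h2 => hcon ω hω ?_
    rwa [final_mem_arc hu hv] at h2
  rw [integral_eq_zero_iff_of_nonneg (fun ω => hφ0 _) (hcont.integrable_of_hasCompactSupport
    (HasCompactSupport.of_compactSpace _))] at h1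
  have h2 : (fun ω : Om b => φ ((t n * Yv ω : ℝ) : UnitAddCircle)) =ᵐ[Q] 0 := hQP.ae_le h1
  rw [integral_congr_ae h2]
  simp

theorem ts_set (hb : 2 ≤ b) {Y : Set ℝ} (hY : Y ⊆ Set.Ico 0 1)
    (hT : ∀ y ∈ Y, Int.fract ((b : ℝ) * y) ∈ Y) (h : 0 < dimH (closure Y)) {U : Ultrafilter ℕ}
    {t : ℕ → ℝ} (hrep : ∀ l : ℤ, l ≠ 0 → ¬ Rep U b fun n => (l : ℝ) * t n) {u v : ℝ} (hu : 0 ≤ u)
    (huv : u < v) (hv : v ≤ 1) :
    ∀ᶠ n : ℕ in U, ∃ y ∈ Y, Int.fract (t n * y) ∈ Set.Ioo u v := by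
  obtain ⟨π, -, h1, -, -, h4⟩ := exists_dig hb
  obtain ⟨c, hc, hmany⟩ := many_of_dimH hb hY h
  have hit : ∀ y ∈ Y, ∀ k : ℕ, Int.fract ((b : ℝ) ^ k * y) ∈ Y := by
    intro y hy k
    induction k with
    | zero => simpa [Int.fract_eq_self.2 (hY hy)] using hy
    | succ k ih =>
      have h5 := hT _ ih
      have h6 : Int.fract ((b : ℝ) * Int.fract ((b : ℝ) ^ k * y)) =
          Int.fract ((b : ℝ) ^ (k + 1) * y) := by
        rw [Int.fract_eq_fract]
        refine ⟨-(b * ⌊(b : ℝ) ^ k * y⌋), ?_⟩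
        rw [Int.fract]
        push_cast
        ring
      rwa [h6] at h5
  have hcore := ts_core hb (S := {ω | ∃ y ∈ Y, ∃ k : ℕ, ω = sh k (π y)}) ?_ hc ?_ hrep hu huv hv
  · filter_upwards [hcore] with n hn
    obtain ⟨_, ⟨y, hy, k, rfl⟩, hn⟩ := hn
    exact ⟨_, hit y hy k, by rwa [h1] at hn⟩
  · rintro _ ⟨y, hy, k, rfl⟩
    exact ⟨y, hy, k + 1, by rw [sh_sh]; push_cast; rw [add_comm]⟩
  · refine hmany.mono fun N hN => hN.trans ?_
    classical
    let F : (Fin N → Fin b) → ℤ := fun w =>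
      if hw : ∃ y ∈ Y, wd 0 N (π y) = w then ⌊(b : ℝ) ^ N * hw.choose⌋ else 0
    have hsub : (fun y => ⌊(b : ℝ) ^ N * y⌋) '' Y ⊆
        F '' (wd 0 N '' {ω | ∃ y ∈ Y, ∃ k : ℕ, ω = sh k (π y)}) := by
      rintro _ ⟨y, hy, rfl⟩
      refine ⟨wd 0 N (π y), ⟨π y, ⟨y, hy, 0, by simp [sh_zero]⟩, rfl⟩, ?_⟩
      have hw : ∃ y' ∈ Y, wd 0 N (π y') = wd 0 N (π y) := ⟨y, hy, rfl⟩
      simp only [F, dif_pos hw]
      obtain ⟨h5, h6⟩ := hw.choose_spec
      have h7 : Xw N (π hw.choose) = Xw N (π y) :=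
        (Xw_eq_iff _ _ _).2 fun j hj => (wd_eq_iff _ _ _ _).1 h6 j (by omega) (by omega)
      have h8 := h4 hw.choose N
      rw [h7, h4 y N, Int.fract_eq_self.2 (hY hy), Int.fract_eq_self.2 (hY h5)] at h8
      exact h8.symm
    exact_mod_cast (Set.ncard_le_ncard hsub (Set.toFinite _ |>.image _)).trans
      (Set.ncard_image_le (Set.toFinite _))

theorem ts_dense (hb : 2 ≤ b) {Y : Set ℝ} (hY : Y ⊆ Set.Ico 0 1)
    (hT : ∀ y ∈ Y, Int.fract ((b : ℝ) * y) ∈ Y) (h : 0 < dimH (closure Y)) {U : Ultrafilter ℕ}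
    {t : ℕ → ℝ} (hrep : ∀ l : ℤ, l ≠ 0 → ¬ Rep U b fun n => (l : ℝ) * t n) {ε : ℝ} (hε : 0 < ε) :
    ∀ᶠ n : ℕ in U, ∀ u : ℝ, 0 ≤ u → u + ε ≤ 1 →
      ∃ y ∈ Y, Int.fract (t n * y) ∈ Set.Ioo u (u + ε) := by
  by_contra hcon
  have h1 := (Ultrafilter.eventually_not.2 hcon).mono fun n hn => not_forall.1 hn
  obtain ⟨w, hw⟩ := h1.choice
  simp only [Classical.not_imp] at hw
  obtain ⟨u, hu, hlim⟩ := (isCompact_Icc (a := (0 : ℝ)) (b := 1 - ε)).ultrafilter_le_nhds (U.map w)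
    (le_principal_iff.mpr (hw.mono fun n hn => ⟨hn.1, by linarith [hn.2.1]⟩))
  have hlim' : Tendsto w U (𝓝 u) := hlim
  have h2 := ts_set hb hY hT h hrep (u := u + ε / 3) (v := u + 2 * ε / 3) (by linarith [hu.1])
    (by linarith) (by linarith [hu.2])
  obtain ⟨n, ⟨h3, y, hy, h4⟩, h5⟩ :=
    ((hw.and h2).and (Metric.tendsto_nhds.1 hlim' (ε / 3) (by positivity))).exists
  rw [Real.dist_eq, abs_lt] at h5
  exact h3.2.2 ⟨y, hy, by linarith [h4.1], by linarith [h4.2]⟩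

theorem two_set (ha : 2 ≤ a) (hb : 2 ≤ b) (hab : ∀ m n : ℕ, a ^ m = b ^ n → m = 0 ∧ n = 0)
    {X Y : Set ℝ} (hX : X ⊆ Set.Ico 0 1) (hS : ∀ x ∈ X, Int.fract ((a : ℝ) * x) ∈ X)
    (hdX : 0 < dimH (closure X)) (hY : Y ⊆ Set.Ico 0 1)
    (hT : ∀ y ∈ Y, Int.fract ((b : ℝ) * y) ∈ Y) (hdY : 0 < dimH (closure Y)) {ρ : ℝ} (hρ : ρ ≠ 0)
    (halg : IsAlgebraic ℚ ρ) {ε : ℝ} (hε : 0 < ε) :
    ∃ T : ℝ, ∀ t : ℝ, T ≤ |t| →
      (∀ u : ℝ, 0 ≤ u → u + ε ≤ 1 → ∃ x ∈ X, Int.fract (t * x) ∈ Set.Ioo u (u + ε)) ∨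
      ∀ u : ℝ, 0 ≤ u → u + ε ≤ 1 → ∃ y ∈ Y, Int.fract (ρ * t * y) ∈ Set.Ioo u (u + ε) := by
  by_contra hcon
  have h0 : ∀ n : ℕ, ∃ t : ℝ, (n : ℝ) ≤ |t| ∧ ¬
      ((∀ u : ℝ, 0 ≤ u → u + ε ≤ 1 → ∃ x ∈ X, Int.fract (t * x) ∈ Set.Ioo u (u + ε)) ∨
      ∀ u : ℝ, 0 ≤ u → u + ε ≤ 1 → ∃ y ∈ Y, Int.fract (ρ * t * y) ∈ Set.Ioo u (u + ε)) :=
    fun n => by
      by_contra h1
      exact hcon ⟨n, fun t ht => by_contra fun h2 => h1 ⟨t, ht, h2⟩⟩
  choose t ht hbad using h0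
  have hU : ((hyperfilter ℕ : Ultrafilter ℕ) : Filter ℕ) ≤ atTop := Nat.hyperfilter_le_atTop
  have hγ : Tendsto (fun n => |t n|) (hyperfilter ℕ) atTop :=
    (tendsto_atTop_mono ht tendsto_natCast_atTop_atTop).mono_left hU
  by_cases hcase : ∃ l : ℤ, l ≠ 0 ∧ Rep (hyperfilter ℕ) a fun n => (l : ℝ) * t n
  · obtain ⟨l, hl, hr⟩ := hcase
    have hl0 : (l : ℝ) ≠ 0 := by exact_mod_cast hl
    have hγ' : Tendsto (fun n => |(l : ℝ) * t n|) (hyperfilter ℕ) atTop := by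
      simpa only [abs_mul] using hγ.const_mul_atTop (abs_pos.2 hl0)
    obtain ⟨n, hn⟩ := (ts_dense hb hY hT hdY (U := hyperfilter ℕ) (t := fun n => ρ * t n)
      (fun l' hl' hr' => ta_not_rep ha hb hab hγ' (θ := (l' : ℝ) * ρ * (l : ℝ)⁻¹)
        (mul_ne_zero (mul_ne_zero (by exact_mod_cast hl') hρ) (inv_ne_zero hl0))
        (((isAlgebraic_intCast l').mul halg).mul (isAlgebraic_intCast l).inv) hr (by
          have e : (fun n => (l' : ℝ) * ρ * (l : ℝ)⁻¹ * ((l : ℝ) * t n)) =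
              fun n => (l' : ℝ) * (ρ * t n) := by
            funext n
            field_simp
          rwa [e])) hε).exists
    exact hbad n (Or.inr hn)
  · obtain ⟨n, hn⟩ := (ts_dense ha hX hS hdX (U := hyperfilter ℕ) (t := t)
      (fun l hl hr => hcase ⟨l, hl, hr⟩) hε).exists
    exact hbad n (Or.inl hn)

end Pool.Agent.Lib.MP_c9a594_an.FS
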